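import Mathlib
import Pool.Agent.H692.RT.Abs

/-!
# Trees: differences, cut trees, the forms of the first rounds
-/

set_option autoImplicit false
set_option linter.unusedSectionVars false

namespace Pool.Agent.H692.RR

open Finset
open Pool.Agent.H692.KS
open Pool.Agent.H692.RT (forms nowForms)

variable {ι : Type} [Fintype ι]

/-- on the common path of `y` and `z` there is a round with different outcomes -/
def Diff : KS.LT ι → (ι → ℝ) → (ι → ℝ) → Prop
  | .leaf _, _, _ => False
  | .round _ L σ next, y, z => ans L σ y ≠ ans L σ z ∨ Diff (next (ans L σ y)) y z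

theorem of_not_diff (R : KS.LT ι) {y z : ι → ℝ} (hy : ∀ L ∈ forms R, L ≠ 0 → dot L y ≠ 0)
    (h : ¬ Diff R y z) : R.Gen z ∧ R.run y = R.run z := by
  induction R with
  | leaf b => exact ⟨trivial, rfl⟩
  | round m L σ next ih =>
    unfold Diff at h
    rw [not_or, not_not] at h
    obtain ⟨h1, h2⟩ := h
    have h3 := ih (ans L σ y) (fun L' hL' => hy L' (Or.inr (Set.mem_iUnion.2 ⟨_, hL'⟩))) h2
    refine ⟨⟨fun i hi => ?_, ?_⟩, ?_⟩
    · intro h0
      have h4 := hy (L i) (Or.inl ⟨i, rfl⟩) hi
      have h5 := congrFun h1 i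
      unfold ans at h5
      rw [if_neg hi, if_neg hi, h0, sign_zero] at h5
      exact h4 (sign_eq_zero_iff.1 h5)
    · rw [← h1]
      exact h3.1
    · show (next (ans L σ y)).run y = (next (ans L σ z)).run z
      rw [← h1]
      exact h3.2

/-- the tree is cut if more than `T` tests are made -/
def cap : KS.LT ι → ℕ → KS.LT ι
  | .leaf b, _ => .leaf b
  | .round m L σ next, T =>
    if m ≤ T then .round m L σ (fun a => cap (next a) (T - m)) else .leaf false

theorem cap_tests (R : KS.LT ι) (u : ι → ℝ) : ∀ T : ℕ, (cap R T).tests u ≤ T := by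
  induction R with
  | leaf b => exact fun T => Nat.zero_le _
  | round m L σ next ih =>
    intro T
    unfold cap
    split_ifs with h
    · show (cap (next (ans L σ u)) (T - m)).tests u + m ≤ T
      have := ih (ans L σ u) (T - m)
      omega
    · exact Nat.zero_le _

theorem cap_rounds (R : KS.LT ι) (u : ι → ℝ) : ∀ T : ℕ, (cap R T).rounds u ≤ R.rounds u := by
  induction R with
  | leaf b => exact fun T => le_rfl
  | round m L σ next ih =>
    intro T
    unfold cap
    split_ifs with h
    · show (cap (next (ans L σ u)) (T - m)).rounds u + 1 ≤ (next (ans L σ u)).rounds u + 1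
      have := ih (ans L σ u) (T - m)
      omega
    · exact Nat.zero_le _

theorem forms_cap (R : KS.LT ι) : ∀ T : ℕ, forms (cap R T) ⊆ forms R := by
  induction R with
  | leaf b => exact fun T => subset_rfl
  | round m L σ next ih =>
    intro T
    unfold cap
    split_ifs with h
    · rintro L' (hL' | hL')
      · exact Or.inl hL'
      · obtain ⟨a, ha⟩ := Set.mem_iUnion.1 hL'
        exact Or.inr (Set.mem_iUnion.2 ⟨a, ih a _ ha⟩)
    · exact Set.empty_subset _

theorem cap_diff (R : KS.LT ι) {y z : ι → ℝ} : ∀ T : ℕ, Diff R y z → R.tests y ≤ T →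
    Diff (cap R T) y z := by
  induction R with
  | leaf b => exact fun T h _ => h
  | round m L σ next ih =>
    intro T h1 h2
    have h3 : (next (ans L σ y)).tests y + m ≤ T := h2
    unfold cap
    rw [if_pos (by omega)]
    rcases h1 with h1 | h1
    · exact Or.inl h1
    · exact Or.inr (ih _ _ h1 (by omega))

open Classical in
/-- the forms which are tested in the first `k` rounds for the input `u` -/
noncomputable def tf : KS.LT ι → ℕ → (ι → ℝ) → Finset (ι → ℝ)
  | .leaf _, _, _ => ∅
  | .round _ _ _ _, 0, _ => ∅
  | .round _ L σ next, k + 1, u => univ.image L ∪ tf (next (ans L σ u)) k u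

theorem tf_zero (R : KS.LT ι) (u : ι → ℝ) : tf R 0 u = ∅ := by
  cases R <;> rfl

theorem tf_leaf (b : Bool) (k : ℕ) (u : ι → ℝ) : tf (.leaf b) k u = ∅ := by
  cases k <;> rfl

theorem card_tf (R : KS.LT ι) (u : ι → ℝ) : ∀ k : ℕ, #(tf R k u) ≤ R.tests u := by
  classical
  induction R with
  | leaf b => intro k; rw [tf_leaf]; exact Nat.zero_le _
  | round m L σ next ih =>
    intro k
    cases k with
    | zero => exact Nat.zero_le _
    | succ k =>
      show #(univ.image L ∪ tf (next (ans L σ u)) k u) ≤ (next (ans L σ u)).tests u + m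
      have h1 := card_union_le (univ.image L) (tf (next (ans L σ u)) k u)
      have h2 := ih (ans L σ u) k
      have h3 : #(univ.image L) ≤ m := card_image_le.trans (by simp)
      omega

theorem tf_forms (R : KS.LT ι) (u : ι → ℝ) : ∀ k : ℕ, ∀ L ∈ tf R k u, L ∈ forms R := by
  classical
  induction R with
  | leaf b => intro k L hL; rw [tf_leaf] at hL; exact absurd hL (notMem_empty _)
  | round m L σ next ih =>
    intro k L' hL'
    cases k with
    | zero => exact absurd hL' (notMem_empty _)
    | succ k =>
      have h1 : L' ∈ univ.image L ∪ tf (next (ans L σ u)) k u := hL'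
      rcases mem_union.1 h1 with h | h
      · obtain ⟨i, -, hi⟩ := mem_image.1 h
        exact Or.inl ⟨i, hi⟩
      · exact Or.inr (Set.mem_iUnion.2 ⟨_, ih _ k L' h⟩)

theorem tf_mono (R : KS.LT ι) (u : ι → ℝ) : ∀ k : ℕ, tf R k u ⊆ tf R (k + 1) u := by
  classical
  induction R with
  | leaf b => intro k; rw [tf_leaf]; exact empty_subset _
  | round m L σ next ih =>
    intro k
    cases k with
    | zero => exact empty_subset _
    | succ k =>
      show univ.image L ∪ tf (next (ans L σ u)) k u ⊆ univ.image L ∪ tf (next (ans L σ u)) (k + 1) u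
      exact union_subset_union subset_rfl (ih _ k)

/-- the tree which remains after `k` rounds for the input `u` -/
noncomputable def sub : KS.LT ι → ℕ → (ι → ℝ) → KS.LT ι
  | .leaf b, _, _ => .leaf b
  | .round m L σ next, 0, _ => .round m L σ next
  | .round _ L σ next, k + 1, u => sub (next (ans L σ u)) k u

theorem sub_leaf (b : Bool) (k : ℕ) (u : ι → ℝ) : sub (.leaf b) k u = .leaf b := by
  cases k <;> rfl

theorem ans_eq {m : ℕ} {L : Fin m → ι → ℝ} {σ : Fin m → SignType} {u y : ι → ℝ}
    (h : ∀ i, L i ≠ 0 → SignType.sign (dot (L i) y) = SignType.sign (dot (L i) u)) :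
    ans L σ y = ans L σ u := by
  funext i
  unfold ans
  split_ifs with h0
  · rfl
  · exact h i h0

theorem sub_path (R : KS.LT ι) {u y z : ι → ℝ} : ∀ k : ℕ,
    (∀ L ∈ tf R k u, L ≠ 0 → SignType.sign (dot L y) = SignType.sign (dot L u) ∧
      SignType.sign (dot L z) = SignType.sign (dot L u)) →
    (Diff R y z → Diff (sub R k u) y z) ∧ (sub R k u).rounds y ≤ R.rounds y - k := by
  classical
  induction R with
  | leaf b => intro k _; rw [sub_leaf]; exact ⟨id, Nat.zero_le _⟩
  | round m L σ next ih =>
    intro k h
    cases k with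
    | zero => exact ⟨id, le_rfl⟩
    | succ k =>
      have h1 : ans L σ y = ans L σ u := ans_eq fun i hi =>
        (h (L i) (mem_union_left _ (mem_image.2 ⟨i, mem_univ _, rfl⟩)) hi).1
      have h2 : ans L σ z = ans L σ u := ans_eq fun i hi =>
        (h (L i) (mem_union_left _ (mem_image.2 ⟨i, mem_univ _, rfl⟩)) hi).2
      have h3 := ih (ans L σ u) k fun L' hL' => h L' (mem_union_right _ hL')
      show (ans L σ y ≠ ans L σ z ∨ Diff (next (ans L σ y)) y z →
        Diff (sub (next (ans L σ u)) k u) y z) ∧ (sub (next (ans L σ u)) k u).rounds y ≤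
          (next (ans L σ y)).rounds y + 1 - (k + 1)
      rw [h1, h2]
      refine ⟨?_, by have := h3.2; omega⟩
      rintro (h4 | h4)
      · exact absurd rfl h4
      · exact h3.1 h4

theorem sub_tests (R : KS.LT ι) (u : ι → ℝ) : ∀ k : ℕ, (sub R k u).tests u ≤ R.tests u := by
  induction R with
  | leaf b => intro k; rw [sub_leaf]
  | round m L σ next ih =>
    intro k
    cases k with
    | zero => exact le_rfl
    | succ k =>
      show (sub (next (ans L σ u)) k u).tests u ≤ (next (ans L σ u)).tests u + m
      have := ih (ans L σ u) k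
      omega

theorem forms_sub (R : KS.LT ι) (u : ι → ℝ) : ∀ k : ℕ, forms (sub R k u) ⊆ forms R := by
  induction R with
  | leaf b => intro k; rw [sub_leaf]
  | round m L σ next ih =>
    intro k
    cases k with
    | zero => exact subset_rfl
    | succ k =>
      intro L' hL'
      exact Or.inr (Set.mem_iUnion.2 ⟨_, ih _ k hL'⟩)

theorem now_of_diff (R : KS.LT ι) {y z : ι → ℝ} (h : Diff R y z) (hr : R.rounds y ≤ 1) :
    ∃ L ∈ nowForms R, L ≠ 0 ∧ SignType.sign (dot L y) ≠ SignType.sign (dot L z) := by
  cases R with
  | leaf b => exact absurd h id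
  | round m L σ next =>
    have h1 : ans L σ y ≠ ans L σ z := by
      rcases h with h | h
      · exact h
      · have h2 : (next (ans L σ y)).rounds y + 1 ≤ 1 := hr
        have h3 : (next (ans L σ y)).rounds y = 0 := by omega
        exfalso
        revert h h3
        cases next (ans L σ y) with
        | leaf b => exact fun h _ => h
        | round m' L' σ' next' =>
          intro _ h3
          have : (next' (ans L' σ' y)).rounds y + 1 = 0 := h3
          omega
    by_contra hcon
    push Not at hcon
    exact h1 (ans_eq fun i hi => hcon (L i) ⟨i, rfl⟩ hi)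

theorem now_forms (R : KS.LT ι) : nowForms R ⊆ forms R := by
  cases R with
  | leaf b => exact subset_rfl
  | round m L σ next => exact fun L' h => Or.inl h

end Pool.Agent.H692.RR
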