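import Mathlib
import Pool.Agent.H692.RR.Tree

/-!
# The number of the transcripts
-/

set_option autoImplicit false
set_option linter.unusedSectionVars false

namespace Pool.Agent.H692.RR

open Finset
open Pool.Agent.H692.KS
open Pool.Agent.H692.RT (forms nowForms)

variable {ι : Type} [Fintype ι]

theorem sum_choose_le (m D : ℕ) : ∑ k ∈ range (D + 1), m.choose k ≤ (m + 1) ^ D := by
  rw [add_pow]
  refine sum_le_sum fun k hk => ?_
  rw [one_pow, mul_one]
  have h1 : m.choose k ≤ m ^ k := Nat.choose_le_pow m k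
  have h2 : 1 ≤ D.choose k := Nat.choose_pos (by rw [mem_range] at hk; omega)
  calc m.choose k ≤ m ^ k * 1 := by rw [mul_one]; exact h1
    _ ≤ m ^ k * D.choose k := Nat.mul_le_mul_left _ h2

theorem dot_sum {κ : Type} (s : Finset κ) (g : κ → ℝ) (L : κ → ι → ℝ) (u : ι → ℝ) :
    dot (∑ i ∈ s, g i • L i) u = ∑ i ∈ s, g i * dot (L i) u := by
  classical
  induction s using Finset.induction_on with
  | empty => unfold dot; simp
  | insert i s hi ih =>
    rw [sum_insert hi, sum_insert hi, ← ih]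
    unfold dot
    rw [mul_sum, ← sum_add_distrib]
    refine sum_congr rfl fun e _ => ?_
    rw [Pi.add_apply, Pi.smul_apply, smul_eq_mul]
    ring

/-- the number of the sign vectors on a space of small dimension -/
theorem card_ans {m : ℕ} (L : Fin m → ι → ℝ) (σ : Fin m → SignType) (U : Set (ι → ℝ))
    (Lk : Set (ι → ℝ)) (h1 : ∀ i, L i ∉ Lk → ∀ u ∈ U, ∀ u' ∈ U,
      SignType.sign (dot (L i) u) = SignType.sign (dot (L i) u'))
    (h2 : ∀ u ∈ U, ∀ i, L i ≠ 0 → dot (L i) u ≠ 0) {D : ℕ}
    (h3 : Module.finrank ℝ (Submodule.span ℝ (Set.range L ∩ Lk)) ≤ D) :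
    ((fun u => ans L σ u) '' U).ncard ≤ (m + 1) ^ D := by
  classical
  set P : (ι → ℝ) → Finset (Fin m) := fun u =>
    univ.filter fun i => (L i ≠ 0 ∧ L i ∈ Lk) ∧ 0 < dot (L i) u with hP
  set A : Finset (Finset (Fin m)) := (Set.toFinite (P '' U)).toFinset with hA
  have hmemA : ∀ s, s ∈ A ↔ ∃ u ∈ U, P u = s := by
    intro s
    rw [hA, Set.Finite.mem_toFinset]
    rfl
  -- the answers are determined by `P`
  have h4 : ∀ u ∈ U, ∀ u' ∈ U, P u = P u' → ans L σ u = ans L σ u' := by
    intro u hu u' hu' h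
    refine ans_eq fun i hi => ?_
    by_cases hL : L i ∈ Lk
    · have h5 : (i ∈ P u ↔ i ∈ P u') := by rw [h]
      simp only [hP, mem_filter, mem_univ, true_and, hi, hL, ne_eq, not_false_eq_true] at h5
      have h6 := h2 u hu i hi
      have h7 := h2 u' hu' i hi
      rcases lt_or_gt_of_ne h6 with h8 | h8
      · rcases lt_or_gt_of_ne h7 with h9 | h9
        · rw [sign_neg h8, sign_neg h9]
        · exact absurd (h5.2 h9) (not_lt.2 h8.le)
      · rw [sign_pos h8, sign_pos (h5.1 h8)]
    · exact h1 i hL u hu u' hu'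
  have h5 : ((fun u => ans L σ u) '' U).ncard ≤ #A := by
    have h6 : ∀ s : Finset (Fin m), ∃ a : Fin m → SignType, ∀ u ∈ U, P u = s →
        ans L σ u = a := by
      intro s
      by_cases h : ∃ u ∈ U, P u = s
      · obtain ⟨u, hu, hus⟩ := h
        exact ⟨ans L σ u, fun u' hu' h' => h4 u' hu' u hu (h'.trans hus.symm)⟩
      · exact ⟨fun _ => 0, fun u hu hus => absurd ⟨u, hu, hus⟩ h⟩
    choose f hf using h6
    have h7 : (fun u => ans L σ u) '' U ⊆ (A.image f : Set (Fin m → SignType)) := by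
      rintro a ⟨u, hu, rfl⟩
      rw [coe_image]
      exact ⟨P u, mem_coe.2 ((hmemA _).2 ⟨u, hu, rfl⟩), (hf _ u hu rfl).symm⟩
    calc ((fun u => ans L σ u) '' U).ncard ≤ (A.image f : Set (Fin m → SignType)).ncard :=
          Set.ncard_le_ncard h7 (Finset.finite_toSet _)
      _ = #(A.image f) := Set.ncard_coe_finset _
      _ ≤ #A := card_image_le
  -- shattered sets are independent
  have h6 : ∀ s ∈ A.shatterer, #s ≤ D := by
    intro s hs
    rw [mem_shatterer] at hs
    obtain ⟨u₀, hu₀, hu₀s⟩ : ∃ u ∈ U, s ∩ P u = s := by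
      obtain ⟨t, ht, hst⟩ := hs (Subset.refl s)
      obtain ⟨u, hu, rfl⟩ := (hmemA t).1 ht
      exact ⟨u, hu, hst⟩
    have hsP : ∀ i ∈ s, L i ≠ 0 ∧ L i ∈ Lk := by
      intro i hi
      rw [← hu₀s, mem_inter] at hi
      exact (mem_filter.1 hi.2).2.1
    have hli : LinearIndependent ℝ (fun i : s => L i) := by
      rw [Fintype.linearIndependent_iff]
      intro g hg
      obtain ⟨t, ht, hst⟩ := hs (t := s.filter fun i => ∃ h : i ∈ s, 0 < g ⟨i, h⟩)
        (filter_subset _ _)
      obtain ⟨u, hu, rfl⟩ := (hmemA t).1 ht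
      have h7 : ∀ i : s, (0 < dot (L i) u ↔ 0 < g i) := by
        intro i
        have h8 : (i.1 ∈ s ∩ P u ↔ i.1 ∈ s.filter fun i => ∃ h : i ∈ s, 0 < g ⟨i, h⟩) := by
          rw [hst]
        simp only [hP, mem_inter, mem_filter, mem_univ, true_and, i.2, exists_true_left,
          (hsP i i.2).1, (hsP i i.2).2, ne_eq, not_false_eq_true] at h8
        exact h8
      have h8 : ∀ i : s, 0 ≤ g i * dot (L i) u := by
        intro i
        by_cases hgi : 0 < g i
        · exact (mul_pos hgi ((h7 i).2 hgi)).le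
        · have h9 : ¬ 0 < dot (L i) u := fun h => hgi ((h7 i).1 h)
          push Not at hgi h9
          exact mul_nonneg_of_nonpos_of_nonpos hgi h9
      have h9 : ∑ i : s, g i * dot (L i) u = 0 := by
        rw [← dot_sum, hg]
        unfold dot
        simp
      rw [sum_eq_zero_iff_of_nonneg fun i _ => h8 i] at h9
      intro i
      have h10 := h9 i (mem_univ i)
      exact (mul_eq_zero.1 h10).resolve_right (h2 u hu i (hsP i i.2).1)
    have h7 := finrank_span_eq_card hli
    rw [Fintype.card_coe] at h7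
    rw [← h7]
    refine le_trans (Submodule.finrank_mono (Submodule.span_mono ?_)) h3
    rintro _ ⟨i, rfl⟩
    exact ⟨⟨i, rfl⟩, (hsP i i.2).2⟩
  have h7 : #A.shatterer ≤ (m + 1) ^ D := by
    calc #A.shatterer ≤ #((range (D + 1)).biUnion fun k => powersetCard k (univ : Finset (Fin m))) := by
          refine card_le_card fun s hs => ?_
          rw [mem_biUnion]
          exact ⟨#s, mem_range.2 (by have := h6 s hs; omega), mem_powersetCard.2 ⟨subset_univ _, rfl⟩⟩
      _ ≤ ∑ k ∈ range (D + 1), #(powersetCard k (univ : Finset (Fin m))) := card_biUnion_le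
      _ = ∑ k ∈ range (D + 1), m.choose k := by
          refine sum_congr rfl fun k _ => ?_
          rw [card_powersetCard, card_univ, Fintype.card_fin]
      _ ≤ (m + 1) ^ D := sum_choose_le m D
  exact h5.trans ((card_le_card_shatterer A).trans h7)

open Classical in
/-- the number of the possible sets of forms in the first `k + 1` rounds -/
theorem card_transcripts (R : KS.LT ι) (Lk : Set (ι → ℝ)) (D : ℕ) : ∀ (k T : ℕ) (U : Set (ι → ℝ)),
    (∀ L ∈ forms R, L ∉ Lk → ∀ u ∈ U, ∀ u' ∈ U,
      SignType.sign (dot L u) = SignType.sign (dot L u')) →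
    (∀ u ∈ U, ∀ L ∈ forms R, L ≠ 0 → dot L u ≠ 0) →
    (∀ u ∈ U, Module.finrank ℝ (Submodule.span ℝ ((tf R k u : Set (ι → ℝ)) ∩ Lk)) ≤ D) →
    (∀ u ∈ U, R.tests u ≤ T) →
    ∃ F : Finset (Finset (ι → ℝ)), #F ≤ (T + 1) ^ (D * k) ∧ ∀ u ∈ U, tf R (k + 1) u ∈ F := by
  induction R with
  | leaf b =>
    intro k T U _ _ _ _
    refine ⟨{∅}, ?_, fun u _ => by rw [tf_leaf]; exact mem_singleton_self _⟩
    rw [card_singleton]
    exact Nat.one_le_pow _ _ (Nat.succ_pos _)
  | round m L σ next ih =>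
    intro k T U h1 h2 h3 h4
    cases k with
    | zero =>
      refine ⟨{univ.image L}, ?_, fun u _ => ?_⟩
      · rw [card_singleton, mul_zero, pow_zero]
      · show univ.image L ∪ tf (next (ans L σ u)) 0 u ∈ _
        rw [tf_zero, union_empty]
        exact mem_singleton_self _
    | succ k =>
      rcases U.eq_empty_or_nonempty with hU | ⟨u₀, hu₀⟩
      · exact ⟨∅, Nat.zero_le _, fun u hu => by rw [hU] at hu; exact absurd hu (Set.notMem_empty _)⟩
      have hmT : m ≤ T := by
        have h5 : (next (ans L σ u₀)).tests u₀ + m ≤ T := h4 u₀ hu₀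
        omega
      set S : Finset (Fin m → SignType) := (Set.toFinite ((fun u => ans L σ u) '' U)).toFinset
        with hS
      have hSc : #S ≤ (m + 1) ^ D := by
        rw [hS, ← Set.ncard_eq_toFinset_card]
        refine card_ans L σ U Lk (fun i => h1 (L i) (Or.inl ⟨i, rfl⟩))
          (fun u hu i => h2 u hu (L i) (Or.inl ⟨i, rfl⟩)) ?_
        refine le_trans (Submodule.finrank_mono (Submodule.span_mono ?_)) (h3 u₀ hu₀)
        rintro L' ⟨⟨i, rfl⟩, hL'⟩
        exact ⟨mem_coe.2 (mem_union_left _ (mem_image.2 ⟨i, mem_univ _, rfl⟩)), hL'⟩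
      have h5 : ∀ a : Fin m → SignType, ∃ F : Finset (Finset (ι → ℝ)), #F ≤ (T + 1) ^ (D * k) ∧
          ∀ u ∈ U, ans L σ u = a → tf (next a) (k + 1) u ∈ F := by
        intro a
        obtain ⟨F, hF1, hF2⟩ := ih a k T {u | u ∈ U ∧ ans L σ u = a}
          (fun L' hL' hLk u hu u' hu' => h1 L' (Or.inr (Set.mem_iUnion.2 ⟨a, hL'⟩)) hLk u hu.1 u' hu'.1)
          (fun u hu L' hL' => h2 u hu.1 L' (Or.inr (Set.mem_iUnion.2 ⟨a, hL'⟩)))
          (fun u hu => by
            refine le_trans (Submodule.finrank_mono (Submodule.span_mono ?_)) (h3 u hu.1)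
            rintro L' ⟨hL1, hL2⟩
            refine ⟨mem_coe.2 (mem_union_right _ ?_), hL2⟩
            rw [hu.2]
            exact mem_coe.1 hL1)
          (fun u hu => by
            have h5 : (next (ans L σ u)).tests u + m ≤ T := h4 u hu.1
            rw [hu.2] at h5
            omega)
        exact ⟨F, hF1, fun u hu hua => hF2 u ⟨hu, hua⟩⟩
      choose F hF1 hF2 using h5
      refine ⟨S.biUnion fun a => (F a).image fun s => univ.image L ∪ s, ?_, fun u hu => ?_⟩
      · calc #(S.biUnion fun a => (F a).image fun s => univ.image L ∪ s)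
            ≤ ∑ a ∈ S, #((F a).image fun s => univ.image L ∪ s) := card_biUnion_le
          _ ≤ ∑ _a ∈ S, (T + 1) ^ (D * k) := sum_le_sum fun a _ => card_image_le.trans (hF1 a)
          _ = #S * (T + 1) ^ (D * k) := by rw [sum_const, smul_eq_mul]
          _ ≤ (T + 1) ^ D * (T + 1) ^ (D * k) :=
              Nat.mul_le_mul_right _ (hSc.trans (Nat.pow_le_pow_left (by omega) _))
          _ = (T + 1) ^ (D * (k + 1)) := by rw [← pow_add]; congr 1; ring
      · rw [mem_biUnion]
        refine ⟨ans L σ u, ?_, ?_⟩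
        · rw [hS, Set.Finite.mem_toFinset]
          exact ⟨u, hu, rfl⟩
        · rw [mem_image]
          exact ⟨_, hF2 _ u hu rfl, rfl⟩

end Pool.Agent.H692.RR
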