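import Mathlib
import Pool.Agent.H692.RR.Tree
import Pool.Agent.H692.RT.Sum

/-!
# Spaces of forms: restriction to random variables, zeros for random labels
-/

set_option autoImplicit false
set_option linter.unusedSectionVars false

namespace Pool.Agent.H692.RR

open Finset
open Pool.Agent.H692.KS

section seq

variable {ι : Type} [Fintype ι] [DecidableEq ι]

/-- the forms of `V` without the variable `e` -/
def kl (V : Submodule ℝ (ι → ℝ)) (e : ι) : Submodule ℝ (ι → ℝ) :=
  V ⊓ LinearMap.ker (LinearMap.proj e : (ι → ℝ) →ₗ[ℝ] ℝ)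

theorem mem_kl {V : Submodule ℝ (ι → ℝ)} {e : ι} {L : ι → ℝ} : L ∈ kl V e ↔ L ∈ V ∧ L e = 0 := by
  unfold kl
  rw [Submodule.mem_inf, LinearMap.mem_ker]
  rfl

theorem finrank_kl_lt {V : Submodule ℝ (ι → ℝ)} {e : ι} {L : ι → ℝ} (hL : L ∈ V) (h : L e ≠ 0) :
    Module.finrank ℝ (kl V e) < Module.finrank ℝ V := by
  refine Submodule.finrank_lt_finrank_of_lt (lt_of_le_of_ne inf_le_left fun he => ?_)
  have h1 : L ∈ kl V e := by rw [he]; exact hL
  exact h (mem_kl.1 h1).2

theorem finrank_kl_ge (V : Submodule ℝ (ι → ℝ)) (e : ι) :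
    Module.finrank ℝ V ≤ Module.finrank ℝ (kl V e) + 1 := by
  have h1 := Submodule.finrank_sup_add_finrank_inf_eq V
    (LinearMap.ker (LinearMap.proj e : (ι → ℝ) →ₗ[ℝ] ℝ))
  have h2 := LinearMap.finrank_range_add_finrank_ker (LinearMap.proj e : (ι → ℝ) →ₗ[ℝ] ℝ)
  have h3 : Module.finrank ℝ (LinearMap.range (LinearMap.proj e : (ι → ℝ) →ₗ[ℝ] ℝ)) ≤ 1 := by
    refine (Submodule.finrank_le _).trans ?_
    rw [Module.finrank_self]
  have h4 : Module.finrank ℝ (V ⊔ LinearMap.ker (LinearMap.proj e : (ι → ℝ) →ₗ[ℝ] ℝ) :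
      Submodule ℝ (ι → ℝ)) ≤ Module.finrank ℝ (ι → ℝ) := Submodule.finrank_le _
  unfold kl
  omega

open Classical in
/-- the variables which occur in `V` -/
noncomputable def supp (V : Submodule ℝ (ι → ℝ)) : Finset ι := univ.filter fun e => ∃ L ∈ V, L e ≠ 0

theorem mem_supp {V : Submodule ℝ (ι → ℝ)} {e : ι} : e ∈ supp V ↔ ∃ L ∈ V, L e ≠ 0 := by
  unfold supp
  simp

/-- the forms of `V` without the variables `b i` -/
def vb (V : Submodule ℝ (ι → ℝ)) : (t : ℕ) → (Fin t → ι) → Submodule ℝ (ι → ℝ)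
  | 0, _ => V
  | t + 1, b => vb (kl V (b 0)) t fun i => b i.succ

theorem mem_vb {L : ι → ℝ} : ∀ (t : ℕ) (V : Submodule ℝ (ι → ℝ)) (b : Fin t → ι),
    L ∈ vb V t b ↔ L ∈ V ∧ ∀ i, L (b i) = 0 := by
  intro t
  induction t with
  | zero => exact fun V b => ⟨fun h => ⟨h, fun i => i.elim0⟩, fun h => h.1⟩
  | succ t ih =>
    intro V b
    unfold vb
    rw [ih, mem_kl, Fin.forall_fin_succ, and_assoc]

theorem supp_vb (t : ℕ) (V : Submodule ℝ (ι → ℝ)) (b : Fin t → ι) : supp (vb V t b) ⊆ supp V := by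
  intro e he
  obtain ⟨L, hL, h⟩ := mem_supp.1 he
  exact mem_supp.2 ⟨L, ((mem_vb t V b).1 hL).1, h⟩

open Classical in
/-- few sequences `b` do not make the support small -/
theorem seq_bound (m : ℕ) (hm : m ≤ Fintype.card ι) : ∀ (t D : ℕ) (V : Submodule ℝ (ι → ℝ)),
    Module.finrank ℝ V ≤ D →
    (#(univ.filter fun b : Fin t → ι => m < #(supp (vb V t b))) : ℝ) ≤
      2 ^ D * ((Fintype.card ι : ℝ) - m / 2) ^ t := by
  have hm' : (m : ℝ) ≤ Fintype.card ι := by exact_mod_cast hm
  have hm0 : (0 : ℝ) ≤ m := Nat.cast_nonneg _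
  have hb : (0 : ℝ) ≤ (Fintype.card ι : ℝ) - m / 2 := by linarith
  intro t
  induction t with
  | zero =>
    intro D V _
    rw [pow_zero, mul_one]
    calc (#(univ.filter fun b : Fin 0 → ι => m < #(supp (vb V 0 b))) : ℝ)
        ≤ #(univ : Finset (Fin 0 → ι)) := by exact_mod_cast card_filter_le _ _
      _ = 1 := by rw [card_univ]; simp
      _ ≤ 2 ^ D := one_le_pow₀ (by norm_num)
  | succ t ih =>
    intro D V hV
    by_cases hs : #(supp V) ≤ m
    · have h1 : (univ.filter fun b : Fin (t + 1) → ι => m < #(supp (vb V (t + 1) b))) = ∅ := by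
        refine filter_eq_empty_iff.2 fun b _ => ?_
        have := card_le_card (supp_vb (t + 1) V b)
        omega
      rw [h1, card_empty, Nat.cast_zero]
      positivity
    · push Not at hs
      have hD : 1 ≤ D := by
        obtain ⟨e, he⟩ := card_pos.1 (lt_of_le_of_lt (Nat.zero_le _) hs)
        obtain ⟨L, hL, h⟩ := mem_supp.1 he
        have := finrank_kl_lt hL h
        omega
      obtain ⟨D, rfl⟩ : ∃ D', D = D' + 1 := ⟨D - 1, by omega⟩
      have h1 : (#(univ.filter fun b : Fin (t + 1) → ι => m < #(supp (vb V (t + 1) b))) : ℝ) ≤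
          ∑ e : ι, (#(univ.filter fun b : Fin t → ι => m < #(supp (vb (kl V e) t b))) : ℝ) := by
        have h2 : #(univ.filter fun b : Fin (t + 1) → ι => m < #(supp (vb V (t + 1) b))) ≤
            #((univ : Finset ι).sigma fun e =>
              univ.filter fun b : Fin t → ι => m < #(supp (vb (kl V e) t b))) := by
          refine card_le_card_of_injOn (fun b => ⟨b 0, fun i => b i.succ⟩) ?_ ?_
          · intro b hb
            have hb' := (mem_filter.1 (mem_coe.1 hb)).2
            exact mem_coe.2 (mem_sigma.2 ⟨mem_univ _, mem_filter.2 ⟨mem_univ _, hb'⟩⟩)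
          · intro b _ b' _ h
            simp only [Sigma.mk.injEq, heq_eq_eq] at h
            funext i
            refine Fin.cases h.1 (fun j => congrFun h.2 j) i
        rw [card_sigma] at h2
        exact_mod_cast h2
      have h2 : ∀ e : ι, (#(univ.filter fun b : Fin t → ι => m < #(supp (vb (kl V e) t b))) : ℝ) ≤
          (if e ∈ supp V then 1 / 2 else 1) *
            (2 ^ (D + 1) * ((Fintype.card ι : ℝ) - m / 2) ^ t) := by
        intro e
        split_ifs with he
        · obtain ⟨L, hL, h⟩ := mem_supp.1 he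
          have h3 := finrank_kl_lt hL h
          refine (ih D (kl V e) (by omega)).trans (le_of_eq ?_)
          rw [pow_succ]
          ring
        · rw [one_mul]
          exact ih (D + 1) (kl V e) ((Submodule.finrank_mono inf_le_left).trans hV)
      refine (h1.trans (sum_le_sum fun e _ => h2 e)).trans ?_
      rw [← sum_mul]
      have h3 : ∑ e : ι, (if e ∈ supp V then (1 : ℝ) / 2 else 1) =
          Fintype.card ι - #(supp V) / 2 := by
        have h4 : ∀ e : ι, (if e ∈ supp V then (1 : ℝ) / 2 else 1) =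
            1 - (if e ∈ supp V then (1 : ℝ) / 2 else 0) := by
          intro e
          split_ifs <;> norm_num
        rw [sum_congr rfl fun e _ => h4 e, sum_sub_distrib, ← sum_filter, sum_const, sum_const,
          filter_mem_eq_inter, univ_inter, card_univ]
        simp
        ring
      rw [h3]
      have h4 : (Fintype.card ι : ℝ) - #(supp V) / 2 ≤ (Fintype.card ι : ℝ) - m / 2 := by
        have : (m : ℝ) ≤ #(supp V) := by exact_mod_cast hs.le
        linarith
      calc ((Fintype.card ι : ℝ) - #(supp V) / 2) *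
            (2 ^ (D + 1) * ((Fintype.card ι : ℝ) - m / 2) ^ t)
          ≤ ((Fintype.card ι : ℝ) - m / 2) *
            (2 ^ (D + 1) * ((Fintype.card ι : ℝ) - m / 2) ^ t) :=
            mul_le_mul_of_nonneg_right h4 (by positivity)
        _ = _ := by rw [pow_succ ((Fintype.card ι : ℝ) - m / 2)]; ring

end seq

section lab

variable {K n : ℕ}

theorem dot_qv_update (c : Fin (K + 1) → ℝ) (M ω : Var (K + 1) n → ℝ) (e : Var (K + 1) n) (z : ℝ) :
    dot M (qv c (Function.update ω e z)) = dot M (qv c ω) + M e * ((z - ω e) / c e.1) := by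
  classical
  have : qv c (Function.update ω e z) = qv c ω + Pi.single e ((z - ω e) / c e.1) := by
    funext v
    unfold qv
    rw [Pi.add_apply]
    by_cases hv : v = e
    · subst hv
      rw [Function.update_self, Pi.single_eq_same]
      ring
    · rw [Function.update_of_ne hv, Pi.single_eq_of_ne hv, add_zero]
  rw [this, dot_add, dot_single]

open Classical in
/-- all forms of a space vanish only for few labels -/
theorem card_vanish (hK : 1 ≤ K) {x : ℕ} {c : Fin (K + 1) → ℝ} (hc : ∀ p, c p ≠ 0) : ∀ (d : ℕ)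
    (V : Submodule ℝ (Var (K + 1) n → ℝ)), d ≤ Module.finrank ℝ V →
    (x : ℝ) ^ d * ∑ ω ∈ Om K n x, (if ∀ L ∈ V, dot L (qv c ω) = 0 then (1 : ℝ) else 0) ≤
      (Om K n x).card := by
  intro d
  induction d with
  | zero =>
    intro V _
    rw [pow_zero, one_mul, sum_boole]
    exact_mod_cast card_filter_le _ _
  | succ d ih =>
    intro V hV
    obtain ⟨L, hL, hL0⟩ : ∃ L ∈ V, L ≠ 0 := by
      by_contra! hcon
      have : V = ⊥ := by
        rw [Submodule.eq_bot_iff]
        exact hcon
      rw [this, finrank_bot] at hV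
      omega
    obtain ⟨e, he⟩ := exists_coeff hL0
    have h1 := ih (kl V e) (by have := finrank_kl_ge V e; omega)
    have h2 := resample (rng K n x) e fun ω =>
      if ∀ L ∈ V, dot L (qv c ω) = 0 then (1 : ℝ) else 0
    have h3 : ∀ ω ∈ Fintype.piFinset (rng K n x), ∑ z ∈ rng K n x e,
        (if ∀ L ∈ V, dot L (qv c (Function.update ω e z)) = 0 then (1 : ℝ) else 0) ≤
        (if ∀ L ∈ kl V e, dot L (qv c ω) = 0 then (1 : ℝ) else 0) := by
      intro ω _
      by_cases hω : ∀ L ∈ kl V e, dot L (qv c ω) = 0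
      · rw [if_pos hω, sum_boole]
        have h4 : #{z ∈ rng K n x e | ∀ L ∈ V, dot L (qv c (Function.update ω e z)) = 0} ≤ 1 := by
          rw [card_le_one]
          intro a ha b hb
          rw [mem_filter] at ha hb
          have h5 := ha.2 L hL
          have h6 := hb.2 L hL
          rw [dot_qv_update] at h5 h6
          have h7 : L e * ((a - ω e) / c e.1) = L e * ((b - ω e) / c e.1) := by linarith
          have h8 := mul_left_cancel₀ he h7
          rw [div_left_inj' (hc _)] at h8
          linarith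
        exact_mod_cast h4
      · rw [if_neg hω]
        refine (sum_eq_zero fun z _ => ?_).le
        rw [if_neg]
        intro h
        apply hω
        intro M hM
        obtain ⟨hM1, hM2⟩ := mem_kl.1 hM
        have h4 := h M hM1
        rw [dot_qv_update, hM2, zero_mul, add_zero] at h4
        exact h4
    have h4 : (x : ℝ) * ∑ ω ∈ Om K n x, (if ∀ L ∈ V, dot L (qv c ω) = 0 then (1 : ℝ) else 0) ≤
        ∑ ω ∈ Om K n x, (if ∀ L ∈ kl V e, dot L (qv c ω) = 0 then (1 : ℝ) else 0) := by
      have h5 : (x : ℝ) ≤ (rng K n x e).card := by exact_mod_cast le_card_rng hK x e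
      have h6 : 0 ≤ ∑ ω ∈ Om K n x, (if ∀ L ∈ V, dot L (qv c ω) = 0 then (1 : ℝ) else 0) := by
        refine sum_nonneg fun ω _ => ?_
        split_ifs <;> norm_num
      refine (mul_le_mul_of_nonneg_right h5 h6).trans ?_
      unfold Om
      rw [h2]
      exact sum_le_sum h3
    calc (x : ℝ) ^ (d + 1) * ∑ ω ∈ Om K n x,
          (if ∀ L ∈ V, dot L (qv c ω) = 0 then (1 : ℝ) else 0)
        = (x : ℝ) ^ d * (x * ∑ ω ∈ Om K n x,
          (if ∀ L ∈ V, dot L (qv c ω) = 0 then (1 : ℝ) else 0)) := by ring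
      _ ≤ (x : ℝ) ^ d * ∑ ω ∈ Om K n x,
          (if ∀ L ∈ kl V e, dot L (qv c ω) = 0 then (1 : ℝ) else 0) :=
          mul_le_mul_of_nonneg_left h4 (by positivity)
      _ ≤ _ := h1

open Classical in
/-- among given forms, those which vanish have small rank for most labels -/
theorem card_rank (hK : 1 ≤ K) {x : ℕ} {c : Fin (K + 1) → ℝ} (hc : ∀ p, c p ≠ 0)
    (F : Finset (Var (K + 1) n → ℝ)) (Lk : Set (Var (K + 1) n → ℝ)) (j : ℕ) :
    (x : ℝ) ^ j * #((Om K n x).filter fun ω => j ≤ Module.finrank ℝ (Submodule.span ℝ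
      ((F : Set (Var (K + 1) n → ℝ)) ∩ {L | L ∈ Lk ∧ dot L (qv c ω) = 0}))) ≤
      (#F).choose j * (Om K n x).card := by
  set I : Finset (Finset (Var (K + 1) n → ℝ)) := (powersetCard j F).filter fun s =>
    j ≤ Module.finrank ℝ (Submodule.span ℝ (s : Set (Var (K + 1) n → ℝ))) with hI
  have h1 : ((Om K n x).filter fun ω => j ≤ Module.finrank ℝ (Submodule.span ℝ
      ((F : Set (Var (K + 1) n → ℝ)) ∩ {L | L ∈ Lk ∧ dot L (qv c ω) = 0}))) ⊆
      I.biUnion fun s => (Om K n x).filter fun ω =>
        ∀ L ∈ Submodule.span ℝ (s : Set (Var (K + 1) n → ℝ)), dot L (qv c ω) = 0 := by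
    intro ω hω
    rw [mem_filter] at hω
    obtain ⟨hω1, hω2⟩ := hω
    set A : Set (Var (K + 1) n → ℝ) :=
      (F : Set (Var (K + 1) n → ℝ)) ∩ {L | L ∈ Lk ∧ dot L (qv c ω) = 0} with hA
    obtain ⟨b, hbA, hbs, hbl⟩ := exists_linearIndependent ℝ A
    have hfin : b.Finite := (F.finite_toSet.subset Set.inter_subset_left).subset hbA
    have hbl' : LinearIndependent ℝ ((↑) : hfin.toFinset → Var (K + 1) n → ℝ) := by
      have : LinearIndepOn ℝ id b := hbl
      have h2 : LinearIndepOn ℝ id (hfin.toFinset : Set (Var (K + 1) n → ℝ)) := by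
        rw [Set.Finite.coe_toFinset]
        exact this
      exact h2
    have hcard : j ≤ (hfin.toFinset).card := by
      rw [← finrank_span_finset_eq_card hbl', Set.Finite.coe_toFinset, hbs]
      exact hω2
    obtain ⟨s, hs, hsc⟩ := exists_subset_card_eq hcard
    have hsl : LinearIndependent ℝ ((↑) : s → Var (K + 1) n → ℝ) := by
      have h2 : LinearIndepOn ℝ id (hfin.toFinset : Set (Var (K + 1) n → ℝ)) := hbl'
      exact h2.mono (coe_subset.2 hs)
    have hsA : ∀ L ∈ s, L ∈ A := fun L hL => hbA ((Set.Finite.mem_toFinset hfin).1 (hs hL))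
    rw [mem_biUnion]
    refine ⟨s, ?_, ?_⟩
    · rw [hI, mem_filter, mem_powersetCard]
      refine ⟨⟨fun L hL => mem_coe.1 (hsA L hL).1, hsc⟩, ?_⟩
      rw [finrank_span_finset_eq_card hsl, hsc]
    · rw [mem_filter]
      refine ⟨hω1, fun L hL => ?_⟩
      refine Submodule.span_induction (p := fun L _ => dot L (qv c ω) = 0) ?_ ?_ ?_ ?_ hL
      · exact fun L hL => (hsA L hL).2.2
      · unfold dot
        simp
      · intro a b _ _ ha hb
        have : dot (a + b) (qv c ω) = dot a (qv c ω) + dot b (qv c ω) := by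
          unfold dot
          rw [← sum_add_distrib]
          exact sum_congr rfl fun e _ => by rw [Pi.add_apply]; ring
        rw [this, ha, hb, add_zero]
      · intro r a _ ha
        have : dot (r • a) (qv c ω) = r * dot a (qv c ω) := by
          unfold dot
          rw [mul_sum]
          exact sum_congr rfl fun e _ => by rw [Pi.smul_apply, smul_eq_mul]; ring
        rw [this, ha, mul_zero]
  have h2 : (#((Om K n x).filter fun ω => j ≤ Module.finrank ℝ (Submodule.span ℝ
      ((F : Set (Var (K + 1) n → ℝ)) ∩ {L | L ∈ Lk ∧ dot L (qv c ω) = 0}))) : ℝ) ≤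
      ∑ s ∈ I, (#((Om K n x).filter fun ω =>
        ∀ L ∈ Submodule.span ℝ (s : Set (Var (K + 1) n → ℝ)), dot L (qv c ω) = 0) : ℝ) := by
    exact_mod_cast (card_le_card h1).trans card_biUnion_le
  calc (x : ℝ) ^ j * _ ≤ (x : ℝ) ^ j * ∑ s ∈ I, (#((Om K n x).filter fun ω =>
        ∀ L ∈ Submodule.span ℝ (s : Set (Var (K + 1) n → ℝ)), dot L (qv c ω) = 0) : ℝ) :=
        mul_le_mul_of_nonneg_left h2 (by positivity)
    _ = ∑ s ∈ I, (x : ℝ) ^ j * (#((Om K n x).filter fun ω =>
        ∀ L ∈ Submodule.span ℝ (s : Set (Var (K + 1) n → ℝ)), dot L (qv c ω) = 0) : ℝ) :=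
        mul_sum _ _ _
    _ ≤ ∑ _s ∈ I, ((Om K n x).card : ℝ) := by
        refine sum_le_sum fun s hs => ?_
        have h3 := card_vanish hK (x := x) hc j (Submodule.span ℝ (s : Set (Var (K + 1) n → ℝ)))
          (mem_filter.1 hs).2
        rw [sum_boole] at h3
        exact h3
    _ = #I * ((Om K n x).card : ℝ) := by rw [sum_const, nsmul_eq_mul]
    _ ≤ (#F).choose j * (Om K n x).card := by
        refine mul_le_mul_of_nonneg_right ?_ (Nat.cast_nonneg _)
        have h3 : #I ≤ #(powersetCard j F) := card_filter_le _ _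
        rw [card_powersetCard] at h3
        exact_mod_cast h3

end lab

end Pool.Agent.H692.RR
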