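import Mathlib
import Pool.Agent.H692.RT.Sum

/-!
# Tight tuples for several independent labels
-/

set_option autoImplicit false
set_option linter.unusedSectionVars false

namespace Pool.Agent.H692.RR

open Finset
open Pool.Agent.H692.KS
open Pool.Agent.H692.RT (vs card_vs)

variable {K n x h t : ℕ}

/-- the parameters: labels for `h` levels, and `t` variables -/
abbrev Th (K n x h t : ℕ) : Type := (Fin h → Om K n x) × (Fin t → Var (K + 1) n)

/-- tight at all levels -/
def Tight (θ : Th K n x h t) (s : Tup (K + 1) n) : Prop := ∀ j, lab (θ.1 j).1 s = 0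

open Classical in
theorem sum_levels (Q : (Var (K + 1) n → ℝ) → Prop) :
    ∑ θ : Th K n x h t, (if ∀ j, Q (θ.1 j).1 then (1 : ℝ) else 0) =
      (∑ ω ∈ Om K n x, (if Q ω then (1 : ℝ) else 0)) ^ h *
        (Fintype.card (Fin t → Var (K + 1) n) : ℝ) := by
  rw [Fintype.sum_prod_type]
  have h1 : ∀ a : Fin h → Om K n x, ∑ _b : Fin t → Var (K + 1) n,
      (if ∀ j, Q (a j).1 then (1 : ℝ) else 0) =
      (∏ j, (if Q (a j).1 then (1 : ℝ) else 0)) * (Fintype.card (Fin t → Var (K + 1) n) : ℝ) := by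
    intro a
    rw [sum_const, card_univ, nsmul_eq_mul, mul_comm]
    congr 1
    rw [prod_ite_zero]
    simp
  rw [sum_congr rfl fun a _ => h1 a, ← sum_mul]
  congr 1
  rw [← Fintype.sum_pow (fun ω : Om K n x => if Q ω.1 then (1 : ℝ) else 0) h]
  congr 1
  exact sum_coe_sort (Om K n x) fun ω => if Q ω then (1 : ℝ) else 0

theorem card_Th : (Fintype.card (Th K n x h t) : ℝ) =
    ((Om K n x).card : ℝ) ^ h * (Fintype.card (Fin t → Var (K + 1) n) : ℝ) := by
  rw [Fintype.card_prod, Fintype.card_pi_const, Fintype.card_coe]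
  push_cast
  rfl

open Classical in
theorem sum_tight (hK : 1 ≤ K) (s : Tup (K + 1) n) :
    (K * x : ℝ) ^ h * ∑ θ : Th K n x h t, (if Tight θ s then (1 : ℝ) else 0) =
      Fintype.card (Th K n x h t) := by
  have h1 : ∑ θ : Th K n x h t, (if Tight θ s then (1 : ℝ) else 0) =
      (∑ ω ∈ Om K n x, (if lab ω s = 0 then (1 : ℝ) else 0)) ^ h *
        (Fintype.card (Fin t → Var (K + 1) n) : ℝ) := by
    have h2 := sum_levels (K := K) (n := n) (x := x) (h := h) (t := t) fun ω => lab ω s = 0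
    convert h2 using 3
    exact Iff.rfl
  rw [h1, card_Th, ← mul_assoc, ← mul_pow]
  congr 2
  have := prob_tight hK x s
  convert this using 3

open Classical in
theorem sum_tight_pair (hK : 1 ≤ K) {s s' : Tup (K + 1) n} (hne : s ≠ s') :
    (K * x ^ 2 : ℝ) ^ h * ∑ θ : Th K n x h t, (if Tight θ s ∧ Tight θ s' then (1 : ℝ) else 0) ≤
      Fintype.card (Th K n x h t) := by
  have h1 : ∑ θ : Th K n x h t, (if Tight θ s ∧ Tight θ s' then (1 : ℝ) else 0) =
      (∑ ω ∈ Om K n x, (if lab ω s = 0 ∧ lab ω s' = 0 then (1 : ℝ) else 0)) ^ h *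
        (Fintype.card (Fin t → Var (K + 1) n) : ℝ) := by
    have h2 := sum_levels (K := K) (n := n) (x := x) (h := h) (t := t)
      fun ω => lab ω s = 0 ∧ lab ω s' = 0
    refine Eq.trans ?_ (h2.trans ?_)
    swap
    · congr 2
      refine sum_congr rfl fun ω _ => ?_
      congr 1
    refine sum_congr rfl fun θ _ => ?_
    have h3 : (Tight θ s ∧ Tight θ s') ↔ ∀ j, lab (θ.1 j).1 s = 0 ∧ lab (θ.1 j).1 s' = 0 := by
      unfold Tight
      rw [forall_and]
    by_cases h4 : Tight θ s ∧ Tight θ s'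
    · rw [if_pos h4, if_pos (h3.1 h4)]
    · rw [if_neg h4, if_neg fun h5 => h4 (h3.2 h5)]
  rw [h1, card_Th, ← mul_assoc, ← mul_pow]
  refine mul_le_mul_of_nonneg_right ?_ (Nat.cast_nonneg _)
  refine pow_le_pow_left₀ ?_ ?_ h
  · refine mul_nonneg (by positivity) (sum_nonneg fun ω _ => ?_)
    split_ifs <;> norm_num
  · have := prob_pair hK (x := x) hne
    convert this using 3

open Classical in
/-- the tuples with a given variable -/
theorem card_through (v : Var (K + 1) n) :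
    #(univ.filter fun s : Tup (K + 1) n => v ∈ vs s) ≤ n ^ K := by
  have h1 : (univ.filter fun s : Tup (K + 1) n => v ∈ vs s) ⊆
      Fintype.piFinset fun q => if q = v.1 then {v.2} else univ := by
    intro s hs
    have h2 := (mem_filter.1 hs).2
    unfold vs at h2
    obtain ⟨p, -, hp⟩ := mem_image.1 h2
    rw [Fintype.mem_piFinset]
    intro q
    split_ifs with hq
    · subst hq
      rw [mem_singleton, ← hp]
    · exact mem_univ _
  refine (card_le_card h1).trans ?_
  rw [Fintype.card_piFinset, ← mul_prod_erase univ _ (mem_univ v.1), if_pos rfl, card_singleton,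
    one_mul]
  have h2 : ∀ q ∈ univ.erase v.1, #(if q = v.1 then {v.2} else (univ : Finset (Fin n))) = n := by
    intro q hq
    rw [if_neg (mem_erase.1 hq).1, card_univ, Fintype.card_fin]
  rw [prod_congr rfl h2, prod_const, card_erase_of_mem (mem_univ _), card_univ, Fintype.card_fin]
  simp

open Classical in
/-- the number of tight tuples with a given variable -/
noncomputable def dg (θ : Th K n x h t) (v : Var (K + 1) n) : ℝ :=
  ∑ s : Tup (K + 1) n, if v ∈ vs s ∧ Tight θ s then (1 : ℝ) else 0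

theorem dg_sq_sum (hK : 1 ≤ K) (hx : 0 < x) :
    ∑ θ : Th K n x h t, ∑ v : Var (K + 1) n, dg θ v ^ 2 ≤
      (Fintype.card (Th K n x h t) : ℝ) * ((K + 1) * n *
        ((n : ℝ) ^ K / (K * x : ℝ) ^ h + (n : ℝ) ^ (2 * K) / (K * x ^ 2 : ℝ) ^ h)) := by
  classical
  have hx' : (0 : ℝ) < x := by exact_mod_cast hx
  have hK' : (0 : ℝ) < K := by exact_mod_cast hK
  set N : ℝ := (Fintype.card (Th K n x h t) : ℝ) with hN
  have hN0 : 0 ≤ N := Nat.cast_nonneg _
  -- both tight
  have h1 : ∀ s s' : Tup (K + 1) n, ∑ θ : Th K n x h t,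
      (if Tight θ s ∧ Tight θ s' then (1 : ℝ) else 0) ≤
      (if s = s' then N / (K * x : ℝ) ^ h else 0) + N / (K * x ^ 2 : ℝ) ^ h := by
    intro s s'
    split_ifs with hs
    · subst hs
      have h2 := sum_tight (x := x) (h := h) (t := t) hK s
      have h3 : ∑ θ : Th K n x h t, (if Tight θ s ∧ Tight θ s then (1 : ℝ) else 0) =
          N / (K * x : ℝ) ^ h := by
        rw [eq_div_iff (by positivity), mul_comm, hN, ← h2]
        congr 1
        refine sum_congr rfl fun θ _ => ?_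
        simp only [and_self]
      rw [h3]
      have : 0 ≤ N / (K * x ^ 2 : ℝ) ^ h := by positivity
      linarith
    · rw [zero_add, le_div_iff₀ (by positivity), mul_comm]
      exact sum_tight_pair hK hs
  have h2 : ∀ v : Var (K + 1) n, ∑ θ : Th K n x h t, dg θ v ^ 2 ≤
      N * ((n : ℝ) ^ K / (K * x : ℝ) ^ h + (n : ℝ) ^ (2 * K) / (K * x ^ 2 : ℝ) ^ h) := by
    intro v
    set A : Finset (Tup (K + 1) n) := univ.filter fun s => v ∈ vs s with hA
    have hAc : (#A : ℝ) ≤ (n : ℝ) ^ K := by exact_mod_cast card_through v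
    have h3 : ∀ θ : Th K n x h t, dg θ v ^ 2 =
        ∑ s ∈ A, ∑ s' ∈ A, (if Tight θ s ∧ Tight θ s' then (1 : ℝ) else 0) := by
      intro θ
      have h4 : dg θ v = ∑ s ∈ A, (if Tight θ s then (1 : ℝ) else 0) := by
        unfold dg
        rw [hA, sum_filter]
        refine sum_congr rfl fun s _ => ?_
        by_cases h5 : v ∈ vs s <;> simp [h5]
      rw [h4, sq, sum_mul_sum]
      refine sum_congr rfl fun s _ => sum_congr rfl fun s' _ => ?_
      by_cases h5 : Tight θ s <;> by_cases h6 : Tight θ s' <;> simp [h5, h6]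
    rw [sum_congr rfl fun θ _ => h3 θ, sum_comm]
    have h4 : ∀ s ∈ A, ∑ θ : Th K n x h t, ∑ s' ∈ A,
        (if Tight θ s ∧ Tight θ s' then (1 : ℝ) else 0) ≤
        N / (K * x : ℝ) ^ h + #A * (N / (K * x ^ 2 : ℝ) ^ h) := by
      intro s hs
      rw [sum_comm]
      refine (sum_le_sum fun s' _ => h1 s s').trans ?_
      rw [sum_add_distrib, sum_const, nsmul_eq_mul, sum_ite_eq, if_pos hs]
    refine (sum_le_sum h4).trans ?_
    rw [sum_const, nsmul_eq_mul]
    have h5 : 0 ≤ N / (K * x : ℝ) ^ h := by positivity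
    have h6 : 0 ≤ N / (K * x ^ 2 : ℝ) ^ h := by positivity
    have h7 : (0 : ℝ) ≤ #A := Nat.cast_nonneg _
    calc (#A : ℝ) * (N / (K * x : ℝ) ^ h + #A * (N / (K * x ^ 2 : ℝ) ^ h))
        ≤ (n : ℝ) ^ K * (N / (K * x : ℝ) ^ h + (n : ℝ) ^ K * (N / (K * x ^ 2 : ℝ) ^ h)) := by
          refine mul_le_mul hAc ?_ (by positivity) (by positivity)
          have := mul_le_mul_of_nonneg_right hAc h6
          linarith
      _ = _ := by rw [two_mul, pow_add]; ring
  rw [sum_comm]
  refine (sum_le_sum fun v _ => h2 v).trans (le_of_eq ?_)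
  rw [sum_const, card_univ, nsmul_eq_mul, Fintype.card_prod, Fintype.card_fin, Fintype.card_fin]
  push_cast
  ring

open Classical in
/-- the tight tuples which meet small sets of variables -/
theorem card_meet (hK : 1 ≤ K) (hx : 0 < x) (S : Th K n x h t → Finset (Var (K + 1) n)) :
    (#(univ.filter fun q : Th K n x h t × Tup (K + 1) n =>
      Tight q.1 q.2 ∧ ¬ Disjoint (vs q.2) (S q.1)) : ℝ) ^ 2 ≤
      (∑ θ, (#(S θ) : ℝ)) * ((Fintype.card (Th K n x h t) : ℝ) * ((K + 1) * n *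
        ((n : ℝ) ^ K / (K * x : ℝ) ^ h + (n : ℝ) ^ (2 * K) / (K * x ^ 2 : ℝ) ^ h))) := by
  have h1 : (#(univ.filter fun q : Th K n x h t × Tup (K + 1) n =>
      Tight q.1 q.2 ∧ ¬ Disjoint (vs q.2) (S q.1)) : ℝ) ≤
      ∑ p : Th K n x h t × Var (K + 1) n, (if p.2 ∈ S p.1 then (1 : ℝ) else 0) * dg p.1 p.2 := by
    have h0 : (#(univ.filter fun q : Th K n x h t × Tup (K + 1) n =>
        Tight q.1 q.2 ∧ ¬ Disjoint (vs q.2) (S q.1)) : ℝ) =
        ∑ θ : Th K n x h t, ∑ s : Tup (K + 1) n,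
          (if Tight θ s ∧ ¬ Disjoint (vs s) (S θ) then (1 : ℝ) else 0) := by
      rw [← sum_boole, Fintype.sum_prod_type]
    have h0' : ∑ p : Th K n x h t × Var (K + 1) n,
        (if p.2 ∈ S p.1 then (1 : ℝ) else 0) * dg p.1 p.2 =
        ∑ θ : Th K n x h t, ∑ v : Var (K + 1) n, (if v ∈ S θ then (1 : ℝ) else 0) * dg θ v := by
      rw [Fintype.sum_prod_type]
    rw [h0, h0']
    refine sum_le_sum fun θ _ => ?_
    have h2 : ∑ v : Var (K + 1) n, (if v ∈ S θ then (1 : ℝ) else 0) * dg θ v =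
        ∑ s : Tup (K + 1) n, ∑ v : Var (K + 1) n, (if v ∈ S θ then (1 : ℝ) else 0) *
          (if v ∈ vs s ∧ Tight θ s then (1 : ℝ) else 0) := by
      rw [sum_comm]
      refine sum_congr rfl fun v _ => ?_
      unfold dg
      rw [mul_sum]
    rw [h2]
    refine sum_le_sum fun s _ => ?_
    have h3 : ∀ v : Var (K + 1) n, (0 : ℝ) ≤ (if v ∈ S θ then (1 : ℝ) else 0) *
          (if v ∈ vs s ∧ Tight θ s then (1 : ℝ) else 0) := by
      intro v
      split_ifs <;> norm_num
    split_ifs with h4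
    · obtain ⟨h5, h6⟩ := h4
      rw [Finset.disjoint_left] at h6
      push Not at h6
      obtain ⟨v, hv1, hv2⟩ := h6
      have h7 := single_le_sum (f := fun v : Var (K + 1) n => (if v ∈ S θ then (1 : ℝ) else 0) *
          (if v ∈ vs s ∧ Tight θ s then (1 : ℝ) else 0)) (fun v _ => h3 v) (mem_univ v)
      rw [if_pos hv2, if_pos ⟨hv1, h5⟩, one_mul] at h7
      exact h7
    · exact sum_nonneg fun v _ => h3 v
  have h2 : (∑ p : Th K n x h t × Var (K + 1) n, (if p.2 ∈ S p.1 then (1 : ℝ) else 0) *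
      dg p.1 p.2) ^ 2 ≤
      (∑ p : Th K n x h t × Var (K + 1) n, (if p.2 ∈ S p.1 then (1 : ℝ) else 0) ^ 2) *
        ∑ p : Th K n x h t × Var (K + 1) n, dg p.1 p.2 ^ 2 :=
    sum_mul_sq_le_sq_mul_sq _ _ _
  have h3 : ∑ p : Th K n x h t × Var (K + 1) n, (if p.2 ∈ S p.1 then (1 : ℝ) else 0) ^ 2 =
      ∑ θ, (#(S θ) : ℝ) := by
    rw [Fintype.sum_prod_type]
    refine sum_congr rfl fun θ _ => ?_
    have h4 : ∀ v : Var (K + 1) n, (if v ∈ S θ then (1 : ℝ) else 0) ^ 2 =
        if v ∈ S θ then (1 : ℝ) else 0 := by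
      intro v
      split_ifs <;> norm_num
    rw [sum_congr rfl fun v _ => h4 v, sum_boole, filter_mem_eq_inter, univ_inter]
  have h4 := dg_sq_sum (n := n) (h := h) (t := t) hK hx
  rw [h3, Fintype.sum_prod_type (f := fun p : Th K n x h t × Var (K + 1) n => dg p.1 p.2 ^ 2)] at h2
  refine (pow_le_pow_left₀ (Nat.cast_nonneg _) h1 2).trans (h2.trans ?_)
  exact mul_le_mul_of_nonneg_left h4 (sum_nonneg fun θ _ => Nat.cast_nonneg _)

end Pool.Agent.H692.RR
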