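import Mathlib
import Pool.Agent.H692.RR.Count
import Pool.Agent.H692.RR.Seq
import Pool.Agent.H692.RR.Pairs

/-!
# One tree
-/

set_option autoImplicit false
set_option linter.unusedSectionVars false

namespace Pool.Agent.H692.RR

open Finset
open Pool.Agent.H692.KS
open Pool.Agent.H692.RT (forms nowForms vs lv tl dot_tl tl_ne yes dot_yes noi dot_noi form_of_notMem
  card_le_tests form_lv)

variable {K n x h t : ℕ}

open Classical in
/-- the restriction of a vector to some variables -/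
noncomputable def gb (g : Var (K + 1) n → ℝ) (b : Fin t → Var (K + 1) n) : Var (K + 1) n → ℝ :=
  fun v => if ∃ i, b i = v then g v else 0

/-- the levels of the input -/
noncomputable def lev (c : Fin (K + 1) → ℝ) (g : Var (K + 1) n → ℝ) (θ : Th K n x h t) (j : ℕ) :
    Var (K + 1) n → ℝ :=
  if hj : j < h then qv c (θ.1 ⟨j, hj⟩).1 else if j = h then gb g θ.2 else g

/-- the forms which vanish on the first levels -/
def Lk (c : Fin (K + 1) → ℝ) (g : Var (K + 1) n → ℝ) (θ : Th K n x h t) (i : ℕ) :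
    Set (Var (K + 1) n → ℝ) := {L | ∀ j < i, dot L (lev c g θ j) = 0}

/-- the sign of a form for the input is the sign at the first level at which it does not vanish -/
structure Base (c : Fin (K + 1) → ℝ) (g : Var (K + 1) n → ℝ) (u : Th K n x h t → Var (K + 1) n → ℝ)
    (M : Set (Var (K + 1) n → ℝ)) : Prop where
  sgn : ∀ θ, ∀ L ∈ M, ∀ j, (∀ i < j, dot L (lev c g θ i) = 0) → dot L (lev c g θ j) ≠ 0 →
    SignType.sign (dot L (u θ)) = SignType.sign (dot L (lev c g θ j))
  gen : ∀ L ∈ M, L ≠ 0 → dot L g ≠ 0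
  res : ∀ L ∈ M, ∀ b : Fin t → Var (K + 1) n, (∃ i, L (b i) ≠ 0) → dot L (gb g b) ≠ 0

variable {c : Fin (K + 1) → ℝ} {g : Var (K + 1) n → ℝ} {u : Th K n x h t → Var (K + 1) n → ℝ}
  {M : Set (Var (K + 1) n → ℝ)}

theorem dot_comm_smul (a : ℝ) (L w : Var (K + 1) n → ℝ) : dot (a • L) w = a * dot L w := by
  unfold dot
  rw [mul_sum]
  exact sum_congr rfl fun e _ => by rw [Pi.smul_apply, smul_eq_mul]; ring

theorem lev_last (θ : Th K n x h t) : lev c g θ (h + 1) = g := by
  unfold lev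
  rw [dif_neg (by omega), if_neg (by omega)]

theorem lev_mid (θ : Th K n x h t) : lev c g θ h = gb g θ.2 := by
  unfold lev
  rw [dif_neg (by omega), if_pos rfl]

theorem lev_lt (θ : Th K n x h t) {j : ℕ} (hj : j < h) : lev c g θ j = qv c (θ.1 ⟨j, hj⟩).1 := by
  unfold lev
  rw [dif_pos hj]

theorem exists_first (hB : Base c g u M) (θ : Th K n x h t) {L : Var (K + 1) n → ℝ} (hL : L ∈ M)
    (h0 : L ≠ 0) : ∃ j ≤ h + 1, (∀ i < j, dot L (lev c g θ i) = 0) ∧ dot L (lev c g θ j) ≠ 0 := by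
  classical
  have h1 : ∃ j, dot L (lev c g θ j) ≠ 0 := ⟨h + 1, by rw [lev_last]; exact hB.gen L hL h0⟩
  refine ⟨Nat.find h1, Nat.find_min' h1 (by rw [lev_last]; exact hB.gen L hL h0), fun i hi => ?_,
    Nat.find_spec h1⟩
  by_contra hcon
  exact Nat.find_min h1 hi hcon

theorem base_ne (hB : Base c g u M) (θ : Th K n x h t) {L : Var (K + 1) n → ℝ} (hL : L ∈ M)
    (h0 : L ≠ 0) : dot L (u θ) ≠ 0 := by
  obtain ⟨j, -, h1, h2⟩ := exists_first hB θ hL h0
  intro h3
  have h4 := hB.sgn θ L hL j h1 h2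
  rw [h3, sign_zero] at h4
  exact h2 (sign_eq_zero_iff.1 h4.symm)

theorem sign_of_agree (hB : Base c g u M) {θ θ' : Th K n x h t} {i : ℕ}
    (hag : ∀ j < i, lev c g θ j = lev c g θ' j) {L : Var (K + 1) n → ℝ} (hL : L ∈ M)
    (hn : L ∉ Lk c g θ i) :
    SignType.sign (dot L (u θ)) = SignType.sign (dot L (u θ')) := by
  classical
  have h1 : ∃ j, j < i ∧ dot L (lev c g θ j) ≠ 0 := by
    unfold Lk at hn
    simpa using hn
  obtain ⟨h2, h3⟩ := Nat.find_spec h1
  have h4 : ∀ j < Nat.find h1, dot L (lev c g θ j) = 0 := by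
    intro j hj
    by_contra hcon
    exact Nat.find_min h1 hj ⟨by omega, hcon⟩
  rw [hB.sgn θ L hL _ h4 h3, hB.sgn θ' L hL (Nat.find h1)
    (fun j hj => by rw [← hag j (by omega)]; exact h4 j hj) (by rw [← hag _ h2]; exact h3),
    hag _ h2]

/-- the space of the forms of the first `i` rounds which vanish on the first `j` levels -/
noncomputable def WW (R : KS.LT (Var (K + 1) n)) (c : Fin (K + 1) → ℝ) (g : Var (K + 1) n → ℝ)
    (u : Th K n x h t → Var (K + 1) n → ℝ) (θ : Th K n x h t) (i j : ℕ) :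
    Submodule ℝ (Var (K + 1) n → ℝ) :=
  Submodule.span ℝ ((tf R i (u θ) : Set (Var (K + 1) n → ℝ)) ∩ Lk c g θ j)

theorem WW_anti (R : KS.LT (Var (K + 1) n)) (θ : Th K n x h t) (i : ℕ) {j j' : ℕ} (hj : j ≤ j') :
    Module.finrank ℝ (WW R c g u θ i j') ≤ Module.finrank ℝ (WW R c g u θ i j) := by
  refine Submodule.finrank_mono (Submodule.span_mono ?_)
  rintro L ⟨h1, h2⟩
  exact ⟨h1, fun a ha => h2 a (by omega)⟩

open Classical in
theorem resample_Th (E : Finset (Th K n x h t)) (i : Fin h) {κ : ℝ}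
    (hE : ∀ θ : Th K n x h t, (#(univ.filter fun z : Om K n x =>
      ((Function.update θ.1 i z, θ.2) : Th K n x h t) ∈ E) : ℝ) ≤ κ) :
    (#E : ℝ) * (Om K n x).card ≤ Fintype.card (Th K n x h t) * κ := by
  have h1 : #(E ×ˢ (univ : Finset (Om K n x))) ≤ #((univ : Finset (Th K n x h t)).sigma fun θ =>
      univ.filter fun z : Om K n x => ((Function.update θ.1 i z, θ.2) : Th K n x h t) ∈ E) := by
    refine card_le_card_of_injOn
      (fun q => ⟨(Function.update q.1.1 i q.2, q.1.2), q.1.1 i⟩) ?_ ?_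
    · rintro ⟨e, w⟩ hq
      have hq' := (mem_product.1 (mem_coe.1 hq)).1
      refine mem_coe.2 (mem_sigma.2 ⟨mem_univ _, mem_filter.2 ⟨mem_univ _, ?_⟩⟩)
      simp only [Function.update_idem, Function.update_eq_self]
      exact hq'
    · rintro ⟨e, w⟩ _ ⟨e', w'⟩ _ hq
      simp only [Sigma.mk.injEq, Prod.mk.injEq, heq_eq_eq] at hq
      obtain ⟨⟨h1, h2⟩, h3⟩ := hq
      have h4 : w = w' := by
        have := congrFun h1 i
        simpa using this
      have h5 : e.1 = e'.1 := by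
        funext j
        by_cases hj : j = i
        · rw [hj]; exact h3
        · have := congrFun h1 j
          simpa [Function.update_of_ne hj] using this
      rw [h4, Prod.ext h5 h2]
  rw [card_product, card_sigma, card_univ, Fintype.card_coe] at h1
  have h2 : (#E : ℝ) * (Om K n x).card ≤ ∑ θ : Th K n x h t,
      (#(univ.filter fun z : Om K n x =>
        ((Function.update θ.1 i z, θ.2) : Th K n x h t) ∈ E) : ℝ) := by exact_mod_cast h1
  refine h2.trans ((sum_le_sum fun θ _ => hE θ).trans ?_)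
  rw [sum_const, card_univ, nsmul_eq_mul]

open Classical in
/-- the rank does not grow much at a level -/
theorem card_level (hK : 1 ≤ K) (hx : 0 < x) (hc : ∀ p, c p ≠ 0) (hB : Base c g u M)
    (R : KS.LT (Var (K + 1) n)) (hR : forms R ⊆ M) {T : ℕ} (hT : ∀ v, R.tests v ≤ T)
    (D₀ D₁ : ℕ) {i : ℕ} (hi : i < h) :
    (x : ℝ) ^ D₁ * #(univ.filter fun θ : Th K n x h t =>
      Module.finrank ℝ (WW R c g u θ i i) ≤ D₀ ∧
        D₁ ≤ Module.finrank ℝ (WW R c g u θ (i + 1) (i + 1))) ≤
      ((T : ℝ) + 1) ^ (D₀ * i) * T.choose D₁ * Fintype.card (Th K n x h t) := by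
  have hx' : (0 : ℝ) < x := by exact_mod_cast hx
  set E : Finset (Th K n x h t) := univ.filter fun θ : Th K n x h t =>
      Module.finrank ℝ (WW R c g u θ i i) ≤ D₀ ∧
        D₁ ≤ Module.finrank ℝ (WW R c g u θ (i + 1) (i + 1)) with hE
  have hO0 : 0 < ((Om K n x).card : ℝ) := by
    have := card_pos.2 (Om_nonempty (n := n) hK hx)
    exact_mod_cast this
  have key := resample_Th E ⟨i, hi⟩
    (κ := ((T : ℝ) + 1) ^ (D₀ * i) * (T.choose D₁ * (Om K n x).card / (x : ℝ) ^ D₁)) ?_
  · have h1 : (#E : ℝ) ≤ Fintype.card (Th K n x h t) *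
        (((T : ℝ) + 1) ^ (D₀ * i) * (T.choose D₁ / (x : ℝ) ^ D₁)) := by
      refine le_of_mul_le_mul_right (key.trans (le_of_eq ?_)) hO0
      ring
    calc (x : ℝ) ^ D₁ * (#E : ℝ) ≤ (x : ℝ) ^ D₁ * (Fintype.card (Th K n x h t) *
        (((T : ℝ) + 1) ^ (D₀ * i) * (T.choose D₁ / (x : ℝ) ^ D₁))) :=
          mul_le_mul_of_nonneg_left h1 (by positivity)
      _ = ((x : ℝ) ^ D₁ / (x : ℝ) ^ D₁) * (((T : ℝ) + 1) ^ (D₀ * i) * T.choose D₁ *
          Fintype.card (Th K n x h t)) := by ring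
      _ = _ := by rw [div_self (by positivity), one_mul]
  · intro θ
    -- the inputs which agree with `θ` on the first levels
    set Ag : Th K n x h t → Prop := fun θ' => ∀ j < i, lev c g θ' j = lev c g θ j with hAg
    set U : Set (Var (K + 1) n → ℝ) := {v | ∃ θ', Ag θ' ∧
      Module.finrank ℝ (WW R c g u θ' i i) ≤ D₀ ∧ v = u θ'} with hU
    have hLk : ∀ θ', Ag θ' → Lk c g θ' i = Lk c g θ i := by
      intro θ' h1
      ext L
      unfold Lk
      constructor
      · intro h2 j hj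
        rw [← h1 j hj]
        exact h2 j hj
      · intro h2 j hj
        rw [h1 j hj]
        exact h2 j hj
    obtain ⟨F, hF1, hF2⟩ := card_transcripts R (Lk c g θ i) D₀ i T U
      (by
        rintro L hL hn v ⟨θ', h1, -, rfl⟩ v' ⟨θ'', h2, -, rfl⟩
        refine sign_of_agree hB (i := i) (fun j hj => by rw [h1 j hj, h2 j hj]) (hR hL) ?_
        rw [hLk θ' h1]
        exact hn)
      (by
        rintro v ⟨θ', -, -, rfl⟩ L hL h0
        exact base_ne hB θ' (hR hL) h0)
      (by
        rintro v ⟨θ', h1, h2, rfl⟩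
        unfold WW at h2
        rw [hLk θ' h1] at h2
        exact h2)
      (fun v _ => hT v)
    have h1 : (univ.filter fun z : Om K n x =>
        ((Function.update θ.1 ⟨i, hi⟩ z, θ.2) : Th K n x h t) ∈ E) ⊆
        (F.filter fun s => #s ≤ T).biUnion fun s => univ.filter fun z : Om K n x =>
          D₁ ≤ Module.finrank ℝ (Submodule.span ℝ ((s : Set (Var (K + 1) n → ℝ)) ∩
            {L | L ∈ Lk c g θ i ∧ dot L (qv c z.1) = 0})) := by
      intro z hz
      have h2 := (mem_filter.1 hz).2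
      set θ' : Th K n x h t := (Function.update θ.1 ⟨i, hi⟩ z, θ.2) with hθ'
      obtain ⟨-, h3, h4⟩ := mem_filter.1 h2
      have hag : Ag θ' := by
        intro j hj
        rw [lev_lt _ (by omega), lev_lt _ (by omega), hθ']
        simp only
        rw [Function.update_of_ne]
        intro h5
        rw [Fin.mk.injEq] at h5
        omega
      have hlv : lev c g θ' i = qv c z.1 := by
        rw [lev_lt _ hi, hθ']
        simp only
        rw [Function.update_self]
      rw [mem_biUnion]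
      refine ⟨tf R (i + 1) (u θ'), ?_, ?_⟩
      · rw [mem_filter]
        exact ⟨hF2 _ ⟨θ', hag, h3, rfl⟩, (card_tf R _ _).trans (hT _)⟩
      · rw [mem_filter]
        refine ⟨mem_univ _, h4.trans (Submodule.finrank_mono (Submodule.span_mono ?_))⟩
        rintro L ⟨hL1, hL2⟩
        refine ⟨hL1, ?_, ?_⟩
        · rw [← hLk θ' hag]
          exact fun j hj => hL2 j (by omega)
        · rw [← hlv]
          exact hL2 i (by omega)
    have h2 : ∀ s ∈ F.filter (fun s => #s ≤ T), (#(univ.filter fun z : Om K n x =>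
          D₁ ≤ Module.finrank ℝ (Submodule.span ℝ ((s : Set (Var (K + 1) n → ℝ)) ∩
            {L | L ∈ Lk c g θ i ∧ dot L (qv c z.1) = 0}))) : ℝ) ≤
        T.choose D₁ * (Om K n x).card / (x : ℝ) ^ D₁ := by
      intro s hs
      have h3 := card_rank hK (x := x) hc s (Lk c g θ i) D₁
      rw [le_div_iff₀ (by positivity), mul_comm]
      have h4 : #(univ.filter fun z : Om K n x =>
          D₁ ≤ Module.finrank ℝ (Submodule.span ℝ ((s : Set (Var (K + 1) n → ℝ)) ∩
            {L | L ∈ Lk c g θ i ∧ dot L (qv c z.1) = 0}))) ≤ #((Om K n x).filter fun ω =>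
          D₁ ≤ Module.finrank ℝ (Submodule.span ℝ ((s : Set (Var (K + 1) n → ℝ)) ∩
            {L | L ∈ Lk c g θ i ∧ dot L (qv c ω) = 0}))) := by
        refine card_le_card_of_injOn (fun z => z.1) ?_ (fun a _ b _ h => Subtype.ext h)
        intro z hz
        exact mem_coe.2 (mem_filter.2 ⟨z.2, (mem_filter.1 (mem_coe.1 hz)).2⟩)
      have h5 : ((#s).choose D₁ : ℝ) ≤ T.choose D₁ := by
        exact_mod_cast Nat.choose_le_choose D₁ (mem_filter.1 hs).2
      refine (mul_le_mul_of_nonneg_left (Nat.cast_le.2 h4) (by positivity)).trans (h3.trans ?_)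
      exact mul_le_mul_of_nonneg_right h5 hO0.le
    calc (#(univ.filter fun z : Om K n x =>
        ((Function.update θ.1 ⟨i, hi⟩ z, θ.2) : Th K n x h t) ∈ E) : ℝ)
        ≤ ∑ s ∈ F.filter (fun s => #s ≤ T), (#(univ.filter fun z : Om K n x =>
          D₁ ≤ Module.finrank ℝ (Submodule.span ℝ ((s : Set (Var (K + 1) n → ℝ)) ∩
            {L | L ∈ Lk c g θ i ∧ dot L (qv c z.1) = 0}))) : ℝ) := by
          exact_mod_cast (card_le_card h1).trans card_biUnion_le
      _ ≤ ∑ _s ∈ F.filter (fun s => #s ≤ T), (T.choose D₁ * (Om K n x).card / (x : ℝ) ^ D₁) :=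
          sum_le_sum h2
      _ = #(F.filter fun s => #s ≤ T) * (T.choose D₁ * (Om K n x).card / (x : ℝ) ^ D₁) := by
          rw [sum_const, nsmul_eq_mul]
      _ ≤ ((T : ℝ) + 1) ^ (D₀ * i) * (T.choose D₁ * (Om K n x).card / (x : ℝ) ^ D₁) := by
          refine mul_le_mul_of_nonneg_right ?_ (by positivity)
          exact_mod_cast (card_filter_le _ _).trans hF1

end Pool.Agent.H692.RR
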