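import Mathlib
import Pool.Agent.H692.RR.One

/-!
# One tree: the last level and the last round
-/

set_option autoImplicit false
set_option linter.unusedSectionVars false

namespace Pool.Agent.H692.RR

open Finset
open Pool.Agent.H692.KS
open Pool.Agent.H692.RT (forms nowForms vs lv tl dot_tl tl_ne yes dot_yes noi dot_noi form_of_notMem
  card_le_tests form_lv)

variable {K n x k t : ℕ} {c : Fin (K + 1) → ℝ} {g : Var (K + 1) n → ℝ}
  {u : Th K n x (k + 1) t → Var (K + 1) n → ℝ} {M : Set (Var (K + 1) n → ℝ)}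

open Classical in
/-- The forms which vanish on all levels, and on the variables of the sequence, have few
variables. -/
theorem card_last (hB : Base c g u M)
    (R : KS.LT (Var (K + 1) n)) (hR : forms R ⊆ M) {T : ℕ} (hT : ∀ v, R.tests v ≤ T)
    (D₀ D₁ m : ℕ) (hm : m ≤ (K + 1) * n) :
    (#(univ.filter fun θ : Th K n x (k + 1) t =>
      Module.finrank ℝ (WW R c g u θ k k) ≤ D₀ ∧
        Module.finrank ℝ (WW R c g u θ (k + 1) (k + 1)) ≤ D₁ ∧
        m < #(supp (vb (WW R c g u θ (k + 1) (k + 1)) t θ.2))) : ℝ) ≤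
      ((Om K n x).card : ℝ) ^ (k + 1) * (((T : ℝ) + 1) ^ (D₀ * k) *
        (2 ^ D₁ * (((K : ℝ) + 1) * n - m / 2) ^ t)) := by
  set E : Finset (Th K n x (k + 1) t) := univ.filter fun θ : Th K n x (k + 1) t =>
      Module.finrank ℝ (WW R c g u θ k k) ≤ D₀ ∧
        Module.finrank ℝ (WW R c g u θ (k + 1) (k + 1)) ≤ D₁ ∧
        m < #(supp (vb (WW R c g u θ (k + 1) (k + 1)) t θ.2)) with hE
  have hcard : (Fintype.card (Var (K + 1) n) : ℝ) = ((K : ℝ) + 1) * n := by
    rw [Fintype.card_prod, Fintype.card_fin, Fintype.card_fin]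
    push_cast
    ring
  have hm' : m ≤ Fintype.card (Var (K + 1) n) := by
    rw [Fintype.card_prod, Fintype.card_fin, Fintype.card_fin]
    exact hm
  have hb0 : (0 : ℝ) ≤ ((K : ℝ) + 1) * n - m / 2 := by
    have h1 : (m : ℝ) ≤ ((K : ℝ) + 1) * n := by exact_mod_cast hm
    have h2 : (0 : ℝ) ≤ m := Nat.cast_nonneg _
    linarith
  have h0 : #E ≤ ∑ a : Fin (k + 1) → Om K n x,
      #(univ.filter fun b : Fin t → Var (K + 1) n => ((a, b) : Th K n x (k + 1) t) ∈ E) := by
    rw [← card_sigma]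
    refine card_le_card_of_injOn (fun θ => ⟨θ.1, θ.2⟩) ?_ ?_
    · intro θ hθ
      exact mem_coe.2 (mem_sigma.2 ⟨mem_univ _, mem_filter.2 ⟨mem_univ _, mem_coe.1 hθ⟩⟩)
    · intro θ _ θ' _ h
      simp only [Sigma.mk.injEq, heq_eq_eq] at h
      exact Prod.ext h.1 h.2
  have h1 : ∀ a : Fin (k + 1) → Om K n x,
      (#(univ.filter fun b : Fin t → Var (K + 1) n => ((a, b) : Th K n x (k + 1) t) ∈ E) : ℝ) ≤
      ((T : ℝ) + 1) ^ (D₀ * k) * (2 ^ D₁ * (((K : ℝ) + 1) * n - m / 2) ^ t) := by
    intro a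
    by_cases hne : Nonempty (Fin t → Var (K + 1) n)
    swap
    · have : (univ.filter fun b : Fin t → Var (K + 1) n =>
          ((a, b) : Th K n x (k + 1) t) ∈ E) = ∅ := by
        refine filter_eq_empty_iff.2 fun b _ => ?_
        exact absurd ⟨b⟩ hne
      rw [this, card_empty, Nat.cast_zero]
      positivity
    obtain ⟨b₀⟩ := hne
    have hlev : ∀ b b' : Fin t → Var (K + 1) n, ∀ j < k + 1,
        lev c g ((a, b) : Th K n x (k + 1) t) j = lev c g ((a, b') : Th K n x (k + 1) t) j := by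
      intro b b' j hj
      rw [lev_lt _ hj, lev_lt _ hj]
    set A : Set (Var (K + 1) n → ℝ) := Lk c g ((a, b₀) : Th K n x (k + 1) t) (k + 1) with hA
    have hLk : ∀ b : Fin t → Var (K + 1) n, Lk c g ((a, b) : Th K n x (k + 1) t) (k + 1) = A := by
      intro b
      ext L
      rw [hA]
      unfold Lk
      constructor
      · intro h2 j hj
        rw [hlev b₀ b j hj]
        exact h2 j hj
      · intro h2 j hj
        rw [hlev b b₀ j hj]
        exact h2 j hj
    set U : Set (Var (K + 1) n → ℝ) := {v | ∃ b, Module.finrank ℝ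
      (WW R c g u ((a, b) : Th K n x (k + 1) t) k k) ≤ D₀ ∧ v = u (a, b)} with hU
    obtain ⟨F, hF1, hF2⟩ := card_transcripts R A D₀ k T U
      (by
        rintro L hL hn v ⟨b, -, rfl⟩ v' ⟨b', -, rfl⟩
        refine sign_of_agree hB (i := k + 1) (fun j hj => hlev b b' j hj) (hR hL) ?_
        rw [hLk b]
        exact hn)
      (by
        rintro v ⟨b, -, rfl⟩ L hL h0
        exact base_ne hB _ (hR hL) h0)
      (by
        rintro v ⟨b, h2, rfl⟩
        have h3 := WW_anti (u := u) (c := c) (g := g) R ((a, b) : Th K n x (k + 1) t) k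
          (Nat.le_succ k)
        unfold WW at h3
        rw [hLk b] at h3
        exact h3.trans h2)
      (fun v _ => hT v)
    have h2 : (univ.filter fun b : Fin t → Var (K + 1) n =>
        ((a, b) : Th K n x (k + 1) t) ∈ E) ⊆
        (F.filter fun s : Finset (Var (K + 1) n → ℝ) => Module.finrank ℝ (Submodule.span ℝ
          ((s : Set (Var (K + 1) n → ℝ)) ∩ A)) ≤ D₁).biUnion fun s : Finset (Var (K + 1) n → ℝ) =>
          univ.filter fun b : Fin t → Var (K + 1) n =>
          m < #(supp (vb (Submodule.span ℝ ((s : Set (Var (K + 1) n → ℝ)) ∩ A)) t b)) := by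
      intro b hb
      obtain ⟨-, h3, h4, h5⟩ := mem_filter.1 (mem_filter.1 hb).2
      unfold WW at h4 h5
      rw [hLk b] at h4 h5
      rw [mem_biUnion]
      exact ⟨_, mem_filter.2 ⟨hF2 _ ⟨b, h3, rfl⟩, h4⟩, mem_filter.2 ⟨mem_univ _, h5⟩⟩
    calc (#(univ.filter fun b : Fin t → Var (K + 1) n =>
          ((a, b) : Th K n x (k + 1) t) ∈ E) : ℝ)
        ≤ ∑ s ∈ F.filter (fun s : Finset (Var (K + 1) n → ℝ) => Module.finrank ℝ (Submodule.span ℝ
          ((s : Set (Var (K + 1) n → ℝ)) ∩ A)) ≤ D₁), (#(univ.filter fun b :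
          Fin t → Var (K + 1) n =>
          m < #(supp (vb (Submodule.span ℝ ((s : Set (Var (K + 1) n → ℝ)) ∩ A)) t b))) : ℝ) := by
          exact_mod_cast (card_le_card h2).trans card_biUnion_le
      _ ≤ ∑ _s ∈ F.filter (fun s : Finset (Var (K + 1) n → ℝ) => Module.finrank ℝ (Submodule.span ℝ
          ((s : Set (Var (K + 1) n → ℝ)) ∩ A)) ≤ D₁),
          (2 ^ D₁ * (((K : ℝ) + 1) * n - m / 2) ^ t) := by
          refine sum_le_sum fun s hs => ?_
          rw [← hcard]
          exact seq_bound m hm' t D₁ _ (mem_filter.1 hs).2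
      _ = #(F.filter fun s : Finset (Var (K + 1) n → ℝ) => Module.finrank ℝ (Submodule.span ℝ
          ((s : Set (Var (K + 1) n → ℝ)) ∩ A)) ≤ D₁) *
          (2 ^ D₁ * (((K : ℝ) + 1) * n - m / 2) ^ t) := by
          rw [sum_const, nsmul_eq_mul]
      _ ≤ _ := by
          refine mul_le_mul_of_nonneg_right ?_ (by positivity)
          exact_mod_cast (card_filter_le _ _).trans hF1
  calc (#E : ℝ) ≤ ∑ a : Fin (k + 1) → Om K n x,
      (#(univ.filter fun b : Fin t → Var (K + 1) n =>
        ((a, b) : Th K n x (k + 1) t) ∈ E) : ℝ) := by exact_mod_cast h0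
    _ ≤ ∑ _a : Fin (k + 1) → Om K n x, (((T : ℝ) + 1) ^ (D₀ * k) *
        (2 ^ D₁ * (((K : ℝ) + 1) * n - m / 2) ^ t)) := sum_le_sum fun a _ => h1 a
    _ = _ := by
        rw [sum_const, card_univ, nsmul_eq_mul, Fintype.card_pi_const, Fintype.card_coe]
        push_cast
        rfl

open Classical in
/-- the variables which are not secret -/
noncomputable def SS (R : KS.LT (Var (K + 1) n)) (c : Fin (K + 1) → ℝ) (g : Var (K + 1) n → ℝ)
    (u : Th K n x (k + 1) t → Var (K + 1) n → ℝ) (θ : Th K n x (k + 1) t) :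
    Finset (Var (K + 1) n) :=
  univ.image θ.2 ∪ supp (vb (WW R c g u θ (k + 1) (k + 1)) t θ.2)

open Classical in
/-- If a tight tuple does not meet the set `SS`, then the forms of the first rounds have the same
sign after the change. -/
theorem sign_good (hc : ∀ p, c p ≠ 0) (hB : Base c g u M)
    (R : KS.LT (Var (K + 1) n)) (hR : forms R ⊆ M) (hRt : ∀ L ∈ forms R, ∀ s, tl c s L ∈ M)
    {θ : Th K n x (k + 1) t} {s : Tup (K + 1) n} (hs : Tight θ s) (hd : Disjoint (vs s) (SS R c g u θ))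
    {L : Var (K + 1) n → ℝ} (hL : L ∈ tf R (k + 1) (u θ)) (h0 : L ≠ 0) :
    (¬ ∃ a : ℝ, L = a • form c s) ∧
      SignType.sign (dot (tl c s L) (u θ)) = SignType.sign (dot L (u θ)) := by
  have hLf := tf_forms R (u θ) _ L hL
  have hLM := hR hLf
  have htM := hRt L hLf s
  have hvs : lv s ∈ vs s := by
    unfold lv vs
    rw [mem_image]
    exact ⟨Fin.last K, mem_univ _, rfl⟩
  have hform : ∀ i, form c s (θ.2 i) = 0 := by
    intro i
    refine form_of_notMem c fun h1 => ?_
    refine (Finset.disjoint_left.1 hd) h1 ?_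
    unfold SS
    exact mem_union_left _ (mem_image.2 ⟨i, mem_univ _, rfl⟩)
  have htl : ∀ i, tl c s L (θ.2 i) = L (θ.2 i) := by
    intro i
    unfold tl
    rw [Pi.sub_apply, Pi.smul_apply, hform i, smul_zero, sub_zero]
  -- `L` has a variable of the tuple as soon as it is a multiple of the form
  obtain ⟨j, hj, h1, h2⟩ := exists_first hB θ hLM h0
  -- the values at the levels of labels
  have hlab : ∀ i < k + 1, dot (tl c s L) (lev c g θ i) = dot L (lev c g θ i) := by
    intro i hi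
    rw [lev_lt _ hi, dot_tl, val_qv hc, hs, mul_zero, sub_zero]
  by_cases hj1 : j < k + 1
  · have hsame : SignType.sign (dot (tl c s L) (u θ)) = SignType.sign (dot L (u θ)) := by
      rw [hB.sgn θ L hLM j h1 h2, hB.sgn θ _ htM j (fun i hi => by rw [hlab i (by omega)]; exact h1 i hi)
        (by rw [hlab j hj1]; exact h2), hlab j hj1]
    refine ⟨?_, hsame⟩
    rintro ⟨a, ha⟩
    apply h2
    rw [lev_lt _ hj1, ha, dot_comm_smul, dot_form, val_qv hc, hs, mul_zero]
  · have hLk : L ∈ Lk c g θ (k + 1) := fun i hi => h1 i (by omega)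
    have hW : L ∈ WW R c g u θ (k + 1) (k + 1) := Submodule.subset_span ⟨mem_coe.2 hL, hLk⟩
    by_cases hb : ∃ i, L (θ.2 i) ≠ 0
    · have hj2 : j = k + 1 := by
        by_contra hne
        have h3 := h1 (k + 1) (by omega)
        rw [lev_mid] at h3
        exact hB.res L hLM θ.2 hb h3
      subst hj2
      have hmid : dot (tl c s L) (lev c g θ (k + 1)) = dot L (lev c g θ (k + 1)) := by
        rw [lev_mid]
        unfold dot gb
        refine sum_congr rfl fun v _ => ?_
        split_ifs with hv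
        · obtain ⟨i, rfl⟩ := hv
          rw [htl i]
        · rw [mul_zero, mul_zero]
      refine ⟨?_, ?_⟩
      · rintro ⟨a, ha⟩
        obtain ⟨i, hi⟩ := hb
        apply hi
        rw [ha, Pi.smul_apply, hform i, smul_zero]
      · rw [hB.sgn θ L hLM _ h1 h2, hB.sgn θ _ htM (k + 1)
          (fun i hi => by rw [hlab i hi]; exact h1 i hi) (by rw [hmid]; exact h2), hmid]
    · push Not at hb
      have hlv : L (lv s) = 0 := by
        by_contra hne
        refine (Finset.disjoint_left.1 hd) hvs ?_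
        unfold SS
        refine mem_union_right _ (mem_supp.2 ⟨L, (mem_vb _ _ _).2 ⟨hW, hb⟩, hne⟩)
      refine ⟨?_, ?_⟩
      · rintro ⟨a, ha⟩
        rw [ha, Pi.smul_apply, form_lv, smul_eq_mul] at hlv
        have ha0 : a = 0 := (mul_eq_zero.1 hlv).resolve_right (hc _)
        rw [ha0, zero_smul] at ha
        exact h0 ha
      · have : tl c s L = L := by
          unfold tl
          rw [hlv, zero_div, zero_smul, sub_zero]
        rw [this]

open Classical in
/-- the tuples which do not meet the set `SS` are only found by testing their forms -/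
theorem card_found (hc : ∀ p, c p ≠ 0) (hB : Base c g u M)
    (R : KS.LT (Var (K + 1) n)) (hR : forms R ⊆ M) (hRt : ∀ L ∈ forms R, ∀ s, tl c s L ∈ M)
    {T : ℕ} (hT : ∀ v, R.tests v ≤ T) {ε : ℝ}
    (hε : ∀ (θ : Th K n x (k + 1) t) s, ∀ L ∈ forms R, (¬ ∃ a : ℝ, L = a • form c s) →
      SignType.sign (dot L (noi c (u θ) ε s)) = SignType.sign (dot L (yes c (u θ) s)))
    (hr : ∀ (θ : Th K n x (k + 1) t) s, R.rounds (noi c (u θ) ε s) ≤ k + 2) :
    #(univ.filter fun q : Th K n x (k + 1) t × Tup (K + 1) n => Tight q.1 q.2 ∧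
      Disjoint (vs q.2) (SS R c g u q.1) ∧ Diff R (noi c (u q.1) ε q.2) (yes c (u q.1) q.2)) ≤
      T * Fintype.card (Th K n x (k + 1) t) := by
  set Z : Finset (Th K n x (k + 1) t × Tup (K + 1) n) := univ.filter fun q => Tight q.1 q.2 ∧
      Disjoint (vs q.2) (SS R c g u q.1) ∧ Diff R (noi c (u q.1) ε q.2) (yes c (u q.1) q.2) with hZ
  have h1 : #Z ≤ ∑ θ : Th K n x (k + 1) t, #(univ.filter fun s : Tup (K + 1) n => (θ, s) ∈ Z) := by
    rw [← card_sigma]
    refine card_le_card_of_injOn (fun q => ⟨q.1, q.2⟩) ?_ ?_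
    · intro θ hθ
      exact mem_coe.2 (mem_sigma.2 ⟨mem_univ _, mem_filter.2 ⟨mem_univ _, mem_coe.1 hθ⟩⟩)
    · intro θ _ θ' _ h
      simp only [Sigma.mk.injEq, heq_eq_eq] at h
      exact Prod.ext h.1 h.2
  have h2 : ∀ θ : Th K n x (k + 1) t, #(univ.filter fun s : Tup (K + 1) n => (θ, s) ∈ Z) ≤ T := by
    intro θ
    refine (card_le_tests (F := form c) (fun f f' a h => form_inj hc h) (sub R (k + 1) (u θ)) (u θ)
      _ ?_).trans ((sub_tests R (u θ) (k + 1)).trans (hT _))
    intro s hs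
    obtain ⟨-, h3, h4, h5⟩ := mem_filter.1 (mem_filter.1 hs).2
    have h6 := sub_path R (u := u θ) (y := noi c (u θ) ε s) (z := yes c (u θ) s) (k + 1)
      (fun L hL h0 => by
        obtain ⟨h7, h8⟩ := sign_good hc hB R hR hRt h3 h4 hL h0
        have h9 := hε θ s L (tf_forms R (u θ) _ L hL) h7
        rw [dot_yes] at h9 ⊢
        exact ⟨h9.trans h8, h8⟩)
    have h7 := hr θ s
    obtain ⟨L, hL1, hL2, hL3⟩ := now_of_diff _ (h6.1 h5) (by have := h6.2; omega)
    refine ⟨L, hL1, hL2, ?_⟩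
    by_contra hcon
    exact hL3 (hε θ s L (forms_sub R (u θ) (k + 1) (now_forms _ hL1)) hcon)
  refine h1.trans ((sum_le_sum fun θ _ => h2 θ).trans ?_)
  rw [sum_const, card_univ, smul_eq_mul, mul_comm]

end Pool.Agent.H692.RR
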