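import Mathlib
import Pool.Agent.H692.RR.Two

/-!
# One tree: the bound; the choice of the input
-/

set_option autoImplicit false
set_option linter.unusedSectionVars false

namespace Pool.Agent.H692.RR

open Finset Filter Topology
open Pool.Agent.H692.KS
open Pool.Agent.H692.RT (forms nowForms vs lv tl dot_tl tl_ne yes dot_yes noi dot_noi form_of_notMem
  card_le_tests form_lv)

section one

variable {K n x k t : ℕ} {c : Fin (K + 1) → ℝ} {g : Var (K + 1) n → ℝ}
  {u : Th K n x (k + 1) t → Var (K + 1) n → ℝ} {M : Set (Var (K + 1) n → ℝ)}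

theorem WW_zero (R : KS.LT (Var (K + 1) n)) (θ : Th K n x (k + 1) t) :
    Module.finrank ℝ (WW R c g u θ 0 0) = 0 := by
  unfold WW
  rw [tf_zero, coe_empty, Set.empty_inter, Submodule.span_empty, finrank_bot]

open Classical in
/-- the exceptional parameters -/
theorem card_bad (hK : 1 ≤ K) (hx : 0 < x) (hc : ∀ p, c p ≠ 0) (hB : Base c g u M)
    (R : KS.LT (Var (K + 1) n)) (hR : forms R ⊆ M) {T : ℕ} (hT : ∀ v, R.tests v ≤ T)
    (D : ℕ → ℕ) (m : ℕ) (hm : m ≤ (K + 1) * n) {κ : ℝ}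
    (h1 : ∀ i < k + 1, ((T : ℝ) + 1) ^ (D i * i) * T.choose (D (i + 1) + 1) ≤
      κ * (x : ℝ) ^ (D (i + 1) + 1))
    (h2 : ((T : ℝ) + 1) ^ (D k * k) * (2 ^ D (k + 1) * (((K : ℝ) + 1) * n - m / 2) ^ t) ≤
      κ * (((K : ℝ) + 1) * n) ^ t) :
    (#(univ.filter fun θ : Th K n x (k + 1) t =>
      m < #(supp (vb (WW R c g u θ (k + 1) (k + 1)) t θ.2))) : ℝ) ≤
      ((k : ℝ) + 2) * κ * Fintype.card (Th K n x (k + 1) t) := by
  have hx' : (0 : ℝ) < x := by exact_mod_cast hx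
  set E : ℕ → Finset (Th K n x (k + 1) t) := fun i => univ.filter fun θ =>
    Module.finrank ℝ (WW R c g u θ i i) ≤ D i ∧
      D (i + 1) + 1 ≤ Module.finrank ℝ (WW R c g u θ (i + 1) (i + 1)) with hE
  set E' : Finset (Th K n x (k + 1) t) := univ.filter fun θ =>
    Module.finrank ℝ (WW R c g u θ k k) ≤ D k ∧
        Module.finrank ℝ (WW R c g u θ (k + 1) (k + 1)) ≤ D (k + 1) ∧
        m < #(supp (vb (WW R c g u θ (k + 1) (k + 1)) t θ.2)) with hE'
  have h3 : (univ.filter fun θ : Th K n x (k + 1) t =>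
      m < #(supp (vb (WW R c g u θ (k + 1) (k + 1)) t θ.2))) ⊆
      ((range (k + 1)).biUnion E) ∪ E' := by
    intro θ hθ
    have hθ' := (mem_filter.1 hθ).2
    rw [mem_union]
    by_contra hcon
    rw [not_or] at hcon
    obtain ⟨h4, h5⟩ := hcon
    have h6 : ∀ i ≤ k + 1, Module.finrank ℝ (WW R c g u θ i i) ≤ D i := by
      intro i
      induction i with
      | zero => intro _; rw [WW_zero]; exact Nat.zero_le _
      | succ i ih =>
        intro hi
        by_contra h7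
        push Not at h7
        apply h4
        rw [mem_biUnion]
        exact ⟨i, mem_range.2 (by omega), mem_filter.2 ⟨mem_univ _, ih (by omega), h7⟩⟩
    exact h5 (mem_filter.2 ⟨mem_univ _, h6 k (by omega), h6 (k + 1) le_rfl, hθ'⟩)
  have h4 : ∀ i ∈ range (k + 1), (#(E i) : ℝ) ≤ κ * Fintype.card (Th K n x (k + 1) t) := by
    intro i hi
    have h5 := card_level hK hx hc hB R hR hT (D i) (D (i + 1) + 1) (mem_range.1 hi)
    have h6 := h1 i (mem_range.1 hi)
    have h7 : (0 : ℝ) < (x : ℝ) ^ (D (i + 1) + 1) := by positivity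
    refine le_of_mul_le_mul_left (h5.trans ?_) h7
    calc ((T : ℝ) + 1) ^ (D i * i) * T.choose (D (i + 1) + 1) *
          Fintype.card (Th K n x (k + 1) t)
        ≤ κ * (x : ℝ) ^ (D (i + 1) + 1) * Fintype.card (Th K n x (k + 1) t) :=
          mul_le_mul_of_nonneg_right h6 (Nat.cast_nonneg _)
      _ = _ := by ring
  have h5 : (#E' : ℝ) ≤ κ * Fintype.card (Th K n x (k + 1) t) := by
    refine (card_last hB R hR hT (D k) (D (k + 1)) m hm).trans ?_
    rw [card_Th]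
    have h6 : (Fintype.card (Fin t → Var (K + 1) n) : ℝ) = (((K : ℝ) + 1) * n) ^ t := by
      rw [Fintype.card_pi_const, Fintype.card_prod, Fintype.card_fin, Fintype.card_fin]
      push_cast
      ring
    rw [h6]
    calc ((Om K n x).card : ℝ) ^ (k + 1) * (((T : ℝ) + 1) ^ (D k * k) *
          (2 ^ D (k + 1) * (((K : ℝ) + 1) * n - m / 2) ^ t))
        ≤ ((Om K n x).card : ℝ) ^ (k + 1) * (κ * (((K : ℝ) + 1) * n) ^ t) :=
          mul_le_mul_of_nonneg_left h2 (by positivity)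
      _ = _ := by ring
  calc (#(univ.filter fun θ : Th K n x (k + 1) t =>
      m < #(supp (vb (WW R c g u θ (k + 1) (k + 1)) t θ.2))) : ℝ)
      ≤ ∑ i ∈ range (k + 1), (#(E i) : ℝ) + #E' := by
        have h6 := (card_le_card h3).trans (card_union_le _ _)
        have h7 := card_biUnion_le (s := range (k + 1)) (t := E)
        exact_mod_cast h6.trans (Nat.add_le_add_right h7 _)
    _ ≤ ∑ _i ∈ range (k + 1), κ * Fintype.card (Th K n x (k + 1) t) +
        κ * Fintype.card (Th K n x (k + 1) t) := add_le_add (sum_le_sum h4) h5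
    _ = _ := by
        rw [sum_const, card_range, nsmul_eq_mul]
        push_cast
        ring

open Classical in
/-- the bound for one tree -/
theorem one_tree (hK : 1 ≤ K) (hx : 0 < x) (hc : ∀ p, c p ≠ 0) (hB : Base c g u M)
    (R : KS.LT (Var (K + 1) n)) (hR : forms R ⊆ M) (hRt : ∀ L ∈ forms R, ∀ s, tl c s L ∈ M)
    {T : ℕ} (hT : ∀ v, R.tests v ≤ T) {ε : ℝ}
    (hε : ∀ (θ : Th K n x (k + 1) t) s, ∀ L ∈ forms R, (¬ ∃ a : ℝ, L = a • form c s) →
      SignType.sign (dot L (noi c (u θ) ε s)) = SignType.sign (dot L (yes c (u θ) s)))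
    (hr : ∀ (θ : Th K n x (k + 1) t) s, R.rounds (noi c (u θ) ε s) ≤ k + 2)
    (D : ℕ → ℕ) (m : ℕ) (hm : m ≤ (K + 1) * n) {κ : ℝ}
    (h1 : ∀ i < k + 1, ((T : ℝ) + 1) ^ (D i * i) * T.choose (D (i + 1) + 1) ≤
      κ * (x : ℝ) ^ (D (i + 1) + 1))
    (h2 : ((T : ℝ) + 1) ^ (D k * k) * (2 ^ D (k + 1) * (((K : ℝ) + 1) * n - m / 2) ^ t) ≤
      κ * (((K : ℝ) + 1) * n) ^ t)
    (h3 : (K * x : ℝ) ^ (k + 1) ≤ (n : ℝ) ^ K) {ν : ℝ} (hν : 0 ≤ ν)
    (h4 : ((t : ℝ) + m + ((k : ℝ) + 2) * κ * (((K : ℝ) + 1) * n)) * (((K : ℝ) + 1) *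
      (1 + (K : ℝ) ^ (k + 1))) ≤ ν ^ 2 * n) :
    (K * x : ℝ) ^ (k + 1) * (#(univ.filter fun q : Th K n x (k + 1) t × Tup (K + 1) n =>
      Tight q.1 q.2 ∧ Diff R (noi c (u q.1) ε q.2) (yes c (u q.1) q.2)) : ℝ) ≤
      ((K * x : ℝ) ^ (k + 1) * T + ν * (n : ℝ) ^ (K + 1)) * Fintype.card (Th K n x (k + 1) t) := by
  have hx' : (0 : ℝ) < x := by exact_mod_cast hx
  have hK' : (0 : ℝ) < K := by exact_mod_cast hK
  set N : ℝ := (Fintype.card (Th K n x (k + 1) t) : ℝ) with hN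
  have hN0 : 0 ≤ N := Nat.cast_nonneg _
  set q : ℝ := (K * x : ℝ) ^ (k + 1) with hq
  have hq0 : 0 < q := by positivity
  -- the two kinds of pairs
  set Z₁ : Finset (Th K n x (k + 1) t × Tup (K + 1) n) := univ.filter fun q => Tight q.1 q.2 ∧
      Disjoint (vs q.2) (SS R c g u q.1) ∧ Diff R (noi c (u q.1) ε q.2) (yes c (u q.1) q.2)
    with hZ₁
  set Z₂ : Finset (Th K n x (k + 1) t × Tup (K + 1) n) := univ.filter fun q =>
      Tight q.1 q.2 ∧ ¬ Disjoint (vs q.2) (SS R c g u q.1) with hZ₂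
  have h5 : (univ.filter fun q : Th K n x (k + 1) t × Tup (K + 1) n =>
      Tight q.1 q.2 ∧ Diff R (noi c (u q.1) ε q.2) (yes c (u q.1) q.2)) ⊆ Z₁ ∪ Z₂ := by
    intro p hp
    obtain ⟨-, hp1, hp2⟩ := mem_filter.1 hp
    rw [mem_union]
    by_cases hd : Disjoint (vs p.2) (SS R c g u p.1)
    · exact Or.inl (mem_filter.2 ⟨mem_univ _, hp1, hd, hp2⟩)
    · exact Or.inr (mem_filter.2 ⟨mem_univ _, hp1, hd⟩)
  have h6 : (#Z₁ : ℝ) ≤ T * N := by
    have := card_found hc hB R hR hRt hT hε hr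
    rw [hN]
    exact_mod_cast this
  have hbad := card_bad hK hx hc hB R hR hT D m hm h1 h2
  -- the sizes of the sets
  have h7 : ∑ θ : Th K n x (k + 1) t, (#(SS R c g u θ) : ℝ) ≤
      ((t : ℝ) + m + ((k : ℝ) + 2) * κ * (((K : ℝ) + 1) * n)) * N := by
    have h8 : ∀ θ : Th K n x (k + 1) t, (#(SS R c g u θ) : ℝ) ≤ (t : ℝ) + m +
        (if m < #(supp (vb (WW R c g u θ (k + 1) (k + 1)) t θ.2)) then (((K : ℝ) + 1) * n)
          else 0) := by
      intro θ
      have h9 : #(SS R c g u θ) ≤ t + #(supp (vb (WW R c g u θ (k + 1) (k + 1)) t θ.2)) := by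
        unfold SS
        refine (card_union_le _ _).trans (Nat.add_le_add_right ?_ _)
        exact card_image_le.trans (by simp)
      have h9' : (#(SS R c g u θ) : ℝ) ≤ t +
          (#(supp (vb (WW R c g u θ (k + 1) (k + 1)) t θ.2)) : ℝ) := by exact_mod_cast h9
      split_ifs with h10
      · have h11 : (#(supp (vb (WW R c g u θ (k + 1) (k + 1)) t θ.2)) : ℝ) ≤ ((K : ℝ) + 1) * n := by
          have h12 : #(supp (vb (WW R c g u θ (k + 1) (k + 1)) t θ.2)) ≤ (K + 1) * n := by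
            refine (card_le_univ _).trans ?_
            rw [Fintype.card_prod, Fintype.card_fin, Fintype.card_fin]
          exact_mod_cast h12
        have : (0 : ℝ) ≤ m := Nat.cast_nonneg _
        linarith
      · push Not at h10
        have h11 : (#(supp (vb (WW R c g u θ (k + 1) (k + 1)) t θ.2)) : ℝ) ≤ m := by
          exact_mod_cast h10
        linarith
    refine (sum_le_sum fun θ _ => h8 θ).trans ?_
    rw [sum_add_distrib, sum_const, card_univ, nsmul_eq_mul, ← sum_filter, sum_const,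
      nsmul_eq_mul]
    have h9 : (0 : ℝ) ≤ ((K : ℝ) + 1) * n := by positivity
    have h10 := mul_le_mul_of_nonneg_right hbad h9
    rw [← hN] at h10 ⊢
    linarith
  have h8 := card_meet (h := k + 1) (t := t) hK hx (SS R c g u)
  have h9 : (#Z₂ : ℝ) * q ≤ (ν * (n : ℝ) ^ (K + 1)) * N := by
    have h10 : (0 : ℝ) ≤ (ν * (n : ℝ) ^ (K + 1)) * N := by positivity
    refine (pow_le_pow_iff_left₀ (by positivity) h10 two_ne_zero).1 ?_
    rw [mul_pow]
    have h11 : (0 : ℝ) ≤ N * ((K + 1) * n *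
        ((n : ℝ) ^ K / (K * x : ℝ) ^ (k + 1) +
          (n : ℝ) ^ (2 * K) / (K * x ^ 2 : ℝ) ^ (k + 1))) := by positivity
    have h12 : (n : ℝ) ^ K / (K * x : ℝ) ^ (k + 1) +
        (n : ℝ) ^ (2 * K) / (K * x ^ 2 : ℝ) ^ (k + 1) ≤
        (1 + (K : ℝ) ^ (k + 1)) * (n : ℝ) ^ (2 * K) / q ^ 2 := by
      have e1 : q ^ 2 = (K * x ^ 2 : ℝ) ^ (k + 1) * (K : ℝ) ^ (k + 1) := by
        rw [hq, ← pow_mul, mul_comm (k + 1) 2, pow_mul, ← mul_pow]
        congr 1
        ring
      have e2 : (n : ℝ) ^ (2 * K) / (K * x ^ 2 : ℝ) ^ (k + 1) =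
          (K : ℝ) ^ (k + 1) * (n : ℝ) ^ (2 * K) / q ^ 2 := by
        rw [e1, div_eq_div_iff (by positivity) (by positivity)]
        ring
      have e3 : (n : ℝ) ^ K / q ≤ (n : ℝ) ^ (2 * K) / q ^ 2 := by
        rw [div_le_div_iff₀ (by positivity) (by positivity), two_mul, pow_add]
        calc (n : ℝ) ^ K * q ^ 2 = ((n : ℝ) ^ K * q) * q := by ring
          _ ≤ ((n : ℝ) ^ K * q) * (n : ℝ) ^ K := mul_le_mul_of_nonneg_left h3 (by positivity)
          _ = _ := by ring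
      rw [e2]
      calc (n : ℝ) ^ K / q + (K : ℝ) ^ (k + 1) * (n : ℝ) ^ (2 * K) / q ^ 2
          ≤ (n : ℝ) ^ (2 * K) / q ^ 2 + (K : ℝ) ^ (k + 1) * (n : ℝ) ^ (2 * K) / q ^ 2 :=
            add_le_add_left e3 _
        _ = _ := by ring
    calc (#Z₂ : ℝ) ^ 2 * q ^ 2
        ≤ ((∑ θ, (#(SS R c g u θ) : ℝ)) * (N * ((K + 1) * n *
          ((n : ℝ) ^ K / (K * x : ℝ) ^ (k + 1) +
          (n : ℝ) ^ (2 * K) / (K * x ^ 2 : ℝ) ^ (k + 1))))) * q ^ 2 :=
          mul_le_mul_of_nonneg_right h8 (by positivity)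
      _ ≤ ((((t : ℝ) + m + ((k : ℝ) + 2) * κ * (((K : ℝ) + 1) * n)) * N) *
          (N * ((K + 1) * n * ((1 + (K : ℝ) ^ (k + 1)) * (n : ℝ) ^ (2 * K) / q ^ 2)))) *
          q ^ 2 := by
          refine mul_le_mul_of_nonneg_right ?_ (by positivity)
          refine mul_le_mul h7 ?_ h11 (le_trans (sum_nonneg fun θ _ => Nat.cast_nonneg _) h7)
          exact mul_le_mul_of_nonneg_left (mul_le_mul_of_nonneg_left h12 (by positivity)) hN0
      _ = (((t : ℝ) + m + ((k : ℝ) + 2) * κ * (((K : ℝ) + 1) * n)) * (((K : ℝ) + 1) *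
          (1 + (K : ℝ) ^ (k + 1)))) * (n * (n : ℝ) ^ (2 * K) * N ^ 2) * (q ^ 2 / q ^ 2) := by
          ring
      _ ≤ (ν ^ 2 * n) * (n * (n : ℝ) ^ (2 * K) * N ^ 2) * (q ^ 2 / q ^ 2) := by
          refine mul_le_mul_of_nonneg_right ?_ (by positivity)
          exact mul_le_mul_of_nonneg_right h4 (by positivity)
      _ = (ν * (n : ℝ) ^ (K + 1) * N) ^ 2 := by
          rw [div_self (by positivity), two_mul, pow_add]
          ring
  have h10 : (#(univ.filter fun q : Th K n x (k + 1) t × Tup (K + 1) n =>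
      Tight q.1 q.2 ∧ Diff R (noi c (u q.1) ε q.2) (yes c (u q.1) q.2)) : ℝ) ≤ #Z₁ + #Z₂ := by
    exact_mod_cast (card_le_card h5).trans (card_union_le _ _)
  calc q * (#(univ.filter fun q : Th K n x (k + 1) t × Tup (K + 1) n =>
      Tight q.1 q.2 ∧ Diff R (noi c (u q.1) ε q.2) (yes c (u q.1) q.2)) : ℝ)
      ≤ q * (#Z₁ + #Z₂) := mul_le_mul_of_nonneg_left h10 hq0.le
    _ = q * #Z₁ + #Z₂ * q := by ring
    _ ≤ q * (T * N) + (ν * (n : ℝ) ^ (K + 1)) * N :=
        add_le_add (mul_le_mul_of_nonneg_left h6 hq0.le) h9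
    _ = _ := by ring

end one

section base

variable {ι : Type} [Fintype ι]

theorem eventually_poly (a : ℕ → ℝ) (j r : ℕ) (h0 : ∀ i < j, a i = 0) (hj : a j ≠ 0) :
    ∀ᶠ η in 𝓝[>] (0 : ℝ), SignType.sign (∑ i ∈ range (j + (r + 1)), η ^ i * a i) =
      SignType.sign (a j) := by
  set F : ℝ → ℝ := fun η => ∑ i ∈ range (r + 1), η ^ i * a (j + i) with hF
  have hF0 : F 0 = a j := by
    rw [hF]
    simp only
    rw [sum_range_succ']
    simp
  have hcont : Continuous F := by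
    rw [hF]
    fun_prop
  have h1 : ∀ᶠ η in 𝓝 (0 : ℝ), SignType.sign (F η) = SignType.sign (a j) := by
    rcases lt_or_gt_of_ne hj with h | h
    · have h2 : ∀ᶠ η in 𝓝 (0 : ℝ), F η < 0 :=
        hcont.continuousAt.eventually (gt_mem_nhds (by rw [hF0]; exact h))
      filter_upwards [h2] with η hη
      rw [sign_neg hη, sign_neg h]
    · have h2 : ∀ᶠ η in 𝓝 (0 : ℝ), 0 < F η :=
        hcont.continuousAt.eventually (lt_mem_nhds (by rw [hF0]; exact h))
      filter_upwards [h2] with η hη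
      rw [sign_pos hη, sign_pos h]
  filter_upwards [h1.filter_mono nhdsWithin_le_nhds, self_mem_nhdsWithin] with η h2 h3
  have hη : (0 : ℝ) < η := h3
  have h4 : ∑ i ∈ range (j + (r + 1)), η ^ i * a i = η ^ j * F η := by
    rw [sum_range_add, sum_eq_zero fun i hi => by rw [h0 i (mem_range.1 hi), mul_zero], zero_add,
      hF, mul_sum]
    refine sum_congr rfl fun i _ => ?_
    rw [pow_add]
    ring
  rw [h4, sign_mul, sign_pos (pow_pos hη j), one_mul, h2]

theorem dot_sum_right {κ : Type} (s : Finset κ) (g : κ → ℝ) (v : κ → ι → ℝ) (L : ι → ℝ) :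
    dot L (∑ i ∈ s, g i • v i) = ∑ i ∈ s, g i * dot L (v i) := by
  classical
  induction s using Finset.induction_on with
  | empty => unfold dot; simp
  | insert i s hi ih =>
    rw [sum_insert hi, sum_insert hi, ← ih, dot_add, dot_smul]

variable {K n x h t : ℕ}

theorem exists_base (c : Fin (K + 1) → ℝ) {M : Set (Var (K + 1) n → ℝ)} (hM : M.Finite) :
    ∃ (g : Var (K + 1) n → ℝ) (u : Th K n x h t → Var (K + 1) n → ℝ), Base c g u M := by
  classical
  have := hM.to_subtype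
  obtain ⟨g, -, hg⟩ := exists_generic
    (fun i : M ⊕ (M × (Fin t → Var (K + 1) n)) => match i with
      | Sum.inl L => L.1
      | Sum.inr q => gb q.1.1 q.2) isOpen_univ (Set.mem_univ (0 : Var (K + 1) n → ℝ))
  have hg1 : ∀ L ∈ M, L ≠ 0 → dot L g ≠ 0 := fun L hL h0 => hg (Sum.inl ⟨L, hL⟩) h0
  have hg2 : ∀ L ∈ M, ∀ b : Fin t → Var (K + 1) n, (∃ i, L (b i) ≠ 0) →
      dot L (gb g b) ≠ 0 := by
    rintro L hL b ⟨i, hi⟩
    have h1 := hg (Sum.inr (⟨L, hL⟩, b)) (by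
      intro h2
      apply hi
      have h3 : gb L b (b i) = 0 := congrFun h2 (b i)
      unfold gb at h3
      rw [if_pos ⟨i, rfl⟩] at h3
      exact h3)
    have h2 : dot L (gb g b) = dot (gb L b) g := by
      unfold dot gb
      refine sum_congr rfl fun v _ => ?_
      split_ifs <;> simp
    rw [h2]
    exact h1
  have h1 : ∀ᶠ η in 𝓝[>] (0 : ℝ), ∀ θ : Th K n x h t, ∀ L ∈ M, ∀ j : Fin (h + 2),
      (∀ i < j.1, dot L (lev c g θ i) = 0) → dot L (lev c g θ j) ≠ 0 →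
      SignType.sign (∑ i ∈ range (h + 2), η ^ i * dot L (lev c g θ i)) =
        SignType.sign (dot L (lev c g θ j)) := by
    refine eventually_all.2 fun θ => (eventually_all_finite hM).2 fun L hL =>
      eventually_all.2 fun j => ?_
    by_cases h2 : (∀ i < j.1, dot L (lev c g θ i) = 0) ∧ dot L (lev c g θ j) ≠ 0
    · have h3 := eventually_poly (fun i => dot L (lev c g θ i)) j.1 (h + 1 - j.1) h2.1 h2.2
      have h4 : j.1 + (h + 1 - j.1 + 1) = h + 2 := by
        have := j.2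
        omega
      rw [h4] at h3
      filter_upwards [h3] with η hη _ _
      exact hη
    · exact Eventually.of_forall fun η h3 h4 => absurd ⟨h3, h4⟩ h2
  obtain ⟨η, h2⟩ := h1.exists
  refine ⟨g, fun θ => ∑ i ∈ range (h + 2), η ^ i • lev c g θ i, ?_, hg1, hg2⟩
  intro θ L hL j h3 h4
  rw [dot_sum_right]
  by_cases hj : j < h + 2
  · exact h2 θ L hL ⟨j, hj⟩ h3 h4
  · exfalso
    have h5 := h3 (h + 1) (by omega)
    rw [lev_last] at h5
    apply h4
    have h6 : lev c g θ j = g := by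
      unfold lev
      rw [dif_neg (by omega), if_neg (by omega)]
    rw [h6]
    exact h5

end base

end Pool.Agent.H692.RR
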