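import Mathlib

/-!
# The constant
-/

set_option autoImplicit false

namespace Pool.Agent.H692.RR

/-- The bound with parameters gives a bound with one constant. -/
theorem numeric {K : ℕ} (hK : 1 ≤ K) {γ : ℝ} (hγ : 0 < γ) (hγ1 : γ ≤ 1) :
    ∃ C : ℝ, 1 ≤ C ∧ ∀ (k n : ℕ) (T : ℝ), 2 ≤ n → 0 ≤ T →
      (∀ (T' ℓ s : ℕ) (A G : ℝ), 4 * T ≤ γ * (T' + 1) → n ≤ T' → T' + 1 ≤ 2 ^ ℓ →
        A = ((K : ℝ) + 1) * (1 + (K : ℝ) ^ (k + 1)) →
        G = 384 * ((K : ℝ) + 1) * A ^ 2 * ((ℓ : ℝ) * (k + 1)) ^ k / (γ / 4) ^ 4 →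
        2 * A * ((K : ℝ) + 1) * ((k : ℝ) + 2) ≤ (γ / 4) ^ 2 * 2 ^ s →
        2 * G * (1 + s) ≤ n →
        γ / 2 * (n : ℝ) ^ (K + k + 2) ≤ (48 * K * G) ^ (k + 1) * (T' : ℝ) ^ (k + 2)) →
      (n : ℝ) ^ (K + (k + 2)) ≤ C ^ ((k + 2) ^ 2) * (((k : ℝ) + 2) * Real.log n) ^ ((k + 1) * k) *
        (T + n) ^ (k + 2) := by
  have hK' : (1 : ℝ) ≤ K := by exact_mod_cast hK
  -- a large natural number
  obtain ⟨Γ, hΓ⟩ := exists_nat_ge (8 / γ + K + 1)
  have h8 : 0 < 8 / γ := by positivity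
  have hΓ1 : 8 / γ ≤ Γ := by linarith
  have hΓK : (K : ℝ) + 1 ≤ Γ := by linarith
  have hΓ0 : (1 : ℝ) ≤ Γ := by linarith
  have hΓp : (0 : ℝ) < Γ := by linarith
  have hΓγ : 8 ≤ Γ * γ := by rwa [div_le_iff₀ hγ] at hΓ1
  set B : ℝ := 1920 * (Γ : ℝ) ^ 6 with hB
  have hB1 : 1 ≤ B := by
    have : (1 : ℝ) ≤ (Γ : ℝ) ^ 6 := one_le_pow₀ hΓ0
    linarith
  set B' : ℝ := B * 2 ^ (3 * Γ + 2) with hB'
  have h21 : (1 : ℝ) ≤ 2 ^ (3 * Γ + 2) := one_le_pow₀ (by norm_num)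
  have hBB' : B ≤ B' := le_mul_of_one_le_right (by linarith) h21
  have hB'1 : 1 ≤ B' := hB1.trans hBB'
  set C₃ : ℝ := ((B' * K) ^ (2 * K) * ((2 * K).factorial : ℝ)) ^ K with hC₃
  have hf1 : (1 : ℝ) ≤ ((2 * K).factorial : ℝ) := by exact_mod_cast Nat.succ_le_of_lt (Nat.factorial_pos _)
  have hBK : 1 ≤ B' * K := by nlinarith
  have hC₃0 : 1 ≤ (B' * K) ^ (2 * K) * ((2 * K).factorial : ℝ) := by
    have h1 : (1 : ℝ) ≤ (B' * K) ^ (2 * K) := one_le_pow₀ hBK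
    nlinarith
  have hC₃1 : 1 ≤ C₃ := one_le_pow₀ hC₃0
  have h48 : (1 : ℝ) ≤ 48 * (Γ : ℝ) ^ 3 := by
    have : (1 : ℝ) ≤ (Γ : ℝ) ^ 3 := one_le_pow₀ hΓ0
    linarith
  set C : ℝ := 48 * (Γ : ℝ) ^ 3 * B' * C₃ with hC
  have hCa : 48 * (Γ : ℝ) ^ 3 * B' ≤ C := le_mul_of_one_le_right (by positivity) hC₃1
  have hCb : C₃ ≤ C := by
    have h1 : 1 * 1 ≤ 48 * (Γ : ℝ) ^ 3 * B' := mul_le_mul h48 hB'1 (by norm_num) (by positivity)
    have h2 : C = C₃ * (48 * (Γ : ℝ) ^ 3 * B') := by rw [hC]; ring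
    rw [h2]
    exact le_mul_of_one_le_right (by linarith) (by linarith)
  have hCc : B' ≤ C := by
    have h1 : B' ≤ 48 * (Γ : ℝ) ^ 3 * B' := le_mul_of_one_le_left (by linarith) h48
    exact h1.trans hCa
  have hC1 : 1 ≤ C := hC₃1.trans hCb
  refine ⟨C, hC1, fun k n T hn hT hyp => ?_⟩
  set r : ℕ := k + 2 with hr
  have hn' : (2 : ℝ) ≤ n := by exact_mod_cast hn
  have hn0 : (0 : ℝ) < n := by linarith
  have hk0 : (0 : ℝ) ≤ k := Nat.cast_nonneg _
  have hlog2 : (0.69 : ℝ) ≤ Real.log 2 := by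
    have := Real.log_two_gt_d9
    linarith
  have hlogn : Real.log 2 ≤ Real.log n := Real.log_le_log (by norm_num) hn'
  set y : ℝ := ((k : ℝ) + 2) * Real.log n with hy
  have hy1 : 1 ≤ y := by
    rw [hy]
    have : 2 * Real.log n ≤ ((k : ℝ) + 2) * Real.log n :=
      mul_le_mul_of_nonneg_right (by linarith) (by linarith)
    linarith
  have hy0 : 0 < y := by linarith
  have hyp1 : ∀ a : ℕ, (1 : ℝ) ≤ y ^ a := fun a => one_le_pow₀ hy1
  have hCp1 : ∀ a : ℕ, (1 : ℝ) ≤ C ^ a := fun a => one_le_pow₀ hC1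
  have hTn : (n : ℝ) ≤ T + n := by linarith
  have hTn0 : 0 < T + n := by linarith
  by_cases hbig : (n : ℝ) ^ (K + 1) ≤ T + n
  · -- very many tests
    calc (n : ℝ) ^ (K + r) ≤ (n : ℝ) ^ ((K + 1) * r) := by
          refine pow_le_pow_right₀ (by linarith) ?_
          have h1 : K * 1 ≤ K * r := Nat.mul_le_mul_left _ (by omega)
          calc K + r ≤ K * r + r := by omega
            _ = (K + 1) * r := by ring
      _ = ((n : ℝ) ^ (K + 1)) ^ r := by rw [pow_mul]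
      _ ≤ (T + n) ^ r := pow_le_pow_left₀ (by positivity) hbig r
      _ = 1 * 1 * (T + n) ^ r := by ring
      _ ≤ C ^ (r ^ 2) * y ^ ((k + 1) * k) * (T + n) ^ r := by
          refine mul_le_mul_of_nonneg_right ?_ (by positivity)
          exact mul_le_mul (hCp1 _) (hyp1 _) (by norm_num) (by positivity)
  push Not at hbig
  -- the parameters
  set T' : ℕ := ⌊4 * T / γ⌋₊ + n with hT'
  have h4T : 0 ≤ 4 * T / γ := by positivity
  have hT'1 : 4 * T ≤ γ * (T' + 1) := by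
    have h1 := Nat.lt_floor_add_one (4 * T / γ)
    rw [div_lt_iff₀ hγ] at h1
    have h2 : (T' : ℝ) = ⌊4 * T / γ⌋₊ + n := by rw [hT']; push_cast; ring
    rw [h2]
    nlinarith
  have hT'2 : (T' : ℝ) ≤ Γ * (T + n) := by
    have h1 : (⌊4 * T / γ⌋₊ : ℝ) ≤ 4 * T / γ := Nat.floor_le h4T
    have h2 : 4 * T / γ ≤ Γ * T := by
      rw [div_le_iff₀ hγ]
      nlinarith
    have h3 : (T' : ℝ) = ⌊4 * T / γ⌋₊ + n := by rw [hT']; push_cast; ring
    rw [h3]
    nlinarith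
  -- the number of bits
  set ℓ₀ : ℕ := ⌈Real.log n / Real.log 2⌉₊ with hℓ₀
  have hl2 : 0 < Real.log 2 := by linarith
  have hℓ1 : (n : ℝ) ≤ 2 ^ ℓ₀ := by
    have h1 : Real.log n / Real.log 2 ≤ ℓ₀ := Nat.le_ceil _
    rw [div_le_iff₀ hl2] at h1
    have h2 : Real.log n ≤ Real.log ((2 : ℝ) ^ ℓ₀) := by
      rw [Real.log_pow]
      exact h1
    exact (Real.log_le_log_iff hn0 (by positivity)).1 h2
  have hℓ2 : (ℓ₀ : ℝ) + 1 ≤ 5 * Real.log n := by
    have h1 : (ℓ₀ : ℝ) ≤ Real.log n / Real.log 2 + 1 :=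
      (Nat.ceil_lt_add_one (div_nonneg (by linarith) hl2.le)).le
    have h2 : Real.log n / Real.log 2 ≤ 1.45 * Real.log n := by
      rw [div_le_iff₀ hl2]
      nlinarith
    linarith
  set ℓ : ℕ := Γ * (ℓ₀ + 1) with hℓ
  have hℓ3 : (ℓ : ℝ) ≤ 5 * Γ * Real.log n := by
    rw [hℓ]
    push_cast
    calc (Γ : ℝ) * (ℓ₀ + 1) ≤ Γ * (5 * Real.log n) := mul_le_mul_of_nonneg_left hℓ2 hΓp.le
      _ = _ := by ring
  have hK1Γ : K + 1 ≤ Γ := by exact_mod_cast hΓK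
  have hℓ4 : T' + 1 ≤ 2 ^ ℓ := by
    have h1 : (T' : ℝ) + 1 ≤ 2 ^ ℓ := by
      have h2 : (1 : ℝ) ≤ (n : ℝ) ^ (K + 1) := one_le_pow₀ (by linarith)
      have h3 : (T' : ℝ) + 1 ≤ 2 * Γ * (n : ℝ) ^ (K + 1) := by
        have h4 : Γ * (T + n) ≤ Γ * (n : ℝ) ^ (K + 1) := mul_le_mul_of_nonneg_left hbig.le hΓp.le
        nlinarith
      have h4 : (n : ℝ) ^ (K + 1) ≤ 2 ^ (ℓ₀ * (K + 1)) := by
        rw [pow_mul]
        exact pow_le_pow_left₀ hn0.le hℓ1 _
      have h5 : 2 * (Γ : ℝ) ≤ 2 ^ Γ := by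
        have h6 : Γ < 2 ^ Γ := Nat.lt_two_pow_self
        have h7 : 2 * Γ ≤ 2 ^ Γ := by
          obtain ⟨g, hg⟩ : ∃ g, Γ = g + 1 := ⟨Γ - 1, by omega⟩
          rw [hg, pow_succ]
          have h8 : g < 2 ^ g := Nat.lt_two_pow_self
          omega
        exact_mod_cast h7
      have h6 : ℓ₀ * (K + 1) ≤ ℓ₀ * Γ := Nat.mul_le_mul_left _ hK1Γ
      calc (T' : ℝ) + 1 ≤ 2 * Γ * (n : ℝ) ^ (K + 1) := h3
        _ ≤ 2 ^ Γ * 2 ^ (ℓ₀ * (K + 1)) := mul_le_mul h5 h4 (by positivity) (by positivity)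
        _ = 2 ^ (Γ + ℓ₀ * (K + 1)) := by rw [pow_add]
        _ ≤ 2 ^ ℓ := by
            refine pow_le_pow_right₀ (by norm_num) ?_
            rw [hℓ]
            calc Γ + ℓ₀ * (K + 1) ≤ Γ + ℓ₀ * Γ := by omega
              _ = Γ * (ℓ₀ + 1) := by ring
    exact_mod_cast h1
  set A : ℝ := ((K : ℝ) + 1) * (1 + (K : ℝ) ^ (k + 1)) with hA
  have hA1 : A ≤ (Γ : ℝ) ^ r := by
    have h1 : 1 + (K : ℝ) ^ (k + 1) ≤ ((K : ℝ) + 1) ^ (k + 1) := by
      have h2 : (K : ℝ) ^ (k + 1) + 1 ^ (k + 1) ≤ ((K : ℝ) + 1) ^ (k + 1) :=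
        pow_add_pow_le (by linarith) (by norm_num) (by omega)
      rw [one_pow] at h2
      linarith
    have h2 : ((K : ℝ) + 1) ^ (k + 1) ≤ (Γ : ℝ) ^ (k + 1) := pow_le_pow_left₀ (by linarith) hΓK _
    calc A ≤ Γ * (Γ : ℝ) ^ (k + 1) := mul_le_mul hΓK (h1.trans h2) (by positivity) hΓp.le
      _ = (Γ : ℝ) ^ r := by rw [hr, pow_succ (Γ : ℝ) (k + 1)]; ring
  have hA0 : 0 < A := by rw [hA]; positivity
  set G : ℝ := 384 * ((K : ℝ) + 1) * A ^ 2 * ((ℓ : ℝ) * (k + 1)) ^ k / (γ / 4) ^ 4 with hG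
  have hG0 : 0 ≤ G := by rw [hG]; positivity
  have hγΓ : 1 ≤ Γ * (γ / 4) := by linarith
  have hG1 : G ≤ B ^ r * y ^ k := by
    rw [hG, div_le_iff₀ (by positivity)]
    have h1 : ((ℓ : ℝ) * (k + 1)) ^ k ≤ (5 * Γ * y) ^ k := by
      refine pow_le_pow_left₀ (by positivity) ?_ k
      calc (ℓ : ℝ) * (k + 1) ≤ (5 * Γ * Real.log n) * (k + 2) :=
            mul_le_mul hℓ3 (by linarith) (by positivity) (by
              have : 0 ≤ Real.log n := by linarith
              positivity)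
        _ = 5 * Γ * y := by rw [hy]; ring
    have h2 : A ^ 2 ≤ ((Γ : ℝ) ^ r) ^ 2 := pow_le_pow_left₀ hA0.le hA1 2
    have h3 : (1 : ℝ) ≤ (Γ * (γ / 4)) ^ 4 := one_le_pow₀ hγΓ
    have h4 : (384 : ℝ) ≤ 384 ^ r := by
      calc (384 : ℝ) = 384 ^ 1 := by norm_num
        _ ≤ 384 ^ r := pow_le_pow_right₀ (by norm_num) (by omega)
    have h5 : (5 : ℝ) ^ k ≤ 5 ^ r := pow_le_pow_right₀ (by norm_num) (by omega)
    calc 384 * ((K : ℝ) + 1) * A ^ 2 * ((ℓ : ℝ) * (k + 1)) ^ k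
        ≤ 384 * Γ * ((Γ : ℝ) ^ r) ^ 2 * (5 * Γ * y) ^ k := by
          refine mul_le_mul ?_ h1 (by positivity) (by positivity)
          refine mul_le_mul ?_ h2 (by positivity) (by positivity)
          exact mul_le_mul_of_nonneg_left hΓK (by norm_num)
      _ ≤ (384 * Γ * ((Γ : ℝ) ^ r) ^ 2 * (5 * Γ * y) ^ k) * (Γ * (γ / 4)) ^ 4 :=
          le_mul_of_one_le_right (by positivity) h3
      _ = (384 * 5 ^ k) * (Γ : ℝ) ^ (1 + r * 2 + k + 4) * y ^ k * (γ / 4) ^ 4 := by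
          rw [mul_pow (5 * (Γ : ℝ)) y k, mul_pow (5 : ℝ) (Γ : ℝ) k, mul_pow (Γ : ℝ) (γ / 4) 4,
            pow_add (Γ : ℝ) (1 + r * 2 + k) 4, pow_add (Γ : ℝ) (1 + r * 2) k,
            pow_add (Γ : ℝ) 1 (r * 2), pow_one, pow_mul (Γ : ℝ) r 2]
          ring
      _ ≤ (384 ^ r * 5 ^ r) * (Γ : ℝ) ^ (6 * r) * y ^ k * (γ / 4) ^ 4 := by
          refine mul_le_mul_of_nonneg_right ?_ (by positivity)
          refine mul_le_mul_of_nonneg_right ?_ (by positivity)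
          refine mul_le_mul (mul_le_mul h4 h5 (by positivity) (by positivity)) ?_
            (by positivity) (by positivity)
          exact pow_le_pow_right₀ hΓ0 (by omega)
      _ = B ^ r * y ^ k * (γ / 4) ^ 4 := by
          rw [hB, mul_pow (1920 : ℝ) ((Γ : ℝ) ^ 6) r, ← pow_mul (Γ : ℝ) 6 r,
            ← mul_pow (384 : ℝ) 5 r]
          norm_num
  set s : ℕ := Γ * (r + 3) + r + 1 with hs
  have hs1 : 2 * A * ((K : ℝ) + 1) * ((k : ℝ) + 2) ≤ (γ / 4) ^ 2 * 2 ^ s := by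
    have h1 : (1 : ℝ) ≤ (Γ * (γ / 4)) ^ 2 := one_le_pow₀ hγΓ
    have h2 : (Γ : ℝ) ≤ 2 ^ Γ := by
      have : Γ < 2 ^ Γ := Nat.lt_two_pow_self
      exact_mod_cast this.le
    have h3 : ((k : ℝ) + 2) ≤ 2 ^ r := by
      have h4 : r < 2 ^ r := Nat.lt_two_pow_self
      have h5 : (r : ℝ) ≤ 2 ^ r := by exact_mod_cast h4.le
      have h6 : (r : ℝ) = k + 2 := by rw [hr]; push_cast; ring
      rw [← h6]
      exact h5
    calc 2 * A * ((K : ℝ) + 1) * ((k : ℝ) + 2) ≤ 2 * (Γ : ℝ) ^ r * Γ * 2 ^ r := by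
          refine mul_le_mul ?_ h3 (by positivity) (by positivity)
          exact mul_le_mul (mul_le_mul_of_nonneg_left hA1 (by norm_num)) hΓK (by positivity)
            (by positivity)
      _ ≤ (2 * (Γ : ℝ) ^ r * Γ * 2 ^ r) * (Γ * (γ / 4)) ^ 2 :=
          le_mul_of_one_le_right (by positivity) h1
      _ = (γ / 4) ^ 2 * ((Γ : ℝ) ^ (r + 3) * 2 ^ (r + 1)) := by
          rw [mul_pow, pow_add (Γ : ℝ) r 3, pow_succ (2 : ℝ) r]
          ring
      _ ≤ (γ / 4) ^ 2 * (((2 : ℝ) ^ Γ) ^ (r + 3) * 2 ^ (r + 1)) := by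
          refine mul_le_mul_of_nonneg_left ?_ (by positivity)
          exact mul_le_mul_of_nonneg_right (pow_le_pow_left₀ hΓp.le h2 _) (by positivity)
      _ = (γ / 4) ^ 2 * 2 ^ s := by
          rw [← pow_mul, ← pow_add, hs]
          congr 2
  by_cases hbig2 : 2 * G * (1 + s) ≤ n
  · -- the main case
    have h1 := hyp T' ℓ s A G hT'1 (by rw [hT']; exact Nat.le_add_left _ _) hℓ4 rfl rfl hs1 hbig2
    have h2 : (n : ℝ) ^ (K + r) ≤ Γ * (γ / 2 * (n : ℝ) ^ (K + k + 2)) := by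
      have h3 : (1 : ℝ) ≤ Γ * (γ / 2) := by linarith
      have h4 : K + r = K + k + 2 := by omega
      rw [h4, ← mul_assoc]
      exact le_mul_of_one_le_left (by positivity) h3
    have hKΓ : (K : ℝ) ≤ Γ := by linarith
    have h3 : (48 * K * G) ^ (k + 1) ≤ (48 * Γ) ^ r * (B' ^ (r ^ 2) * y ^ ((k + 1) * k)) := by
      calc (48 * K * G) ^ (k + 1) ≤ ((48 * Γ) * (B ^ r * y ^ k)) ^ (k + 1) := by
            refine pow_le_pow_left₀ (by positivity) ?_ _
            exact mul_le_mul (mul_le_mul_of_nonneg_left hKΓ (by norm_num)) hG1 hG0 (by positivity)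
        _ = (48 * Γ) ^ (k + 1) * (B ^ (r * (k + 1)) * y ^ ((k + 1) * k)) := by
            rw [mul_pow, mul_pow (B ^ r), ← pow_mul, ← pow_mul, mul_comm k (k + 1)]
        _ ≤ (48 * Γ) ^ r * (B' ^ (r ^ 2) * y ^ ((k + 1) * k)) := by
            have h4 : (1 : ℝ) ≤ 48 * Γ := by linarith
            refine mul_le_mul (pow_le_pow_right₀ h4 (by omega)) ?_ (by positivity) (by positivity)
            refine mul_le_mul_of_nonneg_right ?_ (by positivity)
            calc B ^ (r * (k + 1)) ≤ B ^ (r ^ 2) := by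
                  refine pow_le_pow_right₀ hB1 ?_
                  rw [sq]
                  exact Nat.mul_le_mul_left _ (by omega)
              _ ≤ B' ^ (r ^ 2) := pow_le_pow_left₀ (by linarith) hBB' _
    have h4 : (T' : ℝ) ^ (k + 2) ≤ (Γ : ℝ) ^ r * (T + n) ^ r := by
      rw [← mul_pow]
      exact pow_le_pow_left₀ (Nat.cast_nonneg _) hT'2 r
    have h5 : (Γ : ℝ) ≤ (Γ : ℝ) ^ r := by
      calc (Γ : ℝ) = (Γ : ℝ) ^ 1 := (pow_one _).symm
        _ ≤ (Γ : ℝ) ^ r := pow_le_pow_right₀ hΓ0 (by omega)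
    calc (n : ℝ) ^ (K + r) ≤ Γ * (γ / 2 * (n : ℝ) ^ (K + k + 2)) := h2
      _ ≤ Γ * ((48 * K * G) ^ (k + 1) * (T' : ℝ) ^ (k + 2)) :=
          mul_le_mul_of_nonneg_left h1 hΓp.le
      _ ≤ (Γ : ℝ) ^ r * (((48 * Γ) ^ r * (B' ^ (r ^ 2) * y ^ ((k + 1) * k))) *
          ((Γ : ℝ) ^ r * (T + n) ^ r)) := by
          refine mul_le_mul h5 ?_ (by positivity) (by positivity)
          exact mul_le_mul h3 h4 (by positivity) (by positivity)
      _ = (48 * (Γ : ℝ) ^ 3) ^ r * B' ^ (r ^ 2) * y ^ ((k + 1) * k) * (T + n) ^ r := by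
          have h6 : (48 * (Γ : ℝ) ^ 3) ^ r = (Γ : ℝ) ^ r * (48 * Γ) ^ r * (Γ : ℝ) ^ r := by
            rw [← mul_pow, ← mul_pow]
            congr 1
            ring
          rw [h6]
          ring
      _ ≤ C ^ (r ^ 2) * y ^ ((k + 1) * k) * (T + n) ^ r := by
          refine mul_le_mul_of_nonneg_right ?_ (by positivity)
          refine mul_le_mul_of_nonneg_right ?_ (by positivity)
          calc (48 * (Γ : ℝ) ^ 3) ^ r * B' ^ (r ^ 2)
              ≤ (48 * (Γ : ℝ) ^ 3) ^ (r ^ 2) * B' ^ (r ^ 2) := by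
                refine mul_le_mul_of_nonneg_right ?_ (by positivity)
                refine pow_le_pow_right₀ h48 ?_
                rw [sq]
                exact Nat.le_mul_of_pos_left _ (by omega)
            _ = (48 * (Γ : ℝ) ^ 3 * B') ^ (r ^ 2) := (mul_pow (48 * (Γ : ℝ) ^ 3) B' (r ^ 2)).symm
            _ ≤ C ^ (r ^ 2) := pow_le_pow_left₀ (by positivity) hCa _
  · -- small `n`
    push Not at hbig2
    have h1 : (n : ℝ) ≤ B' ^ r * y ^ k := by
      have h2 : (2 : ℝ) * (1 + s) ≤ (2 ^ (3 * Γ + 2)) ^ r := by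
        have h3 : 1 + s ≤ 2 ^ s := by
          have : s < 2 ^ s := Nat.lt_two_pow_self
          omega
        have h4 : 2 * (1 + s) ≤ 2 ^ (s + 1) := by rw [pow_succ]; omega
        have h5 : (2 : ℝ) * (1 + s) ≤ 2 ^ (s + 1) := by exact_mod_cast h4
        refine h5.trans ?_
        rw [← pow_mul]
        refine pow_le_pow_right₀ (by norm_num) ?_
        rw [hs]
        have h6 : Γ * (r + 3) ≤ Γ * (3 * r) := Nat.mul_le_mul_left _ (by omega)
        calc Γ * (r + 3) + r + 1 + 1 ≤ Γ * (3 * r) + 2 * r := by omega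
          _ = (3 * Γ + 2) * r := by ring
      calc (n : ℝ) ≤ 2 * G * (1 + s) := hbig2.le
        _ = G * (2 * (1 + s)) := by ring
        _ ≤ (B ^ r * y ^ k) * (2 ^ (3 * Γ + 2)) ^ r := mul_le_mul hG1 h2 (by positivity) (by positivity)
        _ = B' ^ r * y ^ k := by rw [hB', mul_pow B ((2 : ℝ) ^ (3 * Γ + 2)) r]; ring
    have hgoal : (n : ℝ) ^ K ≤ C ^ (r ^ 2) * y ^ ((k + 1) * k) := by
      by_cases hKk : K ≤ k + 1
      · calc (n : ℝ) ^ K ≤ (B' ^ r * y ^ k) ^ K := pow_le_pow_left₀ hn0.le h1 K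
          _ = B' ^ (r * K) * y ^ (k * K) := by rw [mul_pow, ← pow_mul, ← pow_mul]
          _ ≤ C ^ (r ^ 2) * y ^ ((k + 1) * k) := by
              refine mul_le_mul ?_ ?_ (by positivity) (by positivity)
              · calc B' ^ (r * K) ≤ B' ^ (r ^ 2) := by
                      refine pow_le_pow_right₀ hB'1 ?_
                      rw [sq]
                      exact Nat.mul_le_mul_left _ (by omega)
                  _ ≤ C ^ (r ^ 2) := pow_le_pow_left₀ (by linarith) hCc _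
              · refine pow_le_pow_right₀ hy1 ?_
                rw [mul_comm (k + 1) k]
                exact Nat.mul_le_mul_left _ hKk
      · push Not at hKk
        have hrK : r ≤ K := by omega
        have hL0 : 0 ≤ Real.log n := by linarith
        have hyK : y ≤ K * Real.log n := by
          rw [hy]
          refine mul_le_mul_of_nonneg_right ?_ hL0
          have : (r : ℝ) ≤ K := by exact_mod_cast hrK
          have h6 : (r : ℝ) = k + 2 := by rw [hr]; push_cast; ring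
          linarith
        have h2 : (n : ℝ) ≤ (B' * K) ^ K * Real.log n ^ K := by
          calc (n : ℝ) ≤ B' ^ r * y ^ k := h1
            _ ≤ B' ^ K * y ^ K := by
                refine mul_le_mul (pow_le_pow_right₀ hB'1 hrK) (pow_le_pow_right₀ hy1 (by omega))
                  (by positivity) (by positivity)
            _ ≤ B' ^ K * (K * Real.log n) ^ K := by
                refine mul_le_mul_of_nonneg_left ?_ (by positivity)
                exact pow_le_pow_left₀ hy0.le hyK K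
            _ = _ := by rw [mul_pow (K : ℝ) (Real.log n) K, mul_pow B' (K : ℝ) K]; ring
        have h3 : Real.log n ^ (2 * K) ≤ ((2 * K).factorial : ℝ) * n := by
          have h4 := Real.pow_div_factorial_le_exp (Real.log n) hL0 (2 * K)
          rw [Real.exp_log hn0, div_le_iff₀ (by positivity)] at h4
          linarith
        have h4 : (n : ℝ) ≤ (B' * K) ^ (2 * K) * ((2 * K).factorial : ℝ) := by
          have h5 : (n : ℝ) * n ≤ ((B' * K) ^ (2 * K) * ((2 * K).factorial : ℝ)) * n := by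
            calc (n : ℝ) * n ≤ ((B' * K) ^ K * Real.log n ^ K) * ((B' * K) ^ K * Real.log n ^ K) :=
                  mul_le_mul h2 h2 hn0.le (by positivity)
              _ = (B' * K) ^ (2 * K) * Real.log n ^ (2 * K) := by
                  rw [two_mul, pow_add, pow_add]
                  ring
              _ ≤ (B' * K) ^ (2 * K) * (((2 * K).factorial : ℝ) * n) :=
                  mul_le_mul_of_nonneg_left h3 (by positivity)
              _ = _ := by ring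
          exact le_of_mul_le_mul_right h5 hn0
        calc (n : ℝ) ^ K ≤ C₃ := pow_le_pow_left₀ hn0.le h4 K
          _ ≤ C := hCb
          _ = C ^ 1 * 1 := by ring
          _ ≤ C ^ (r ^ 2) * y ^ ((k + 1) * k) := by
              refine mul_le_mul (pow_le_pow_right₀ hC1 ?_) (hyp1 _) (by norm_num) (by positivity)
              exact Nat.one_le_pow _ _ (by omega)
    calc (n : ℝ) ^ (K + r) = (n : ℝ) ^ K * (n : ℝ) ^ r := pow_add _ _ _
      _ ≤ (C ^ (r ^ 2) * y ^ ((k + 1) * k)) * (T + n) ^ r :=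
          mul_le_mul hgoal (pow_le_pow_left₀ hn0.le hTn r) (by positivity) (by positivity)
      _ = _ := by ring

end Pool.Agent.H692.RR
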