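import Mathlib

/-!
# The bound with a root, and a bound for the number of rounds
-/

set_option autoImplicit false

namespace Pool.Agent.H692.RR

theorem root_form {K k n : ℕ} {C T : ℝ} (hC : 1 ≤ C) (hn : 2 ≤ n) (hT : 0 ≤ T)
    (h : (n : ℝ) ^ (K + (k + 2)) ≤ C ^ ((k + 2) ^ 2) *
      (((k : ℝ) + 2) * Real.log n) ^ ((k + 1) * k) * (T + n) ^ (k + 2)) :
    (n : ℝ) ^ (1 + (K : ℝ) / ((k : ℝ) + 2)) ≤ C ^ (k + 2) *
      (((k : ℝ) + 2) * Real.log n) ^ (((k : ℝ) + 1) * k / (k + 2)) * (T + n) := by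
  have hn' : (2 : ℝ) ≤ n := by exact_mod_cast hn
  have hn0 : (0 : ℝ) < n := by linarith
  have hL : 0 < Real.log n := Real.log_pos (by linarith)
  have hk : (0 : ℝ) < (k : ℝ) + 2 := by positivity
  set y : ℝ := ((k : ℝ) + 2) * Real.log n with hy
  have hy0 : 0 < y := by positivity
  have hr : (((k + 2 : ℕ)) : ℝ) = (k : ℝ) + 2 := by push_cast; ring
  have h1 : ((n : ℝ) ^ (1 + (K : ℝ) / ((k : ℝ) + 2))) ^ (k + 2) = (n : ℝ) ^ (K + (k + 2)) := by
    rw [← Real.rpow_natCast, ← Real.rpow_mul hn0.le, hr, ← Real.rpow_natCast]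
    congr 1
    push_cast
    field_simp
    ring
  have h2 : (y ^ (((k : ℝ) + 1) * k / (k + 2))) ^ (k + 2) = y ^ ((k + 1) * k) := by
    rw [← Real.rpow_natCast, ← Real.rpow_mul hy0.le, hr, ← Real.rpow_natCast]
    congr 1
    push_cast
    field_simp
  refine (pow_le_pow_iff_left₀ (by positivity) (by positivity) (by omega : k + 2 ≠ 0)).1 ?_
  rw [h1, mul_pow, mul_pow, h2, ← pow_mul, ← sq]
  exact h

theorem rounds_form {K k n : ℕ} (hK : 1 ≤ K) {C T : ℝ} (hC : 1 ≤ C) (hn : 16 ≤ n) (hT : 0 ≤ T)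
    (h : (n : ℝ) ^ (K + (k + 2)) ≤ C ^ ((k + 2) ^ 2) *
      (((k : ℝ) + 2) * Real.log n) ^ ((k + 1) * k) * (T + n) ^ (k + 2)) {a : ℝ} (ha : 0 ≤ a)
    (hTa : T ≤ n * Real.log n ^ a) :
    √(Real.log n / ((Real.log C + 3 + a) * Real.log (Real.log n))) ≤ (k : ℝ) + 2 := by
  have hn' : (16 : ℝ) ≤ n := by exact_mod_cast hn
  have hn0 : (0 : ℝ) < n := by linarith
  have he := Real.exp_one_lt_d9
  -- `exp 1 ≤ log n`
  have hL1 : Real.exp 1 ≤ Real.log n := by
    have h1 : Real.log 16 ≤ Real.log n := Real.log_le_log (by norm_num) hn'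
    have h2 : Real.log 16 = 4 * Real.log 2 := by
      rw [show (16 : ℝ) = 2 ^ 4 by norm_num, Real.log_pow]
      norm_num
    have h3 := Real.log_two_gt_d9
    linarith
  set L : ℝ := Real.log n with hL
  have hL0 : 0 < L := lt_of_lt_of_le (Real.exp_pos 1) hL1
  have hL2 : 1 ≤ L := by
    have := Real.add_one_le_exp (1 : ℝ)
    linarith
  have hM1 : 1 ≤ Real.log L := by
    rw [Real.le_log_iff_exp_le hL0]
    exact hL1
  set M : ℝ := Real.log L with hM
  set r : ℝ := (k : ℝ) + 2 with hr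
  have hk0 : (0 : ℝ) ≤ k := Nat.cast_nonneg _
  have hr2 : 2 ≤ r := by rw [hr]; linarith
  have hr0 : 0 < r := by linarith
  have hC0 : 0 ≤ Real.log C := Real.log_nonneg hC
  have hden : 0 < (Real.log C + 3 + a) * M := by positivity
  rw [Real.sqrt_le_left hr0.le, div_le_iff₀ hden]
  by_cases hrL : L < r
  · -- many rounds
    have h1 : L ≤ r ^ 2 := by nlinarith
    have h2 : 1 ≤ (Real.log C + 3 + a) * M := by nlinarith
    calc L ≤ r ^ 2 := h1
      _ ≤ r ^ 2 * ((Real.log C + 3 + a) * M) := le_mul_of_one_le_right (by positivity) h2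
  · push Not at hrL
    have hTn : T + n ≤ 2 * (n * L ^ a) := by
      have h1 : 1 ≤ L ^ a := Real.one_le_rpow hL2 ha
      have h2 : (n : ℝ) * 1 ≤ n * L ^ a := mul_le_mul_of_nonneg_left h1 hn0.le
      linarith
    have hLa0 : 0 < L ^ a := Real.rpow_pos_of_pos hL0 a
    have h1 : Real.log ((n : ℝ) ^ (K + (k + 2))) ≤ Real.log (C ^ ((k + 2) ^ 2) *
        (r * L) ^ ((k + 1) * k) * (2 * (n * L ^ a)) ^ (k + 2)) := by
      refine Real.log_le_log (by positivity) (h.trans ?_)
      refine mul_le_mul_of_nonneg_left ?_ (by positivity)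
      exact pow_le_pow_left₀ (by linarith) hTn _
    have hC00 : C ≠ 0 := by linarith
    rw [Real.log_pow, Real.log_mul (by positivity) (by positivity),
      Real.log_mul (by positivity) (by positivity), Real.log_pow, Real.log_pow, Real.log_pow,
      Real.log_mul hr0.ne' hL0.ne', Real.log_mul (by norm_num) (by positivity),
      Real.log_mul hn0.ne' hLa0.ne', Real.log_rpow hL0, ← hL, ← hM] at h1
    push_cast at h1
    have h2 : Real.log r ≤ M := Real.log_le_log hr0 hrL
    have h3 : Real.log 2 ≤ 1 := by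
      have := Real.log_two_lt_d9
      linarith
    have hr' : (k : ℝ) = r - 2 := by rw [hr]; ring
    rw [hr'] at h1
    have hK' : (1 : ℝ) ≤ K := by exact_mod_cast hK
    have h4 : ((r - 2 + 1) * (r - 2)) * (Real.log r + M) ≤ r ^ 2 * (2 * M) := by
      refine mul_le_mul ?_ (by linarith) ?_ (by positivity)
      · nlinarith
      · have : 0 ≤ Real.log r := Real.log_nonneg (by linarith)
        linarith
    have h5 : (r - 2 + 2) * (Real.log 2 + (L + a * M)) ≤ r * L + r ^ 2 * (1 + a) * M := by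
      have h6 : r * (Real.log 2 + a * M) ≤ r ^ 2 * ((1 + a) * M) := by
        refine mul_le_mul ?_ ?_ ?_ (by positivity)
        · nlinarith
        · nlinarith
        · have : 0 ≤ Real.log 2 := Real.log_nonneg (by norm_num)
          positivity
      nlinarith
    have h6 : Real.log C ≤ Real.log C * M := le_mul_of_one_le_right hC0 hM1
    have h7 : (r - 2 + 2) ^ 2 * Real.log C ≤ r ^ 2 * (Real.log C * M) := by
      have : r - 2 + 2 = r := by ring
      rw [this]
      exact mul_le_mul_of_nonneg_left h6 (by positivity)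
    have h8 : (K : ℝ) * L + r * L ≤ r ^ 2 * (Real.log C * M) + r ^ 2 * (2 * M) +
        (r * L + r ^ 2 * (1 + a) * M) := by
      have h9 : ((K : ℝ) + (r - 2 + 2)) * L = K * L + r * L := by ring
      rw [← h9]
      linarith
    have h9 : 1 * L ≤ K * L := mul_le_mul_of_nonneg_right hK' hL0.le
    have h10 : r ^ 2 * ((Real.log C + 3 + a) * M) = r ^ 2 * (Real.log C * M) + r ^ 2 * (2 * M) +
        r ^ 2 * (1 + a) * M := by ring
    rw [h10]
    linarith

end Pool.Agent.H692.RR
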