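import Mathlib
import Pool.Agent.H692.RT.Main
import Pool.Agent.H692.RR.Three

/-!
# Randomized trees with few rounds
-/

set_option autoImplicit false
set_option linter.unusedSectionVars false

namespace Pool.Agent.H692.RR

open Finset Filter Topology
open Pool.Agent.H692.KS
open Pool.Agent.H692.RT (forms forms_finite gen_of vs lv tl dot_tl tl_ne yes dot_yes noi dot_noi
  dot_noi_smul form_of_notMem form_lv prob prob_eq eventually_sign)

variable {K n : ℕ}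

open Classical in
theorem card_tight (hK : 1 ≤ K) {x h t : ℕ} :
    (K * x : ℝ) ^ h * (#(univ.filter fun q : Th K n x h t × Tup (K + 1) n => Tight q.1 q.2) : ℝ) =
      (n : ℝ) ^ (K + 1) * Fintype.card (Th K n x h t) := by
  rw [← sum_boole, Fintype.sum_prod_type, sum_comm, mul_sum]
  have h1 : ∀ s : Tup (K + 1) n, (K * x : ℝ) ^ h * ∑ θ : Th K n x h t,
      (if Tight θ s then (1 : ℝ) else 0) = Fintype.card (Th K n x h t) := fun s => sum_tight hK s
  have h2 : ∑ s : Tup (K + 1) n, (K * x : ℝ) ^ h * ∑ θ : Th K n x h t,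
      (if Tight θ s then (1 : ℝ) else 0) =
      ∑ _s : Tup (K + 1) n, (Fintype.card (Th K n x h t) : ℝ) := sum_congr rfl fun s _ => h1 s
  refine Eq.trans ?_ (h2.trans ?_)
  · rfl
  · rw [sum_const, card_univ, nsmul_eq_mul, Fintype.card_pi_const, Fintype.card_fin]
    push_cast
    rfl

open Classical in
theorem many_tradeoff (hK : 1 ≤ K) {c : Fin (K + 1) → ℝ} (hc : ∀ p, c p ≠ 0) {κ' : Type}
    [Finite κ'] {E : κ' → Var (K + 1) n → ℝ} (hE : Indep c E) {P : Type} [TopologicalSpace P]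
    [BaireSpace P]
    {pot : P → Var (K + 1) n → ℝ} (hpot : Continuous pot) (hval : ∀ y s, val c (pot y) s = 0)
    (hEpot : ∀ y e, dot (E e) (pot y) = 0)
    {W : Set (Var (K + 1) n → ℝ)} (hW : IsOpen W) {y₀ : P} (hy₀ : pot y₀ ∈ W)
    {β : Type} (φ : β → Bool) {Ω : Type} [Fintype Ω] (p : Ω → ℝ) (hp0 : ∀ ρ, 0 ≤ p ρ)
    (hp1 : ∑ ρ, p ρ = 1) (t : Ω → RTree pot β) {γ T : ℝ} (hγ : 0 < γ) {x k : ℕ} (hx : 1 ≤ x)
    (hno : ∀ w ∈ W, (∀ s, val c w s ≠ 0) → (∀ e, dot (E e) w ≠ 0) →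
      (1 + γ) / 2 ≤ prob p (fun ρ => φ ((t ρ).run w) = false) ∧ (∀ ρ, (t ρ).rounds w ≤ k + 2) ∧
        ∑ ρ, p ρ * (t ρ).tests w ≤ T)
    (hyes : ∀ w ∈ W, ∀ τ, val c w τ = 0 → (∀ s, s ≠ τ → val c w s ≠ 0) →
      (∀ e, dot (E e) w ≠ 0) → (1 + γ) / 2 ≤ prob p (fun ρ => φ ((t ρ).run w) = true))
    {T' : ℕ} (hT' : 4 * T ≤ γ * (T' + 1))
    (D : ℕ → ℕ) (l m : ℕ) (hm : m ≤ (K + 1) * n) {κ : ℝ}
    (h1 : ∀ i < k + 1, ((T' : ℝ) + 1) ^ (D i * i) * T'.choose (D (i + 1) + 1) ≤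
      κ * (x : ℝ) ^ (D (i + 1) + 1))
    (h2 : ((T' : ℝ) + 1) ^ (D k * k) * (2 ^ D (k + 1) * (((K : ℝ) + 1) * n - m / 2) ^ l) ≤
      κ * (((K : ℝ) + 1) * n) ^ l)
    (h3 : (K * x : ℝ) ^ (k + 1) ≤ (n : ℝ) ^ K)
    (h4 : ((l : ℝ) + m + ((k : ℝ) + 2) * κ * (((K : ℝ) + 1) * n)) * (((K : ℝ) + 1) *
      (1 + (K : ℝ) ^ (k + 1))) ≤ (γ / 4) ^ 2 * n) (hn : 1 ≤ n) :
    γ / 2 * (n : ℝ) ^ (K + 1) ≤ (K * x : ℝ) ^ (k + 1) * T' := by
  have hx0 : 0 < x := hx
  have hx' : (0 : ℝ) < x := by exact_mod_cast hx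
  have hK' : (0 : ℝ) < K := by exact_mod_cast hK
  -- the generic special input
  obtain ⟨x₀, hxW, hgood⟩ : ∃ x₀, pot x₀ ∈ W ∧ ∀ ρ, Good φ (t ρ) x₀ := by
    have hd : Dense {x | ∀ ρ, Good φ (t ρ) x} :=
      dense_of_mem_residual (eventually_all.2 fun ρ => good hpot φ (t ρ))
    obtain ⟨x₀, h1, h2⟩ := hd.inter_open_nonempty (pot ⁻¹' W) (hW.preimage hpot) ⟨y₀, hy₀⟩
    exact ⟨x₀, h1, h2⟩
  let R : Ω → KS.LT (Var (K + 1) n) := fun ρ => red φ (t ρ) x₀
  have hev : ∀ v : Var (K + 1) n → ℝ, ∃ ε : ℝ, 0 < ε ∧ pot x₀ + ε • v ∈ W ∧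
      ∀ ρ, (R ρ).Gen v → φ ((t ρ).run (pot x₀ + ε • v)) = (R ρ).run v ∧
      (R ρ).rounds v = (t ρ).rounds (pot x₀ + ε • v) ∧
      (R ρ).tests v = (t ρ).tests (pot x₀ + ε • v) := by
    intro v
    have h1 : ∀ᶠ ε in 𝓝[>] (0 : ℝ), ∀ ρ, (R ρ).Gen v →
        φ ((t ρ).run (pot x₀ + ε • v)) = (R ρ).run v ∧
        (R ρ).rounds v = (t ρ).rounds (pot x₀ + ε • v) ∧
        (R ρ).tests v = (t ρ).tests (pot x₀ + ε • v) := by
      refine eventually_all.2 fun ρ => ?_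
      by_cases hG : (R ρ).Gen v
      · filter_upwards [hgood ρ v hG] with ε h _
        exact h
      · exact Eventually.of_forall fun ε h => absurd h hG
    obtain ⟨ε, ⟨h2, h3⟩, h4⟩ := ((h1.and ((tendsto_line (pot x₀) v).eventually
      (hW.mem_nhds hxW))).and self_mem_nhdsWithin).exists
    exact ⟨ε, h4, h3, h2⟩
  have hvv : ∀ (ε : ℝ) (u : Var (K + 1) n → ℝ) (s : Tup (K + 1) n),
      val c (pot x₀ + ε • u) s = ε * val c u s := by
    intro ε u s
    rw [val_add_smul, hval, zero_add]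
  have hEv : ∀ (ε : ℝ) (u : Var (K + 1) n → ℝ) e,
      dot (E e) (pot x₀ + ε • u) = ε * dot (E e) u := by
    intro ε u e
    rw [dot_add_smul, hEpot, zero_add]
  -- the forms
  set FL : Set (Var (K + 1) n → ℝ) := (⋃ ρ, forms (R ρ)) ∪ (Set.range (form c) ∪ Set.range E)
    with hFL
  have hFLfin : FL.Finite := (Set.finite_iUnion fun ρ => forms_finite (R ρ)).union
    ((Set.finite_range _).union (Set.finite_range _))
  set FL' : Set (Var (K + 1) n → ℝ) := FL ∪ ⋃ s, tl c s '' FL with hFL'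
  have hFLfin' : FL'.Finite := hFLfin.union (Set.finite_iUnion fun s => hFLfin.image _)
  have hmem : ∀ ρ, ∀ L ∈ forms (R ρ), L ∈ FL := fun ρ L hL => Or.inl (Set.mem_iUnion.2 ⟨ρ, hL⟩)
  have hmemf : ∀ s, form c s ∈ FL := fun s => Or.inr (Or.inl ⟨s, rfl⟩)
  have hmemE : ∀ e, E e ∈ FL := fun e => Or.inr (Or.inr ⟨e, rfl⟩)
  have hmem' : ∀ L ∈ FL, L ∈ FL' := fun L hL => Or.inl hL
  have hmemtl : ∀ L ∈ FL, ∀ s, tl c s L ∈ FL' := fun L hL s =>
    Or.inr (Set.mem_iUnion.2 ⟨s, L, hL, rfl⟩)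
  obtain ⟨g, u, hB⟩ := exists_base (x := x) (h := k + 1) (t := l) c hFLfin'
  have hune : ∀ (θ : Th K n x (k + 1) l), ∀ L ∈ FL', L ≠ 0 → dot L (u θ) ≠ 0 :=
    fun θ L hL h0 => base_ne hB θ hL h0
  have hzne : ∀ (θ : Th K n x (k + 1) l) s, ∀ L ∈ FL, (¬ ∃ a : ℝ, L = a • form c s) →
      dot L (yes c (u θ) s) ≠ 0 := by
    intro θ s L hL h
    rw [dot_yes]
    exact hune θ _ (hmemtl L hL s) (tl_ne h)
  obtain ⟨ε, hε1, hε⟩ : ∃ ε : ℝ, (∀ (θ : Th K n x (k + 1) l) s, ∀ L ∈ FL,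
      (¬ ∃ a : ℝ, L = a • form c s) →
      SignType.sign (dot L (noi c (u θ) ε s)) = SignType.sign (dot L (yes c (u θ) s))) ∧
      0 < ε := by
    have h1 : ∀ᶠ ε in 𝓝[>] (0 : ℝ), ∀ (θ : Th K n x (k + 1) l) s, ∀ L ∈ FL,
        (¬ ∃ a : ℝ, L = a • form c s) →
        SignType.sign (dot L (noi c (u θ) ε s)) = SignType.sign (dot L (yes c (u θ) s)) := by
      refine eventually_all.2 fun θ => eventually_all.2 fun s => (eventually_all_finite hFLfin).2
        fun L hL => ?_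
      by_cases h : ∃ a : ℝ, L = a • form c s
      · exact Eventually.of_forall fun ε h' => absurd h h'
      · filter_upwards [eventually_sign L (yes c (u θ) s) (Pi.single (lv s) 1)
          (hzne θ s L hL h)] with ε h2 _
        exact h2
    obtain ⟨ε, h2, h3⟩ := (h1.and self_mem_nhdsWithin).exists
    exact ⟨ε, h2, h3⟩
  have hyne : ∀ (θ : Th K n x (k + 1) l) s, ∀ L ∈ FL, L ≠ 0 →
      dot L (noi c (u θ) ε s) ≠ 0 := by
    intro θ s L hL h0
    by_cases h : ∃ a : ℝ, L = a • form c s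
    · obtain ⟨a, rfl⟩ := h
      rw [dot_noi_smul hc]
      have ha : a ≠ 0 := by
        rintro rfl
        rw [zero_smul] at h0
        exact h0 rfl
      exact mul_ne_zero hε.ne' (mul_ne_zero ha (hc _))
    · intro h1
      have h2 := hε1 θ s L hL h
      rw [h1, sign_zero] at h2
      exact hzne θ s L hL h (sign_eq_zero_iff.1 h2.symm)
  -- no-instances
  have hA : ∀ v : Var (K + 1) n → ℝ, (∀ L ∈ FL, L ≠ 0 → dot L v ≠ 0) →
      (1 + γ) / 2 ≤ prob p (fun ρ => (R ρ).run v = false) ∧ (∀ ρ, (R ρ).rounds v ≤ k + 2) ∧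
        ∑ ρ, p ρ * (R ρ).tests v ≤ T := by
    intro v hvF
    obtain ⟨ε', hε', h1, h2⟩ := hev v
    have hG : ∀ ρ, (R ρ).Gen v := fun ρ => gen_of _ fun L hL h0 => hvF L (hmem ρ L hL) h0
    have h3 := hno _ h1 (fun s => by
        rw [hvv]
        refine mul_ne_zero hε'.ne' ?_
        rw [← dot_form]
        exact hvF _ (hmemf s) (form_ne hc s))
      (fun e => by
        rw [hEv]
        exact mul_ne_zero hε'.ne' (hvF _ (hmemE e) (hE e).1))
    have e1 : (fun ρ => (R ρ).run v = false) =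
        fun ρ => φ ((t ρ).run (pot x₀ + ε' • v)) = false := by
      funext ρ
      rw [(h2 ρ (hG ρ)).1]
    refine ⟨by rw [e1]; exact h3.1, fun ρ => ?_, ?_⟩
    · rw [(h2 ρ (hG ρ)).2.1]
      exact h3.2.1 ρ
    · rw [sum_congr rfl fun ρ _ => by rw [(h2 ρ (hG ρ)).2.2]]
      exact h3.2.2
  have hpair : ∀ (θ : Th K n x (k + 1) l) (s : Tup (K + 1) n), γ ≤ prob p (fun ρ =>
      Diff (R ρ) (noi c (u θ) ε s) (yes c (u θ) s)) := by
    intro θ s
    have h1 := (hA _ (hyne θ s)).1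
    obtain ⟨ε', hε', h2, h3⟩ := hev (yes c (u θ) s)
    have h4 := hyes _ h2 s (by
        rw [hvv, ← dot_form, dot_yes]
        have : tl c s (form c s) = 0 := by
          unfold tl
          rw [form_lv, div_self (hc _), one_smul, sub_self]
        rw [this]
        unfold dot
        simp)
      (fun s' hs => by
        rw [hvv, ← dot_form]
        refine mul_ne_zero hε'.ne' (hzne _ _ _ (hmemf s') ?_)
        rintro ⟨a, ha⟩
        exact hs (form_inj hc ha))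
      (fun e => by
        rw [hEv]
        refine mul_ne_zero hε'.ne' (hzne _ _ _ (hmemE e) ?_)
        rintro ⟨a, ha⟩
        exact (hE e).2 _ a ha)
    have h5 : ∀ ρ, (if (R ρ).run (noi c (u θ) ε s) = false then p ρ else 0) +
        (if φ ((t ρ).run (pot x₀ + ε' • yes c (u θ) s)) = true then p ρ else 0) ≤
        p ρ + (if Diff (R ρ) (noi c (u θ) ε s) (yes c (u θ) s) then p ρ else 0) := by
      intro ρ
      have h0 := hp0 ρ
      by_cases hb : Diff (R ρ) (noi c (u θ) ε s) (yes c (u θ) s)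
      · rw [if_pos hb]
        split_ifs <;> linarith
      · obtain ⟨hb1, hb2⟩ := of_not_diff (R ρ) (fun L hL h0 => hyne θ s L (hmem ρ L hL) h0) hb
        rw [if_neg hb, (h3 ρ hb1).1, hb2]
        cases (R ρ).run (yes c (u θ) s) <;> simp
    have h6 := sum_le_sum fun ρ (_ : ρ ∈ (univ : Finset Ω)) => h5 ρ
    rw [sum_add_distrib, sum_add_distrib, hp1] at h6
    rw [prob_eq] at h1 h4
    rw [prob_eq]
    linarith
  -- few tests
  have hmarkov : ∀ (θ : Th K n x (k + 1) l) (s : Tup (K + 1) n),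
      ∑ ρ, (if T' < (R ρ).tests (noi c (u θ) ε s) then p ρ else 0) ≤ γ / 4 := by
    intro θ s
    have h5 := (hA _ (hyne θ s)).2.2
    have hT1 : (0 : ℝ) < (T' : ℝ) + 1 := by positivity
    have h6 : ((T' : ℝ) + 1) * ∑ ρ, (if T' < (R ρ).tests (noi c (u θ) ε s) then p ρ else 0) ≤
        T := by
      refine le_trans ?_ h5
      rw [mul_sum]
      refine sum_le_sum fun ρ _ => ?_
      split_ifs with h7
      · have h8 : ((T' : ℝ) + 1) ≤ (R ρ).tests (noi c (u θ) ε s) := by exact_mod_cast h7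
        calc ((T' : ℝ) + 1) * p ρ ≤ (R ρ).tests (noi c (u θ) ε s) * p ρ :=
              mul_le_mul_of_nonneg_right h8 (hp0 ρ)
          _ = _ := mul_comm _ _
      · rw [mul_zero]
        exact mul_nonneg (hp0 ρ) (Nat.cast_nonneg _)
    refine le_of_mul_le_mul_left (h6.trans ?_) hT1
    linarith
  -- cut trees
  let C : Ω → KS.LT (Var (K + 1) n) := fun ρ => cap (R ρ) T'
  have hpair' : ∀ (θ : Th K n x (k + 1) l) (s : Tup (K + 1) n), 3 * γ / 4 ≤ ∑ ρ,
      (if Diff (C ρ) (noi c (u θ) ε s) (yes c (u θ) s) then p ρ else 0) := by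
    intro θ s
    have h5 := hpair θ s
    have h6 := hmarkov θ s
    rw [prob_eq] at h5
    have h7 : ∀ ρ, (if Diff (R ρ) (noi c (u θ) ε s) (yes c (u θ) s) then p ρ else 0) ≤
        (if Diff (C ρ) (noi c (u θ) ε s) (yes c (u θ) s) then p ρ else 0) +
        (if T' < (R ρ).tests (noi c (u θ) ε s) then p ρ else 0) := by
      intro ρ
      have h0 := hp0 ρ
      by_cases h8 : Diff (R ρ) (noi c (u θ) ε s) (yes c (u θ) s)
      · by_cases h9 : T' < (R ρ).tests (noi c (u θ) ε s)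
        · rw [if_pos h8, if_pos h9]
          split_ifs <;> linarith
        · rw [if_pos h8, if_neg h9, if_pos (cap_diff (R ρ) T' h8 (not_lt.1 h9)), add_zero]
      · rw [if_neg h8]
        split_ifs <;> linarith
    have h8 := sum_le_sum fun ρ (_ : ρ ∈ (univ : Finset Ω)) => h7 ρ
    rw [sum_add_distrib] at h8
    linarith
  have hone : ∀ ρ, (K * x : ℝ) ^ (k + 1) * (#(univ.filter fun q : Th K n x (k + 1) l ×
      Tup (K + 1) n => Tight q.1 q.2 ∧ Diff (C ρ) (noi c (u q.1) ε q.2) (yes c (u q.1) q.2)) : ℝ) ≤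
      ((K * x : ℝ) ^ (k + 1) * T' + γ / 4 * (n : ℝ) ^ (K + 1)) *
        Fintype.card (Th K n x (k + 1) l) := by
    intro ρ
    have hf : ∀ L ∈ forms (C ρ), L ∈ FL := fun L hL => hmem ρ L (forms_cap (R ρ) T' hL)
    refine one_tree hK hx0 hc hB (C ρ) (fun L hL => hmem' L (hf L hL))
      (fun L hL s => hmemtl L (hf L hL) s) (cap_tests (R ρ) · T') ?_ ?_ D m hm h1 h2 h3
      (by positivity) h4
    · exact fun θ s L hL h5 => hε1 θ s L (hf L hL) h5
    · exact fun θ s => (cap_rounds (R ρ) _ T').trans ((hA _ (hyne θ s)).2.1 ρ)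
  -- counting
  set N : ℝ := (Fintype.card (Th K n x (k + 1) l) : ℝ) with hN
  have hn0 : 0 < n := hn
  have hN0 : 0 < N := by
    have h5 := Om_nonempty (K := K) (n := n) hK hx0
    have h6 : 0 < (Om K n x).card := card_pos.2 h5
    have h7 : (0 : ℝ) < Fintype.card (Fin l → Var (K + 1) n) := by
      have : Nonempty (Fin l → Var (K + 1) n) := ⟨fun _ => (0, ⟨0, hn0⟩)⟩
      exact_mod_cast Fintype.card_pos
    rw [hN, card_Th]
    have h8 : (0 : ℝ) < (Om K n x).card := by exact_mod_cast h6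
    positivity
  set Z : Finset (Th K n x (k + 1) l × Tup (K + 1) n) := univ.filter fun q => Tight q.1 q.2
    with hZ
  have hZc := card_tight (n := n) (x := x) (h := k + 1) (t := l) hK
  have hsum : 3 * γ / 4 * #Z ≤ ∑ ρ, p ρ * (#(univ.filter fun q : Th K n x (k + 1) l ×
      Tup (K + 1) n => Tight q.1 q.2 ∧
        Diff (C ρ) (noi c (u q.1) ε q.2) (yes c (u q.1) q.2)) : ℝ) := by
    calc 3 * γ / 4 * (#Z : ℝ) = ∑ _q ∈ Z, 3 * γ / 4 := by rw [sum_const, nsmul_eq_mul]; ring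
      _ ≤ ∑ q ∈ Z, ∑ ρ, (if Diff (C ρ) (noi c (u q.1) ε q.2) (yes c (u q.1) q.2) then p ρ
          else 0) := sum_le_sum fun q _ => hpair' q.1 q.2
      _ = _ := by
          rw [sum_comm]
          refine sum_congr rfl fun ρ _ => ?_
          rw [← sum_filter, sum_const, nsmul_eq_mul, mul_comm, hZ, filter_filter]
  have hfin : (3 * γ / 4 * (n : ℝ) ^ (K + 1)) * N ≤
      ((K * x : ℝ) ^ (k + 1) * T' + γ / 4 * (n : ℝ) ^ (K + 1)) * N := by
    calc (3 * γ / 4 * (n : ℝ) ^ (K + 1)) * N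
        = 3 * γ / 4 * ((K * x : ℝ) ^ (k + 1) * #Z) := by rw [hZc]; ring
      _ = (K * x : ℝ) ^ (k + 1) * (3 * γ / 4 * #Z) := by ring
      _ ≤ (K * x : ℝ) ^ (k + 1) * ∑ ρ, p ρ * (#(univ.filter fun q : Th K n x (k + 1) l ×
          Tup (K + 1) n => Tight q.1 q.2 ∧
          Diff (C ρ) (noi c (u q.1) ε q.2) (yes c (u q.1) q.2)) : ℝ) :=
          mul_le_mul_of_nonneg_left hsum (by positivity)
      _ = ∑ ρ, p ρ * ((K * x : ℝ) ^ (k + 1) * (#(univ.filter fun q : Th K n x (k + 1) l ×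
          Tup (K + 1) n => Tight q.1 q.2 ∧
          Diff (C ρ) (noi c (u q.1) ε q.2) (yes c (u q.1) q.2)) : ℝ)) := by
          rw [mul_sum]
          exact sum_congr rfl fun ρ _ => by ring
      _ ≤ ∑ ρ, p ρ * (((K * x : ℝ) ^ (k + 1) * T' + γ / 4 * (n : ℝ) ^ (K + 1)) * N) :=
          sum_le_sum fun ρ _ => mul_le_mul_of_nonneg_left (hone ρ) (hp0 ρ)
      _ = _ := by rw [← sum_mul, hp1, one_mul]
  have h5 := le_of_mul_le_mul_right hfin hN0
  linarith

end Pool.Agent.H692.RR
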