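import Mathlib

/-!
# Parameters
-/

set_option autoImplicit false

namespace Pool.Agent.H692.RR

open Finset

theorem choose_le_div {T j : ℕ} {x : ℝ} (hx : 0 ≤ x) (h : 12 * (T : ℝ) ≤ j * x) (hj : 0 < j) :
    (T.choose j : ℝ) ≤ (x / 4) ^ j := by
  have hj' : (0 : ℝ) < j := by exact_mod_cast hj
  have h1 : (T.choose j : ℝ) ≤ (T : ℝ) ^ j / (j.factorial : ℝ) := Nat.choose_le_pow_div j T
  have h2 : (j : ℝ) ^ j / (j.factorial : ℝ) ≤ Real.exp j :=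
    Real.pow_div_factorial_le_exp (j : ℝ) (Nat.cast_nonneg _) j
  have h3 : Real.exp j ≤ 3 ^ j := by
    have h4 : Real.exp j = Real.exp 1 ^ j := by rw [← Real.exp_nat_mul, mul_one]
    rw [h4]
    refine pow_le_pow_left₀ (Real.exp_pos 1).le ?_ j
    have := Real.exp_one_lt_d9
    linarith
  have hf : (0 : ℝ) < (j.factorial : ℝ) := by exact_mod_cast j.factorial_pos
  have h5 : (T : ℝ) ≤ j * x / 12 := by linarith
  calc (T.choose j : ℝ) ≤ (T : ℝ) ^ j / (j.factorial : ℝ) := h1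
    _ ≤ (j * x / 12) ^ j / (j.factorial : ℝ) := by
        refine div_le_div_of_nonneg_right ?_ hf.le
        exact pow_le_pow_left₀ (Nat.cast_nonneg _) h5 j
    _ = ((j : ℝ) ^ j / (j.factorial : ℝ)) * (x / 12) ^ j := by
        rw [show (j * x / 12 : ℝ) = j * (x / 12) by ring, mul_pow]
        ring
    _ ≤ 3 ^ j * (x / 12) ^ j :=
        mul_le_mul_of_nonneg_right (h2.trans h3) (by positivity)
    _ = (x / 4) ^ j := by
        rw [← mul_pow]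
        congr 1
        ring

/-- the bounds for the ranks -/
def Dk (ℓ k d : ℕ) : ℕ → ℕ
  | 0 => 0
  | i + 1 => (ℓ * (k + 1)) ^ i * d

theorem Dk_step {ℓ k d i : ℕ} (hi : i < k + 1) :
    ℓ * (Dk ℓ k d i * i) ≤ Dk ℓ k d (i + 1) := by
  cases i with
  | zero => simp [Dk]
  | succ i =>
    unfold Dk
    calc ℓ * ((ℓ * (k + 1)) ^ i * d * (i + 1)) = (ℓ * (k + 1)) ^ i * d * (ℓ * (i + 1)) := by ring
      _ ≤ (ℓ * (k + 1)) ^ i * d * (ℓ * (k + 1)) :=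
          Nat.mul_le_mul_left _ (Nat.mul_le_mul_left _ (by omega))
      _ = (ℓ * (k + 1)) ^ (i + 1) * d := by ring

theorem Dk_ge {ℓ k d i : ℕ} (hℓ : 1 ≤ ℓ) : d ≤ Dk ℓ k d (i + 1) := by
  unfold Dk
  exact Nat.le_mul_of_pos_left _ (Nat.pow_pos (by positivity))

theorem pow_Dk {ℓ k d i T : ℕ} (hi : i < k + 1) (hT : T + 1 ≤ 2 ^ ℓ) :
    ((T : ℝ) + 1) ^ (Dk ℓ k d i * i) ≤ 2 ^ Dk ℓ k d (i + 1) := by
  have h1 : (T : ℝ) + 1 ≤ 2 ^ ℓ := by exact_mod_cast hT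
  calc ((T : ℝ) + 1) ^ (Dk ℓ k d i * i) ≤ ((2 : ℝ) ^ ℓ) ^ (Dk ℓ k d i * i) :=
        pow_le_pow_left₀ (by positivity) h1 _
    _ = 2 ^ (ℓ * (Dk ℓ k d i * i)) := by rw [← pow_mul]
    _ ≤ 2 ^ Dk ℓ k d (i + 1) := pow_le_pow_right₀ (by norm_num) (Dk_step hi)

theorem cond1 {ℓ k a s i T x : ℕ} (hℓ : 1 ≤ ℓ) (hi : i < k + 1) (hT : T + 1 ≤ 2 ^ ℓ)
    (ha : 12 * T ≤ a * x) {κ : ℝ} (hκ : 1 ≤ κ * 2 ^ s) :
    ((T : ℝ) + 1) ^ (Dk ℓ k (a + s) i * i) * T.choose (Dk ℓ k (a + s) (i + 1) + 1) ≤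
      κ * (x : ℝ) ^ (Dk ℓ k (a + s) (i + 1) + 1) := by
  set j : ℕ := Dk ℓ k (a + s) (i + 1) + 1 with hj
  have h1 := pow_Dk (d := a + s) hi hT
  have hja : a + s + 1 ≤ j := Nat.succ_le_succ (Dk_ge hℓ)
  have h2 : (T.choose j : ℝ) ≤ ((x : ℝ) / 4) ^ j := by
    refine choose_le_div (Nat.cast_nonneg _) ?_ (by omega)
    have h3 : 12 * T ≤ j * x := ha.trans (Nat.mul_le_mul_right _ (by omega))
    exact_mod_cast h3
  have hκ0 : 0 < κ := by
    by_contra hcon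
    push Not at hcon
    have : κ * 2 ^ s ≤ 0 := mul_nonpos_of_nonpos_of_nonneg hcon (by positivity)
    linarith
  have h3 : (1 : ℝ) ≤ κ * 2 ^ j := by
    refine hκ.trans (mul_le_mul_of_nonneg_left ?_ hκ0.le)
    exact pow_le_pow_right₀ (by norm_num) (by omega)
  calc ((T : ℝ) + 1) ^ (Dk ℓ k (a + s) i * i) * T.choose j
      ≤ 2 ^ j * ((x : ℝ) / 4) ^ j := by
        refine mul_le_mul (h1.trans ?_) h2 (Nat.cast_nonneg _) (by positivity)
        exact pow_le_pow_right₀ (by norm_num) (by omega)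
    _ ≤ 2 ^ j * ((x : ℝ) / 4) ^ j * (κ * 2 ^ j) := le_mul_of_one_le_right (by positivity) h3
    _ = κ * (2 * (x / 4) * 2) ^ j := by rw [mul_pow, mul_pow]; ring
    _ = κ * (x : ℝ) ^ j := by congr 2; ring

theorem cond2 {ℓ k d s T m : ℕ} {N κ : ℝ} (hN : 0 < N) (hm : (m : ℝ) ≤ N) (hT : T + 1 ≤ 2 ^ ℓ)
    (hs : s ≤ Dk ℓ k d (k + 1)) (hκ : 1 ≤ κ * 2 ^ s)
    (h : 6 * N * Dk ℓ k d (k + 1) ≤ (m : ℝ) * m) :
    ((T : ℝ) + 1) ^ (Dk ℓ k d k * k) * (2 ^ Dk ℓ k d (k + 1) * (N - m / 2) ^ m) ≤ κ * N ^ m := by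
  set D : ℕ := Dk ℓ k d (k + 1) with hD
  have h1 := pow_Dk (d := d) (Nat.lt_succ_self k) hT
  have hm0 : (0 : ℝ) ≤ m := Nat.cast_nonneg _
  have hκ0 : 0 < κ := by
    by_contra hcon
    push Not at hcon
    have : κ * 2 ^ s ≤ 0 := mul_nonpos_of_nonpos_of_nonneg hcon (by positivity)
    linarith
  have h2 : (1 : ℝ) ≤ κ * 2 ^ D := by
    refine hκ.trans (mul_le_mul_of_nonneg_left ?_ hκ0.le)
    exact pow_le_pow_right₀ (by norm_num) hs
  have h3 : (N - m / 2) ^ m ≤ N ^ m * Real.exp (-(m * m / (2 * N))) := by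
    have h4 : N - m / 2 = N * (1 - m / (2 * N)) := by
      field_simp
    have h5 : (1 : ℝ) - m / (2 * N) ≤ Real.exp (-(m / (2 * N))) := by
      have := Real.add_one_le_exp (-((m : ℝ) / (2 * N)))
      linarith
    have h6 : (0 : ℝ) ≤ 1 - m / (2 * N) := by
      have : (m : ℝ) / (2 * N) ≤ 1 := by
        rw [div_le_one (by positivity)]
        linarith
      linarith
    rw [h4, mul_pow]
    refine mul_le_mul_of_nonneg_left ?_ (by positivity)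
    calc (1 - (m : ℝ) / (2 * N)) ^ m ≤ Real.exp (-(m / (2 * N))) ^ m := pow_le_pow_left₀ h6 h5 m
      _ = Real.exp (-(m * m / (2 * N))) := by
          rw [← Real.exp_nat_mul]
          congr 1
          ring
  have h4 : (2 : ℝ) ^ D * 2 ^ D * 2 ^ D ≤ Real.exp (m * m / (2 * N)) := by
    have h5 : (2 : ℝ) ≤ Real.exp 1 := by
      have := Real.add_one_le_exp (1 : ℝ)
      linarith
    calc (2 : ℝ) ^ D * 2 ^ D * 2 ^ D = 2 ^ (3 * D) := by rw [← pow_add, ← pow_add]; congr 1; ring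
      _ ≤ Real.exp 1 ^ (3 * D) := pow_le_pow_left₀ (by norm_num) h5 _
      _ = Real.exp ((3 * D : ℕ) : ℝ) := by rw [← Real.exp_nat_mul, mul_one]
      _ ≤ Real.exp (m * m / (2 * N)) := by
          refine Real.exp_le_exp.2 ?_
          rw [le_div_iff₀ (by positivity)]
          push_cast
          linarith
  have h5 : (2 : ℝ) ^ D * 2 ^ D * Real.exp (-(m * m / (2 * N))) ≤ κ := by
    have h6 : (2 : ℝ) ^ D * 2 ^ D * Real.exp (-(m * m / (2 * N))) * 2 ^ D ≤ 1 := by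
      rw [Real.exp_neg]
      have h7 := Real.exp_pos ((m : ℝ) * m / (2 * N))
      calc (2 : ℝ) ^ D * 2 ^ D * (Real.exp (m * m / (2 * N)))⁻¹ * 2 ^ D
          = (2 ^ D * 2 ^ D * 2 ^ D) * (Real.exp (m * m / (2 * N)))⁻¹ := by ring
        _ ≤ Real.exp (m * m / (2 * N)) * (Real.exp (m * m / (2 * N)))⁻¹ :=
            mul_le_mul_of_nonneg_right h4 (by positivity)
        _ = 1 := mul_inv_cancel₀ h7.ne'
    have h7 : (0 : ℝ) < 2 ^ D := by positivity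
    exact le_of_mul_le_mul_right (h6.trans h2) h7
  have h6 : (0 : ℝ) ≤ (N - m / 2) ^ m := pow_nonneg (by linarith) _
  calc ((T : ℝ) + 1) ^ (Dk ℓ k d k * k) * (2 ^ D * (N - m / 2) ^ m)
      ≤ 2 ^ D * (2 ^ D * (N ^ m * Real.exp (-(m * m / (2 * N))))) := by
        refine mul_le_mul h1 ?_ (by positivity) (by positivity)
        exact mul_le_mul_of_nonneg_left h3 (by positivity)
    _ = (2 ^ D * 2 ^ D * Real.exp (-(m * m / (2 * N)))) * N ^ m := by ring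
    _ ≤ κ * N ^ m := mul_le_mul_of_nonneg_right h5 (by positivity)

end Pool.Agent.H692.RR
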