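import Mathlib
import Pool.Agent.H692.RR.Main
import Pool.Agent.H692.RR.Param

/-!
# Randomized trees with few rounds: the bound with parameters
-/

set_option autoImplicit false
set_option linter.unusedSectionVars false

namespace Pool.Agent.H692.RR

open Finset Filter Topology
open Pool.Agent.H692.KS
open Pool.Agent.H692.RT (prob)

variable {K n : ℕ}

theorem rand_rounds (hK : 1 ≤ K) {c : Fin (K + 1) → ℝ} (hc : ∀ p, c p ≠ 0) {κ' : Type}
    [Finite κ'] {E : κ' → Var (K + 1) n → ℝ} (hE : Indep c E) {P : Type} [TopologicalSpace P]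
    [BaireSpace P]
    {pot : P → Var (K + 1) n → ℝ} (hpot : Continuous pot) (hval : ∀ y s, val c (pot y) s = 0)
    (hEpot : ∀ y e, dot (E e) (pot y) = 0)
    {W : Set (Var (K + 1) n → ℝ)} (hW : IsOpen W) {y₀ : P} (hy₀ : pot y₀ ∈ W)
    {β : Type} (φ : β → Bool) {Ω : Type} [Fintype Ω] (p : Ω → ℝ) (hp0 : ∀ ρ, 0 ≤ p ρ)
    (hp1 : ∑ ρ, p ρ = 1) (t : Ω → RTree pot β) {γ T : ℝ} (hγ : 0 < γ) (hγ1 : γ ≤ 1) {k : ℕ}
    (hno : ∀ w ∈ W, (∀ s, val c w s ≠ 0) → (∀ e, dot (E e) w ≠ 0) →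
      (1 + γ) / 2 ≤ prob p (fun ρ => φ ((t ρ).run w) = false) ∧ (∀ ρ, (t ρ).rounds w ≤ k + 2) ∧
        ∑ ρ, p ρ * (t ρ).tests w ≤ T)
    (hyes : ∀ w ∈ W, ∀ τ, val c w τ = 0 → (∀ s, s ≠ τ → val c w s ≠ 0) →
      (∀ e, dot (E e) w ≠ 0) → (1 + γ) / 2 ≤ prob p (fun ρ => φ ((t ρ).run w) = true))
    {T' ℓ s : ℕ} (hT' : 4 * T ≤ γ * (T' + 1)) (hn : 1 ≤ n) (hnT : n ≤ T') (hℓ : T' + 1 ≤ 2 ^ ℓ)
    {A G : ℝ} (hA : A = ((K : ℝ) + 1) * (1 + (K : ℝ) ^ (k + 1)))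
    (hG : G = 384 * ((K : ℝ) + 1) * A ^ 2 * ((ℓ : ℝ) * (k + 1)) ^ k / (γ / 4) ^ 4)
    (hs : 2 * A * ((K : ℝ) + 1) * ((k : ℝ) + 2) ≤ (γ / 4) ^ 2 * 2 ^ s)
    (hbig : 2 * G * (1 + s) ≤ n) :
    γ / 2 * (n : ℝ) ^ (K + k + 2) ≤ (48 * K * G) ^ (k + 1) * (T' : ℝ) ^ (k + 2) := by
  set ν : ℝ := γ / 4 with hν
  have hν0 : 0 < ν := by positivity
  have hν1 : ν ≤ 1 := by linarith
  have hK' : (1 : ℝ) ≤ K := by exact_mod_cast hK
  have hn' : (1 : ℝ) ≤ n := by exact_mod_cast hn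
  have hT1 : (n : ℝ) ≤ T' := by exact_mod_cast hnT
  have hℓ1 : 1 ≤ ℓ := by
    by_contra hcon
    have : ℓ = 0 := by omega
    rw [this] at hℓ
    omega
  have hℓ' : (1 : ℝ) ≤ ℓ := by exact_mod_cast hℓ1
  have hA1 : 1 ≤ A := by
    rw [hA]
    have h1 : (0 : ℝ) ≤ (K : ℝ) ^ (k + 1) := by positivity
    nlinarith
  have hA0 : 0 < A := by linarith
  have hpow1 : (1 : ℝ) ≤ ((ℓ : ℝ) * (k + 1)) ^ k := by
    refine one_le_pow₀ ?_
    have : (0 : ℝ) ≤ k := Nat.cast_nonneg _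
    nlinarith
  have hGν : G * ν ^ 4 = 384 * ((K : ℝ) + 1) * A ^ 2 * ((ℓ : ℝ) * (k + 1)) ^ k := by
    rw [hG, div_mul_cancel₀ _ (by positivity)]
  have hν4 : ν ^ 4 ≤ ν ^ 2 := by
    have h1 : ν ^ 2 ≤ 1 := pow_le_one₀ hν0.le hν1
    have h2 : 0 ≤ ν ^ 2 := by positivity
    calc ν ^ 4 = ν ^ 2 * ν ^ 2 := by ring
      _ ≤ ν ^ 2 * 1 := mul_le_mul_of_nonneg_left h1 h2
      _ = ν ^ 2 := mul_one _
  have hG1 : 384 * A ≤ G * ν ^ 2 := by
    have h1 : 384 * A ≤ G * ν ^ 4 := by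
      rw [hGν]
      have h2 : A ≤ A ^ 2 := by nlinarith
      calc 384 * A ≤ 384 * 1 * A ^ 2 * 1 := by linarith
        _ ≤ 384 * ((K : ℝ) + 1) * A ^ 2 * ((ℓ : ℝ) * (k + 1)) ^ k := by
            refine mul_le_mul ?_ hpow1 (by norm_num) (by positivity)
            refine mul_le_mul_of_nonneg_right ?_ (by positivity)
            linarith
    have hG0 : 0 ≤ G := by rw [hG]; positivity
    exact h1.trans (mul_le_mul_of_nonneg_left hν4 hG0)
  have hG0 : 1 ≤ G := by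
    have h1 : ν ^ 2 ≤ 1 := pow_le_one₀ hν0.le hν1
    by_contra hcon
    push Not at hcon
    have h2 : 0 ≤ G := by rw [hG]; positivity
    have h3 : G * ν ^ 2 ≤ 1 * 1 := mul_le_mul hcon.le h1 (by positivity) (by norm_num)
    linarith
  have hGp : 0 < G := by linarith
  have hn0 : (0 : ℝ) < n := by linarith
  have hT0 : (0 : ℝ) < T' := by linarith
  -- the number of labels
  set y : ℝ := 24 * G * T' / n with hy
  have hy1 : 24 ≤ y := by
    rw [hy, le_div_iff₀ hn0]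
    nlinarith
  have hy0 : 0 < y := by linarith
  set x : ℕ := ⌈y⌉₊ with hx
  have hx1 : y ≤ x := Nat.le_ceil _
  have hx2 : (x : ℝ) ≤ 2 * y := by
    have := (Nat.ceil_lt_add_one hy0.le).le
    rw [← hx] at this
    linarith
  have hx3 : 1 ≤ x := by
    have : (1 : ℝ) ≤ x := by linarith
    exact_mod_cast this
  have hx0 : (0 : ℝ) < x := by linarith
  -- the rank
  set z : ℝ := 12 * T' / x with hz
  have hz0 : 0 ≤ z := by positivity
  set a : ℕ := ⌈z⌉₊ with ha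
  have ha1 : 12 * T' ≤ a * x := by
    have h1 : z ≤ a := Nat.le_ceil _
    rw [hz, div_le_iff₀ hx0] at h1
    exact_mod_cast h1
  have ha2 : (a : ℝ) ≤ n / (2 * G) + 1 := by
    have h1 : (a : ℝ) ≤ z + 1 := (Nat.ceil_lt_add_one hz0).le
    have h2 : z ≤ n / (2 * G) := by
      rw [hz, div_le_div_iff₀ hx0 (by positivity)]
      have h3 : (n : ℝ) * y = 24 * G * T' := by
        rw [hy]
        field_simp
      have h4 : (n : ℝ) * y ≤ n * x := mul_le_mul_of_nonneg_left hx1 hn0.le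
      linarith
    linarith
  have hGa : G * (a + s) ≤ n := by
    have h1 : G * a ≤ G * (n / (2 * G) + 1) := mul_le_mul_of_nonneg_left ha2 hGp.le
    have h2 : G * (n / (2 * G) + 1) = n / 2 + G := by
      field_simp
    have h3 : G * (1 + s) = G + G * s := by ring
    have h4 : 2 * G * (1 + s) = 2 * (G * (1 + s)) := by ring
    rw [mul_add]
    linarith
  -- the size of the sets
  set q : ℝ := ν ^ 2 * n / (4 * A) with hq
  have hq1 : 1 ≤ q := by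
    rw [hq, one_le_div (by positivity)]
    have h1 : 2 * G ≤ n := by
      have h2 : (0 : ℝ) ≤ s := Nat.cast_nonneg _
      have h3 : 0 ≤ 2 * G * s := by positivity
      linarith
    have h2 : ν ^ 2 * (2 * G) ≤ ν ^ 2 * n := mul_le_mul_of_nonneg_left h1 (by positivity)
    linarith
  set m : ℕ := ⌊q⌋₊ with hm
  have hm1 : (m : ℝ) ≤ q := Nat.floor_le (by linarith)
  have hm2 : q / 2 ≤ m := by
    have h1 := Nat.lt_floor_add_one q
    rw [← hm] at h1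
    have h2 : 1 ≤ m := Nat.le_floor (by exact_mod_cast hq1)
    have h3 : (1 : ℝ) ≤ m := by exact_mod_cast h2
    linarith
  have hqA : q * (4 * A) = ν ^ 2 * n := by
    rw [hq, div_mul_cancel₀ _ (by positivity)]
  have hqn : q ≤ n := by
    have h1 : q * 1 ≤ q * (4 * A) := mul_le_mul_of_nonneg_left (by linarith) (by linarith)
    have h2 : ν ^ 2 * n ≤ 1 * n :=
      mul_le_mul_of_nonneg_right (pow_le_one₀ hν0.le hν1) hn0.le
    linarith
  have hm3 : m ≤ (K + 1) * n := by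
    have h1 : (m : ℝ) ≤ ((K + 1) * n : ℕ) := by
      push_cast
      nlinarith
    exact_mod_cast h1
  -- the probabilities
  set κ : ℝ := ν ^ 2 / (2 * A * ((K : ℝ) + 1) * ((k : ℝ) + 2)) with hκ
  have hκs : 1 ≤ κ * 2 ^ s := by
    rw [hκ, div_mul_eq_mul_div, one_le_div (by positivity)]
    exact hs
  have hκ0 : 0 < κ := by positivity
  have hD : ((Dk ℓ k (a + s) (k + 1) : ℕ) : ℝ) = ((ℓ : ℝ) * (k + 1)) ^ k * (a + s) := by
    unfold Dk
    push_cast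
    ring
  have hN0 : (0 : ℝ) < ((K : ℝ) + 1) * n := by positivity
  have hmm : 6 * (((K : ℝ) + 1) * n) * ((Dk ℓ k (a + s) (k + 1) : ℕ) : ℝ) ≤ (m : ℝ) * m := by
    rw [hD]
    have h1 : q / 2 * (q / 2) ≤ (m : ℝ) * m :=
      mul_le_mul hm2 hm2 (by linarith) (Nat.cast_nonneg _)
    refine le_trans ?_ h1
    have h2 : 6 * (((K : ℝ) + 1) * n) * (((ℓ : ℝ) * (k + 1)) ^ k * (a + s)) * (64 * A ^ 2) =
        G * (a + s) * (n * ν ^ 4) := by
      calc 6 * (((K : ℝ) + 1) * n) * (((ℓ : ℝ) * (k + 1)) ^ k * (a + s)) * (64 * A ^ 2)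
          = (384 * ((K : ℝ) + 1) * A ^ 2 * ((ℓ : ℝ) * (k + 1)) ^ k) * (n * (a + s)) := by ring
        _ = (G * ν ^ 4) * (n * (a + s)) := by rw [← hGν]
        _ = _ := by ring
    have h3 : q / 2 * (q / 2) * (64 * A ^ 2) = n * (n * ν ^ 4) := by
      calc q / 2 * (q / 2) * (64 * A ^ 2) = (q * (4 * A)) * (q * (4 * A)) := by ring
        _ = _ := by rw [hqA]; ring
    have h4 : (0 : ℝ) < 64 * A ^ 2 := by positivity
    refine le_of_mul_le_mul_right ?_ h4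
    rw [h2, h3]
    exact mul_le_mul_of_nonneg_right hGa (by positivity)
  have hc1 : ∀ i < k + 1, ((T' : ℝ) + 1) ^ (Dk ℓ k (a + s) i * i) *
      T'.choose (Dk ℓ k (a + s) (i + 1) + 1) ≤ κ * (x : ℝ) ^ (Dk ℓ k (a + s) (i + 1) + 1) :=
    fun i hi => cond1 hℓ1 hi hℓ ha1 hκs
  have hc2 : ((T' : ℝ) + 1) ^ (Dk ℓ k (a + s) k * k) * (2 ^ Dk ℓ k (a + s) (k + 1) *
      (((K : ℝ) + 1) * n - m / 2) ^ m) ≤ κ * (((K : ℝ) + 1) * n) ^ m := by
    refine cond2 hN0 (hm1.trans (hqn.trans ?_)) hℓ ((Nat.le_add_left s a).trans (Dk_ge hℓ1)) hκs hmm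
    nlinarith
  have hc4 : ((m : ℝ) + m + ((k : ℝ) + 2) * κ * (((K : ℝ) + 1) * n)) * (((K : ℝ) + 1) *
      (1 + (K : ℝ) ^ (k + 1))) ≤ (γ / 4) ^ 2 * n := by
    rw [← hA, ← hν]
    have h1 : ((k : ℝ) + 2) * κ * (((K : ℝ) + 1) * n) * A = ν ^ 2 * n / 2 := by
      rw [hκ]
      field_simp
    have h2 : (m : ℝ) * A ≤ q * A := mul_le_mul_of_nonneg_right hm1 hA0.le
    have h3 : ((m : ℝ) + m + ((k : ℝ) + 2) * κ * (((K : ℝ) + 1) * n)) * A =
        2 * (m * A) + ((k : ℝ) + 2) * κ * (((K : ℝ) + 1) * n) * A := by ring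
    rw [h3, h1]
    have h4 : q * (4 * A) = 4 * (q * A) := by ring
    linarith
  have hmain : γ / 2 * (n : ℝ) ^ (K + 1) ≤ (K * x : ℝ) ^ (k + 1) * T' := by
    by_cases h3 : (K * x : ℝ) ^ (k + 1) ≤ (n : ℝ) ^ K
    · exact many_tradeoff hK hc hE hpot hval hEpot hW hy₀ φ p hp0 hp1 t hγ hx3 hno hyes hT'
        (Dk ℓ k (a + s)) m m hm3 hc1 hc2 h3 hc4 hn
    · push Not at h3
      calc γ / 2 * (n : ℝ) ^ (K + 1) ≤ 1 * (n : ℝ) ^ (K + 1) :=
            mul_le_mul_of_nonneg_right (by linarith) (by positivity)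
        _ = (n : ℝ) ^ K * n := by rw [one_mul, pow_succ]
        _ ≤ (K * x : ℝ) ^ (k + 1) * T' := mul_le_mul h3.le hT1 hn0.le (by positivity)
  have hxb : (K * x : ℝ) * n ≤ 48 * K * G * T' := by
    have h1 : (x : ℝ) * n ≤ 2 * y * n := mul_le_mul_of_nonneg_right hx2 hn0.le
    have h2 : 2 * y * n = 48 * G * T' := by
      rw [hy]
      field_simp
      norm_num
    calc (K * x : ℝ) * n = K * (x * n) := by ring
      _ ≤ K * (48 * G * T') := mul_le_mul_of_nonneg_left (by linarith) (by linarith)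
      _ = _ := by ring
  calc γ / 2 * (n : ℝ) ^ (K + k + 2) = (γ / 2 * (n : ℝ) ^ (K + 1)) * (n : ℝ) ^ (k + 1) := by
        rw [show K + k + 2 = (K + 1) + (k + 1) by ring, pow_add]
        ring
    _ ≤ ((K * x : ℝ) ^ (k + 1) * T') * (n : ℝ) ^ (k + 1) :=
        mul_le_mul_of_nonneg_right hmain (by positivity)
    _ = ((K * x : ℝ) * n) ^ (k + 1) * T' := by rw [mul_pow (K * x : ℝ)]; ring
    _ ≤ (48 * K * G * T') ^ (k + 1) * T' :=
        mul_le_mul_of_nonneg_right (pow_le_pow_left₀ (by positivity) hxb _) hT0.le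
    _ = _ := by rw [mul_pow, pow_succ (T' : ℝ) (k + 1)]; ring

end Pool.Agent.H692.RR
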