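import Mathlib
import Pool.Agent.H692.RT.Final
import Pool.Agent.H692.RR.Rounds
import Pool.Agent.H692.RR.Numeric
import Pool.Agent.H692.RR.Root

/-!
# Randomized trees with few rounds: the result
-/

set_option autoImplicit false
set_option linter.unusedSectionVars false

namespace Pool.Agent.H692.RR

open Finset Filter Topology
open Pool.Agent.H692.KS
open Pool.Agent.H692.RT (prob IsSol c111 c111_ne val_c111 near0 near0_open pot_near0 inj_of_near0
  parts_of_sol)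

/-- The family of trees `t ρ` with the probabilities `p ρ` finds out whether there is a solution, for
the lists with at most one solution (up to the order): lists of `3 n` different real numbers without
solution are rejected with probability `(1 + γ) / 2`, in at most `r` rounds and with at most `T` tests
on average; lists of different numbers with exactly one solution are accepted with probability
`(1 + γ) / 2`. -/
def Solves3 {n : ℕ} {Ω : Type} [Fintype Ω] (p : Ω → ℝ)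
    (t : Ω → RTree (pot c111 : (Fin 3 → ℝ) → Fin 3 × Fin n → ℝ) Bool) (γ T : ℝ) (r : ℕ) : Prop :=
  ((∀ ρ, 0 ≤ p ρ) ∧ ∑ ρ, p ρ = 1) ∧
    (∀ w : Fin 3 × Fin n → ℝ, Function.Injective w → (∀ a b c, ¬ IsSol w a b c) →
      (1 + γ) / 2 ≤ prob p (fun ρ => (t ρ).run w = false) ∧ (∀ ρ, (t ρ).rounds w ≤ r) ∧
        ∑ ρ, p ρ * (t ρ).tests w ≤ T) ∧
    ∀ w : Fin 3 × Fin n → ℝ, Function.Injective w →
      (∃ a b c, IsSol w a b c ∧ ∀ a' b' c', IsSol w a' b' c' →
        ({a', b', c'} : Set (Fin 3 × Fin n)) = {a, b, c}) →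
      (1 + γ) / 2 ≤ prob p (fun ρ => (t ρ).run w = true)

/-- The family of trees `t ρ` with the probabilities `p ρ` finds out whether one of the linear forms
with the coefficients `c` and one variable from each part vanishes, for the inputs `w` in `W` for which
at most one does, and in which different numbers of the same part are different. -/
def SolvesK {K n : ℕ} (c : Fin (K + 1) → ℝ) (W : Set (Var (K + 1) n → ℝ)) {Ω : Type} [Fintype Ω]
    (p : Ω → ℝ) (t : Ω → RTree (pot c : (Fin (K + 1) → ℝ) → Var (K + 1) n → ℝ) Bool) (γ T : ℝ)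
    (r : ℕ) : Prop :=
  ((∀ ρ, 0 ≤ p ρ) ∧ ∑ ρ, p ρ = 1) ∧
    (∀ w ∈ W, (∀ q, Function.Injective fun i => w (q, i)) → (∀ s, val c w s ≠ 0) →
      (1 + γ) / 2 ≤ prob p (fun ρ => (t ρ).run w = false) ∧ (∀ ρ, (t ρ).rounds w ≤ r) ∧
        ∑ ρ, p ρ * (t ρ).tests w ≤ T) ∧
    ∀ w ∈ W, (∀ q, Function.Injective fun i => w (q, i)) →
      (∃ τ, val c w τ = 0 ∧ ∀ s, s ≠ τ → val c w s ≠ 0) →
      (1 + γ) / 2 ≤ prob p (fun ρ => (t ρ).run w = true)

/-- the bound for randomized trees with at most `r` rounds which make at most `T` tests on average -/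
def Bound (K : ℕ) (C : ℝ) (r n : ℕ) (T : ℝ) : Prop :=
  (n : ℝ) ^ (1 + (K : ℝ) / r) ≤
      C ^ r * ((r : ℝ) * Real.log n) ^ (((r : ℝ) - 1) * ((r : ℝ) - 2) / r) * (T + n) ∧
    ∀ a : ℝ, 0 ≤ a → 16 ≤ n → T ≤ n * Real.log n ^ a →
      √(Real.log n / ((C + a) * Real.log (Real.log n))) ≤ r

theorem log_add_three_le {C : ℝ} (hC : 1 ≤ C) : Real.log C + 3 ≤ C + 2 := by
  have := Real.log_le_sub_one_of_pos (by linarith : 0 < C)
  linarith

theorem bound_mono {K r n : ℕ} {C C' T : ℝ} (hC : 1 ≤ C) (hCC : C + 2 ≤ C') (hn : 2 ≤ n)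
    (hT : 0 ≤ T) {k : ℕ} (hr : r = k + 2) (hK : 1 ≤ K)
    (h : (n : ℝ) ^ (K + (k + 2)) ≤ C ^ ((k + 2) ^ 2) *
      (((k : ℝ) + 2) * Real.log n) ^ ((k + 1) * k) * (T + n) ^ (k + 2)) : Bound K C' r n T := by
  subst hr
  have hn' : (2 : ℝ) ≤ n := by exact_mod_cast hn
  have hL : 0 < Real.log n := Real.log_pos (by linarith)
  have e1 : (((k + 2 : ℕ)) : ℝ) = (k : ℝ) + 2 := by push_cast; ring
  unfold Bound
  rw [e1]
  constructor
  · have h1 := root_form hC hn hT h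
    have e2 : ((k : ℝ) + 2 - 1) * ((k : ℝ) + 2 - 2) = ((k : ℝ) + 1) * k := by ring
    rw [e2]
    refine h1.trans (mul_le_mul_of_nonneg_right ?_ (by linarith))
    refine mul_le_mul_of_nonneg_right ?_ (by positivity)
    exact pow_le_pow_left₀ (by linarith) (by linarith) _
  · intro a ha h16 hTa
    refine le_trans ?_ (rounds_form hK hC h16 hT h ha hTa)
    have hn16 : (16 : ℝ) ≤ n := by exact_mod_cast h16
    -- `log log n` is positive
    have h2 : 1 < Real.log n := by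
      have h3 : Real.log 16 ≤ Real.log n := Real.log_le_log (by norm_num) hn16
      have h4 : Real.log 16 = 4 * Real.log 2 := by
        rw [show (16 : ℝ) = 2 ^ 4 by norm_num, Real.log_pow]
        norm_num
      have h5 := Real.log_two_gt_d9
      linarith
    have h3 : 0 < Real.log (Real.log n) := Real.log_pos h2
    have h4 := log_add_three_le hC
    have h5 : 0 ≤ Real.log C := Real.log_nonneg hC
    refine Real.sqrt_le_sqrt ?_
    refine div_le_div_of_nonneg_left hL.le (by positivity) ?_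
    exact mul_le_mul_of_nonneg_right (by linarith) h3.le

theorem headline {K : ℕ} (hK : 1 ≤ K) {γ : ℝ} (hγ : 0 < γ) :
    ∃ C : ℝ, 1 ≤ C ∧ ∀ (r n : ℕ), 2 ≤ r → 2 ≤ n → ∀ (T : ℝ), 0 ≤ T →
      ∀ {c : Fin (K + 1) → ℝ}, (∀ p, c p ≠ 0) →
      ∀ {κ' : Type} [Finite κ'] {E : κ' → Var (K + 1) n → ℝ}, Indep c E →
      ∀ {P : Type} [TopologicalSpace P] [BaireSpace P] {pot : P → Var (K + 1) n → ℝ},
      Continuous pot → (∀ y s, val c (pot y) s = 0) → (∀ y e, dot (E e) (pot y) = 0) →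
      ∀ {W : Set (Var (K + 1) n → ℝ)}, IsOpen W → ∀ {y₀ : P}, pot y₀ ∈ W →
      ∀ {β : Type} (φ : β → Bool) {Ω : Type} [Fintype Ω] (p : Ω → ℝ), (∀ ρ, 0 ≤ p ρ) →
      ∑ ρ, p ρ = 1 → ∀ (t : Ω → RTree pot β),
      (∀ w ∈ W, (∀ s, val c w s ≠ 0) → (∀ e, dot (E e) w ≠ 0) →
        (1 + γ) / 2 ≤ prob p (fun ρ => φ ((t ρ).run w) = false) ∧ (∀ ρ, (t ρ).rounds w ≤ r) ∧
          ∑ ρ, p ρ * (t ρ).tests w ≤ T) →
      (∀ w ∈ W, ∀ τ, val c w τ = 0 → (∀ s, s ≠ τ → val c w s ≠ 0) →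
        (∀ e, dot (E e) w ≠ 0) → (1 + γ) / 2 ≤ prob p (fun ρ => φ ((t ρ).run w) = true)) →
      Bound K C r n T := by
  -- large advantages are not interesting
  set γ' : ℝ := min γ 1 with hγ'
  have h0 : 0 < γ' := lt_min hγ one_pos
  have h1 : γ' ≤ 1 := min_le_right _ _
  have h2 : γ' ≤ γ := min_le_left _ _
  obtain ⟨C, hC, hnum⟩ := numeric hK h0 h1
  refine ⟨C + 2, by linarith, ?_⟩
  intro r n hr hn T hT c hc κ' _ E hE P _ _ pot hpot hval hEpot W hW y₀ hy₀ β φ Ω _ p hp0 hp1 t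
    hno hyes
  obtain ⟨k, rfl⟩ : ∃ k, r = k + 2 := ⟨r - 2, by omega⟩
  refine bound_mono hC le_rfl hn hT rfl hK (hnum k n T hn hT ?_)
  intro T' ℓ s A G hT' hnT hℓ hA hG hs hbig
  refine rand_rounds hK hc hE hpot hval hEpot hW hy₀ φ p hp0 hp1 t h0 h1 ?_ ?_ hT' (by omega) hnT
    hℓ hA hG hs hbig
  · intro w hw h3 h4
    have h5 := hno w hw h3 h4
    exact ⟨le_trans (by linarith) h5.1, h5.2⟩
  · intro w hw τ h3 h4 h5
    exact le_trans (by linarith) (hyes w hw τ h3 h4 h5)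

open Classical in
theorem three_sum_many {γ : ℝ} (hγ : 0 < γ) : ∃ C : ℝ, 1 ≤ C ∧ ∀ (r n : ℕ), 2 ≤ r → 2 ≤ n →
    ∀ (T : ℝ), 0 ≤ T → ∀ {Ω : Type} [Fintype Ω] (p : Ω → ℝ), (∀ ρ, 0 ≤ p ρ) → ∑ ρ, p ρ = 1 →
    ∀ {β : Type} (φ : β → Bool)
    (t : Ω → RTree (pot c111 : (Fin (2 + 1) → ℝ) → Var (2 + 1) n → ℝ) β),
    (∀ w : Fin 3 × Fin n → ℝ, Function.Injective w → (∀ a b c, ¬ IsSol w a b c) →
      (1 + γ) / 2 ≤ prob p (fun ρ => φ ((t ρ).run w) = false) ∧ (∀ ρ, (t ρ).rounds w ≤ r) ∧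
        ∑ ρ, p ρ * (t ρ).tests w ≤ T) →
    (∀ w : Fin 3 × Fin n → ℝ, Function.Injective w →
      (∃ a b c, IsSol w a b c ∧ ∀ a' b' c', IsSol w a' b' c' →
        ({a', b', c'} : Finset (Fin 3 × Fin n)) = {a, b, c}) →
      (1 + γ) / 2 ≤ prob p (fun ρ => φ ((t ρ).run w) = true)) →
    Bound 2 C r n T := by
  obtain ⟨C, hC, h⟩ := headline (K := 2) (by norm_num) hγ
  refine ⟨C, hC, ?_⟩
  intro r n hr hn T hT Ω _ p hp0 hp1 β φ t hno hyes
  refine h r n hr hn T hT c111_ne (indep_dif c111)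
    (pot_continuous c111) (val_pot c111_ne) (dif_pot c111) near0_open (y₀ := ![1, 3, -4])
    pot_near0 φ p hp0 hp1 t ?_ ?_
  · intro w hw h1 h2
    refine hno w (inj_of_near0 hw h2) ?_
    rintro a b c ⟨-, -, -, h3⟩
    obtain ⟨i, j, k, -, h4⟩ := parts_of_sol hw h3
    have h5 := h1 ![i, j, k]
    rw [val_c111] at h5
    exact h5 (by simpa using h4)
  · intro w hw τ h1 h2 h3
    refine hyes w (inj_of_near0 hw h3) ?_
    rw [val_c111] at h1
    refine ⟨(0, τ 0), (1, τ 1), (2, τ 2), ⟨by simp, by simp, by simp, h1⟩, ?_⟩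
    rintro a b c ⟨-, -, -, h4⟩
    obtain ⟨i, j, k, h5, h6⟩ := parts_of_sol hw h4
    rw [h5]
    have h7 : ![i, j, k] = τ := by
      by_contra hne
      have h8 := h2 _ hne
      rw [val_c111] at h8
      exact h8 (by simpa using h6)
    rw [← h7]
    rfl

end Pool.Agent.H692.RR
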